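import Mathlib

/-!
Algebraic core for the lattice packing density of the circular cone.
-/

namespace Cone58

/-- Reverse Cauchy–Schwarz inequality for the Lorentzian form
`Φ(M) = (2(M₁M₂+M₂M₃+M₃M₁) - M₁² - M₂² - M₃²)/4`. -/
lemma revCS (l1 l2 l3 M1 M2 M3 : ℝ) (h1 : 0 ≤ l1) (h2 : 0 ≤ l2) (h3 : 0 ≤ l3) :
    (l1*l2+l2*l3+l3*l1) * (2*(M1*M2+M2*M3+M3*M1) - M1^2-M2^2-M3^2)
      ≤ (l1*M1+l2*M2+l3*M3)^2 := by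
  have key : (l2+l3)*(l1+l3) * ((l1*M1+l2*M2+l3*M3)^2 -
      (l1*l2+l2*l3+l3*l1) * (2*(M1*M2+M2*M3+M3*M1) - M1^2-M2^2-M3^2))
      = ((l2+l3)*(l1+l3)*(M1+M2-M3) - l3*(M1*(l1+l3)+M2*(l2+l3)))^2
        + (M1*(l1+l3)-M2*(l2+l3))^2 * (l1*l2+l2*l3+l3*l1) := by ring
  have e2 : 0 ≤ l1*l2+l2*l3+l3*l1 := by positivity
  rcases (mul_nonneg (add_nonneg h2 h3) (add_nonneg h1 h3)).eq_or_lt with h0 | h0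
  · rcases mul_eq_zero.mp h0.symm with h | h
    · have a : l2 = 0 := by linarith
      have b : l3 = 0 := by linarith
      subst a; subst b
      have : (l1*0+0*0+0*l1) * (2*(M1*M2+M2*M3+M3*M1) - M1^2-M2^2-M3^2) = 0 := by ring
      rw [this]; positivity
    · have a : l1 = 0 := by linarith
      have b : l3 = 0 := by linarith
      subst a; subst b
      have : (0*l2+l2*0+0*0) * (2*(M1*M2+M2*M3+M3*M1) - M1^2-M2^2-M3^2) = 0 := by ring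
      rw [this]; positivity
  · have : 0 ≤ (l2+l3)*(l1+l3) * ((l1*M1+l2*M2+l3*M3)^2 -
      (l1*l2+l2*l3+l3*l1) * (2*(M1*M2+M2*M3+M3*M1) - M1^2-M2^2-M3^2)) := by
      rw [key]; positivity
    have := nonneg_of_mul_nonneg_right this h0
    linarith

/-- If `2 e₂(l) ≥ Σ lᵢ Mᵢ ≥ 0` then `4 e₂(l) ≥ 4Φ(M)`. -/
lemma e2_ge (l1 l2 l3 M1 M2 M3 : ℝ) (h1 : 0 ≤ l1) (h2 : 0 ≤ l2) (h3 : 0 ≤ l3)
    (hM1 : 0 ≤ M1) (hM2 : 0 ≤ M2) (hM3 : 0 ≤ M3) (he : 0 < l1*l2+l2*l3+l3*l1)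
    (h : l1*M1+l2*M2+l3*M3 ≤ 2*(l1*l2+l2*l3+l3*l1)) :
    2*(M1*M2+M2*M3+M3*M1) - M1^2-M2^2-M3^2 ≤ 4*(l1*l2+l2*l3+l3*l1) := by
  have r := revCS l1 l2 l3 M1 M2 M3 h1 h2 h3
  have n : 0 ≤ l1*M1+l2*M2+l3*M3 := by positivity
  have s : (l1*M1+l2*M2+l3*M3)^2 ≤ (2*(l1*l2+l2*l3+l3*l1))^2 := by
    apply pow_le_pow_left₀ n h
  have t : (l1*l2+l2*l3+l3*l1) * (2*(M1*M2+M2*M3+M3*M1) - M1^2-M2^2-M3^2)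
      ≤ (l1*l2+l2*l3+l3*l1) * (4*(l1*l2+l2*l3+l3*l1)) := by
    nlinarith
  exact le_of_mul_le_mul_left t he

/-- The vertex estimate. -/
lemma vertex (h k kp s1 s2 s3 l1 l2 l3 : ℝ) (hs : s1+s2+s3 = 1)
    (h1 : 0 ≤ l1) (h2 : 0 ≤ l2) (h3 : 0 ≤ l3) (he : 0 < l1*l2+l2*l3+l3*l1)
    (hk : k ≤ 16) (hkp : 0 ≤ kp) (hs3 : h*s3 ≤ 1)
    (hsum : l1*(4-k/4+kp*(1-2*s1)^2/4) + l2*(4-k/4+kp*(1-2*s2)^2/4)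
      + l3*(4-4*h*s3+kp*s3^2) ≤ 2*(l1*l2+l2*l3+l3*l1)) :
    (4-4*h*s3+kp*s3^2)*(12-k+4*h*s3) ≤ 4*(l1*l2+l2*l3+l3*l1) := by
  have M1 : 0 ≤ 4-k/4+kp*(1-2*s1)^2/4 := by
    have : 0 ≤ kp*(1-2*s1)^2/4 := by positivity
    linarith
  have M2 : 0 ≤ 4-k/4+kp*(1-2*s2)^2/4 := by
    have : 0 ≤ kp*(1-2*s2)^2/4 := by positivity
    linarith
  have M3 : 0 ≤ 4-4*h*s3+kp*s3^2 := by
    have : 0 ≤ kp*s3^2 := by positivity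
    linarith
  have r := e2_ge l1 l2 l3 _ _ _ h1 h2 h3 M1 M2 M3 he hsum
  have hs3' : s3 = 1 - s1 - s2 := by linarith
  have key : 2*((4-k/4+kp*(1-2*s1)^2/4)*(4-k/4+kp*(1-2*s2)^2/4)
      +(4-k/4+kp*(1-2*s2)^2/4)*(4-4*h*s3+kp*s3^2)
      +(4-4*h*s3+kp*s3^2)*(4-k/4+kp*(1-2*s1)^2/4))
      - (4-k/4+kp*(1-2*s1)^2/4)^2-(4-k/4+kp*(1-2*s2)^2/4)^2-(4-4*h*s3+kp*s3^2)^2
      = (4-4*h*s3+kp*s3^2)*(12-k+4*h*s3) + kp*(s1-s2)^2*(4-4*h*s3) := by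
    subst hs3'; ring
  rw [key] at r
  have : 0 ≤ kp*(s1-s2)^2*(4-4*h*s3) := by
    apply mul_nonneg (by positivity); linarith
  linarith

end Cone58
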