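import Mathlib
import Pool.Agent.Cone58.Core

namespace Cone58

/-- The local data of a projected superbase. -/
structure Dat (h nu E D2 s1 s2 s3 y1 y2 y3 l1 l2 l3 : ℝ) : Prop where
  s1n : 0 ≤ s1
  s2n : 0 ≤ s2
  s3n : 0 ≤ s3
  ss : s1 + s2 + s3 = 1
  yy : y1 + y2 + y3 = 0
  l1n : 0 ≤ l1
  l2n : 0 ≤ l2
  l3n : 0 ≤ l3
  e2 : l1*l2+l2*l3+l3*l1 = (1-nu*E)*D2
  pl : l1*y1^2+l2*y2^2+l3*y3^2 = E*D2
  a1 : 4 - s1*(4*h+2*y1) + s1^2*(h^2-E) ≤ l2+l3+nu*y1^2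
  a2 : 4 - s2*(4*h+2*y2) + s2^2*(h^2-E) ≤ l3+l1+nu*y2^2
  a3 : 4 - s3*(4*h+2*y3) + s3^2*(h^2-E) ≤ l1+l2+nu*y3^2
  b1 : 4 - (1-s1)*(4*h-2*y1) + (1-s1)^2*(h^2-E) ≤ l2+l3+nu*y1^2
  b2 : 4 - (1-s2)*(4*h-2*y2) + (1-s2)^2*(h^2-E) ≤ l3+l1+nu*y2^2
  b3 : 4 - (1-s3)*(4*h-2*y3) + (1-s3)^2*(h^2-E) ≤ l1+l2+nu*y3^2
  c1 : y1^2 ≤ E*(l2+l3+nu*y1^2)
  c2 : y2^2 ≤ E*(l3+l1+nu*y2^2)
  c3 : y3^2 ≤ E*(l1+l2+nu*y3^2)

variable {h nu E D2 s1 s2 s3 y1 y2 y3 l1 l2 l3 : ℝ}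

lemma Dat.rot (d : Dat h nu E D2 s1 s2 s3 y1 y2 y3 l1 l2 l3) :
    Dat h nu E D2 s2 s3 s1 y2 y3 y1 l2 l3 l1 where
  s1n := d.s2n
  s2n := d.s3n
  s3n := d.s1n
  ss := by linarith [d.ss]
  yy := by linarith [d.yy]
  l1n := d.l2n
  l2n := d.l3n
  l3n := d.l1n
  e2 := by linarith [d.e2]
  pl := by linarith [d.pl]
  a1 := d.a2
  a2 := d.a3
  a3 := d.a1
  b1 := d.b2
  b2 := d.b3
  b3 := d.b1
  c1 := d.c2
  c2 := d.c3
  c3 := d.c1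

lemma Dat.swap (d : Dat h nu E D2 s1 s2 s3 y1 y2 y3 l1 l2 l3) :
    Dat h nu E D2 s2 s1 s3 y2 y1 y3 l2 l1 l3 where
  s1n := d.s2n
  s2n := d.s1n
  s3n := d.s3n
  ss := by linarith [d.ss]
  yy := by linarith [d.yy]
  l1n := d.l2n
  l2n := d.l1n
  l3n := d.l3n
  e2 := by linarith [d.e2]
  pl := by linarith [d.pl]
  a1 := by linarith [d.a2]
  a2 := by linarith [d.a1]
  a3 := by linarith [d.a3]
  b1 := by linarith [d.b2]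
  b2 := by linarith [d.b1]
  b3 := by linarith [d.b3]
  c1 := by rw [add_comm l1 l3]; exact d.c2
  c2 := by rw [add_comm l3 l2]; exact d.c1
  c3 := by rw [add_comm l2 l1]; exact d.c3

noncomputable section

/-- `H = 4h - h² + E` -/
def hH (h E : ℝ) : ℝ := 4*h-h^2+E
/-- `κ = 8h - h² + E` -/
def kk (h E : ℝ) : ℝ := 8*h-h^2+E
/-- `κ' = κ - ν H²` -/
def kp (h nu E : ℝ) : ℝ := kk h E - nu*(hH h E)^2
/-- base value -/
def mm (h nu E s : ℝ) : ℝ := 4 - kk h E/4 + kp h nu E*(1-2*s)^2/4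
/-- vertex value -/
def MM (h nu E s : ℝ) : ℝ := 4 - 4*h*s + kp h nu E*s^2
/-- deviation -/
def zz (h E s y : ℝ) : ℝ := (1-2*s)*hH h E/2 - y

lemma aB {s y A : ℝ} (a : 4 - s*(4*h+2*y) + s^2*(h^2-E) ≤ A + nu*y^2) :
    mm h nu E s + zz h E s y*(2*s+nu*(1-2*s)*hH h E - nu*zz h E s y) ≤ A := by
  have : mm h nu E s + zz h E s y*(2*s+nu*(1-2*s)*hH h E - nu*zz h E s y)
      = 4 - s*(4*h+2*y) + s^2*(h^2-E) - nu*y^2 := by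
    unfold mm zz kp kk hH; ring
  linarith

lemma bB {s y A : ℝ} (a : 4 - (1-s)*(4*h-2*y) + (1-s)^2*(h^2-E) ≤ A + nu*y^2) :
    mm h nu E s - zz h E s y*(2*(1-s)-nu*(1-2*s)*hH h E + nu*zz h E s y) ≤ A := by
  have : mm h nu E s - zz h E s y*(2*(1-s)-nu*(1-2*s)*hH h E + nu*zz h E s y)
      = 4 - (1-s)*(4*h-2*y) + (1-s)^2*(h^2-E) - nu*y^2 := by
    unfold mm zz kp kk hH; ring
  linarith

lemma MM_sub_mm (s : ℝ) : MM h nu E s - mm h nu E s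
    = hH h E/2*(2*s+nu*(1-2*s)*hH h E - nu*(hH h E/2)) := by
  unfold MM mm kp kk hH; ring

lemma conv3 {t1 t2 t3 a1 a2 a3 : ℝ} (h1 : 0 ≤ t1) (h2 : 0 ≤ t2) (h3 : 0 ≤ t3)
    (ht : t1+t2+t3 = 1) (h : 0 ≤ t1*a1+t2*a2+t3*a3) : 0 ≤ a1 ∨ 0 ≤ a2 ∨ 0 ≤ a3 := by
  by_contra hc
  push Not at hc
  obtain ⟨c1, c2, c3⟩ := hc
  have p1 : t1*a1 ≤ 0 := mul_nonpos_of_nonneg_of_nonpos h1 c1.le
  have p2 : t2*a2 ≤ 0 := mul_nonpos_of_nonneg_of_nonpos h2 c2.le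
  have p3 : t3*a3 ≤ 0 := mul_nonpos_of_nonneg_of_nonpos h3 c3.le
  have q1 : t1*a1 = 0 := by linarith
  have q2 : t2*a2 = 0 := by linarith
  have q3 : t3*a3 = 0 := by linarith
  have r1 : t1 = 0 := by
    rcases mul_eq_zero.mp q1 with h | h
    · exact h
    · linarith
  have r2 : t2 = 0 := by
    rcases mul_eq_zero.mp q2 with h | h
    · exact h
    · linarith
  have r3 : t3 = 0 := by
    rcases mul_eq_zero.mp q3 with h | h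
    · exact h
    · linarith
  linarith

lemma conv2 {t1 t2 a1 a2 : ℝ} (h1 : 0 ≤ t1) (h2 : 0 ≤ t2)
    (ht : t1+t2 = 1) (h : 0 ≤ t1*a1+t2*a2) : 0 ≤ a1 ∨ 0 ≤ a2 := by
  rcases conv3 (a1 := a1) (a2 := a2) (a3 := -1) h1 h2 (le_refl 0) (by linarith) (by linarith) with h | h | h
  · exact Or.inl h
  · exact Or.inr h
  · linarith

/-- vertex alternative `V3`: `Σ lᵢ Mᵢ³ ≤ 2 e₂(l)` with special index 3. -/
def VV (h nu E s1 s2 s3 l1 l2 l3 : ℝ) : Prop :=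
  l1*mm h nu E s1 + l2*mm h nu E s2 + l3*MM h nu E s3 ≤ 2*(l1*l2+l2*l3+l3*l1)

lemma case_nonneg (d : Dat h nu E D2 s1 s2 s3 y1 y2 y3 l1 l2 l3)
    (hH0 : 0 < hH h E) (hnu : 0 ≤ nu)
    (z1 : 0 ≤ zz h E s1 y1) (z2 : 0 ≤ zz h E s2 y2) (z3 : 0 ≤ zz h E s3 y3) :
    VV h nu E s2 s3 s1 l2 l3 l1 ∨ VV h nu E s3 s1 s2 l3 l1 l2 ∨ VV h nu E s1 s2 s3 l1 l2 l3 := by
  have hz : zz h E s1 y1 + zz h E s2 y2 + zz h E s3 y3 = hH h E/2 := by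
    unfold zz
    have e1 := d.ss
    have e2 := d.yy
    have : y3 = -y1-y2 := by linarith
    have : s3 = 1-s1-s2 := by linarith
    subst_vars; ring
  have A1 := aB d.a1
  have A2 := aB d.a2
  have A3 := aB d.a3
  have M1 := MM_sub_mm (h := h) (nu := nu) (E := E) s1
  have M2 := MM_sub_mm (h := h) (nu := nu) (E := E) s2
  have M3 := MM_sub_mm (h := h) (nu := nu) (E := E) s3
  set H := hH h E with hHd
  set u1 := zz h E s1 y1 with hu1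
  set u2 := zz h E s2 y2 with hu2
  set u3 := zz h E s3 y3 with hu3
  have key : ∀ u s : ℝ, 0 ≤ u → u ≤ H/2 →
      (2*u/H)*(H/2*(2*s+nu*(1-2*s)*H - nu*(H/2))) ≤ u*(2*s+nu*(1-2*s)*H - nu*u) := by
    intro u s hu hu'
    have : (2*u/H)*(H/2*(2*s+nu*(1-2*s)*H - nu*(H/2))) = u*(2*s+nu*(1-2*s)*H - nu*(H/2)) := by
      field_simp
    rw [this]
    have : 0 ≤ u*(nu*(H/2-u)) := by
      apply mul_nonneg hu (mul_nonneg hnu (by linarith))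
    nlinarith
  have k1 := key u1 s1 z1 (by linarith)
  have k2 := key u2 s2 z2 (by linarith)
  have k3 := key u3 s3 z3 (by linarith)
  rw [← M1] at k1
  rw [← M2] at k2
  rw [← M3] at k3
  have t1 : 0 ≤ 2*u1/H := by positivity
  have t2 : 0 ≤ 2*u2/H := by positivity
  have t3 : 0 ≤ 2*u3/H := by positivity
  have tt : 2*u1/H + 2*u2/H + 2*u3/H = 1 := by
    field_simp; linarith
  have L1 : l1*(mm h nu E s1 + (2*u1/H)*(MM h nu E s1 - mm h nu E s1)) ≤ l1*(l2+l3) :=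
    mul_le_mul_of_nonneg_left (by linarith) d.l1n
  have L2 : l2*(mm h nu E s2 + (2*u2/H)*(MM h nu E s2 - mm h nu E s2)) ≤ l2*(l3+l1) :=
    mul_le_mul_of_nonneg_left (by linarith) d.l2n
  have L3 : l3*(mm h nu E s3 + (2*u3/H)*(MM h nu E s3 - mm h nu E s3)) ≤ l3*(l1+l2) :=
    mul_le_mul_of_nonneg_left (by linarith) d.l3n
  have := conv3 (a1 := 2*(l1*l2+l2*l3+l3*l1) - (l2*mm h nu E s2 + l3*mm h nu E s3 + l1*MM h nu E s1))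
    (a2 := 2*(l1*l2+l2*l3+l3*l1) - (l3*mm h nu E s3 + l1*mm h nu E s1 + l2*MM h nu E s2))
    (a3 := 2*(l1*l2+l2*l3+l3*l1) - (l1*mm h nu E s1 + l2*mm h nu E s2 + l3*MM h nu E s3))
    t1 t2 t3 tt (by
      have e : 2*u1/H * (2*(l1*l2+l2*l3+l3*l1) - (l2*mm h nu E s2 + l3*mm h nu E s3 + l1*MM h nu E s1))
        + 2*u2/H * (2*(l1*l2+l2*l3+l3*l1) - (l3*mm h nu E s3 + l1*mm h nu E s1 + l2*MM h nu E s2))
        + 2*u3/H * (2*(l1*l2+l2*l3+l3*l1) - (l1*mm h nu E s1 + l2*mm h nu E s2 + l3*MM h nu E s3))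
        = (2*u1/H + 2*u2/H + 2*u3/H)*(2*(l1*l2+l2*l3+l3*l1) -
            (l1*mm h nu E s1 + l2*mm h nu E s2 + l3*mm h nu E s3))
          - (l1*((2*u1/H)*(MM h nu E s1 - mm h nu E s1)) + l2*((2*u2/H)*(MM h nu E s2 - mm h nu E s2))
            + l3*((2*u3/H)*(MM h nu E s3 - mm h nu E s3))) := by ring
      rw [e, tt]
      linarith)
  unfold VV
  rcases this with h | h | h
  · left; linarith
  · right; left; linarith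
  · right; right; linarith

end

end Cone58
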