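import Mathlib
import Pool.Agent.Cone58.Three

namespace Cone58

noncomputable section

/-- ranges of the parameters, and the assumption that the determinant is small -/
structure Rng (h nu E D2 : ℝ) : Prop where
  h1 : 1 ≤ h
  h2 : h ≤ 5/4
  E0 : 0 ≤ E
  E1 : E ≤ 53/100
  n0 : 0 ≤ nu
  n1 : nu ≤ 1/5
  D0 : 0 < D2
  D1 : h^2*D2 ≤ 49276/10000

variable {h nu E D2 s1 s2 s3 y1 y2 y3 l1 l2 l3 : ℝ}

lemma Rng.D1' (r : Rng h nu E D2) : D2 ≤ 49276/10000 := by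
  have h2 : 1 ≤ h^2 := by nlinarith [r.h1]
  nlinarith [r.D0, r.D1]

/-- chord bound -/
lemma Rng.D1'' (r : Rng h nu E D2) : D2 ≤ 49276/10000*(1-144/100*(h-1)) := by
  have h1 := r.h1
  have h2 := r.h2
  have key : 1 ≤ h^2*(1-144/100*(h-1)) := by
    nlinarith [mul_nonneg (sub_nonneg.2 h1) (sub_nonneg.2 h2), mul_nonneg (mul_nonneg (sub_nonneg.2 h1) (sub_nonneg.2 h2)) (sub_nonneg.2 h1)]
  have hp : 0 < h^2 := by positivity
  have : h^2*D2 ≤ h^2*(49276/10000*(1-144/100*(h-1))) := by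
    have := r.D1
    nlinarith
  exact le_of_mul_le_mul_left this hp

lemma Rng.k1 (r : Rng h nu E D2) : 7 ≤ kk h E := by
  unfold kk
  nlinarith [r.h1, r.h2, r.E0]

lemma Rng.k2 (r : Rng h nu E D2) : kk h E ≤ 9 := by
  unfold kk
  nlinarith [r.h1, r.h2, r.E1]

lemma Rng.H1 (r : Rng h nu E D2) : 3 ≤ hH h E := by
  unfold hH
  nlinarith [r.h1, r.h2, r.E0, mul_nonneg (sub_nonneg.2 r.h1) (sub_nonneg.2 r.h2)]

lemma Rng.H2 (r : Rng h nu E D2) : hH h E ≤ 397/100 := by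
  unfold hH
  nlinarith [r.h1, r.h2, r.E1, mul_nonneg (sub_nonneg.2 r.h1) (sub_nonneg.2 r.h2)]

lemma Rng.nE (r : Rng h nu E D2) : nu*E ≤ 106/1000 := by
  have : nu*E ≤ (1/5)*(53/100) := mul_le_mul r.n1 r.E1 r.E0 (by norm_num)
  linarith

lemma Rng.nE0 (r : Rng h nu E D2) : 0 ≤ nu*E := mul_nonneg r.n0 r.E0

lemma Rng.nH (r : Rng h nu E D2) : nu*hH h E ≤ 8/10 := by
  have : nu*hH h E ≤ (1/5)*(397/100) := mul_le_mul r.n1 r.H2 (by linarith [r.H1]) (by norm_num)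
  linarith

lemma Rng.P0 (r : Rng h nu E D2) :
    734/100 - 64/10*(h-1) ≤ (4-kk h E/4)*(4-4*h^2/kk h E) := by
  have k1 := r.k1
  have kpos : 0 < kk h E := by linarith
  have : (4-kk h E/4)*(4-4*h^2/kk h E) = (16-kk h E)*(kk h E-h^2)/kk h E := by
    field_simp; ring
  rw [this, le_div_iff₀ kpos]
  unfold kk
  have h1 := r.h1
  have h2 := r.h2
  have E0 := r.E0
  have E1 := r.E1
  obtain ⟨x, hx⟩ : ∃ x, h = 1 + x := ⟨h-1, by ring⟩
  subst hx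
  have x0 : 0 ≤ x := by linarith
  have x1 : x ≤ 1/4 := by linarith
  have e : (16-(8*(1+x)-(1+x)^2+E))*((8*(1+x)-(1+x)^2+E)-(1+x)^2)
      - (734/100-64/10*((1+x)-1))*(8*(1+x)-(1+x)^2+E)
      = (53/100-E)*(16-2*(7+6*x-x^2)-E-53/100+(1+x)^2-734/100+64/10*x)*(-1)
       + ((16-(7+6*x-x^2+53/100))*((7+6*x-x^2+53/100)-(1+x)^2)
          - (734/100-64/10*x)*(7+6*x-x^2+53/100)) := by ring
  have p1 : 0 ≤ (53/100-E)*(16-2*(7+6*x-x^2)-E-53/100+(1+x)^2-734/100+64/10*x)*(-1) := by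
    have : 16-2*(7+6*x-x^2)-E-53/100+(1+x)^2-734/100+64/10*x ≤ 0 := by nlinarith
    have : 0 ≤ (53/100-E)*(-(16-2*(7+6*x-x^2)-E-53/100+(1+x)^2-734/100+64/10*x)) :=
      mul_nonneg (by linarith) (by linarith)
    linarith
  have p2 : 0 ≤ ((16-(7+6*x-x^2+53/100))*((7+6*x-x^2+53/100)-(1+x)^2)
          - (734/100-64/10*x)*(7+6*x-x^2+53/100)) := by
    have x2 : 0 ≤ x^2 := by positivity
    have x3 : 0 ≤ x*(1/4-x) := mul_nonneg x0 (by linarith)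
    have e2 : ((16-(7+6*x-x^2+53/100))*((7+6*x-x^2+53/100)-(1+x)^2)
          - (734/100-64/10*x)*(7+6*x-x^2+53/100))
        = 11*(x-1/20)^2 + x^2*(33/100+96/10*x-2*x^2) + (389/10000-11/400) - 48/1000*x := by ring
    rw [e2]
    have x4 : 0 ≤ x^2*(33/100+96/10*x-2*x^2) := by
      apply mul_nonneg x2; nlinarith
    nlinarith [sq_nonneg (x-1/20)]
  linarith

/-- lower bound for a Selling parameter from the two adjacent norms -/
lemma lam_lower (r : Rng h nu E D2) (l1n : 0 ≤ l1)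
    (e2 : l1*l2+l2*l3+l3*l1 = (1-nu*E)*D2) {A2 A3 : ℝ}
    (hA2 : (1-nu*E)*A2 ≤ l3+l1) (hA3 : (1-nu*E)*A3 ≤ l1+l2) (A2n : 0 ≤ A2) (A3n : 0 ≤ A3)
    (hP : (4-kk h E/4)*(4-4*h^2/kk h E) ≤ A2*A3) : 12/10 ≤ l1 := by
  have P := r.P0
  have q1 := r.nE
  have q0 := r.nE0
  have D := r.D1''
  have h1 := r.h1
  have h2 := r.h2
  set q := 1-nu*E with hq
  have hq1 : 894/1000 ≤ q := by linarith
  have hq2 : q ≤ 1 := by linarith
  have prod : (q*A2)*(q*A3) ≤ (l3+l1)*(l1+l2) :=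
    mul_le_mul hA2 hA3 (by positivity) (by nlinarith)
  have s : l1^2 = (l3+l1)*(l1+l2) - q*D2 := by rw [← e2]; ring
  have PP : 734/100 - 64/10*(h-1) ≤ A2*A3 := by linarith
  have t1 : 0 ≤ 894/1000*(A2*A3) - D2 := by nlinarith
  have t2 : 894/1000*(894/1000*(A2*A3)-D2) ≤ q*(q*(A2*A3) - D2) := by
    have : 894/1000*(A2*A3)-D2 ≤ q*(A2*A3) - D2 := by
      have : 0 ≤ A2*A3 := by positivity
      nlinarith
    exact mul_le_mul hq1 this t1 (by linarith)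
  have t3 : 144/100 ≤ l1^2 := by
    have : (q*A2)*(q*A3) - q*D2 = q*(q*(A2*A3) - D2) := by ring
    nlinarith
  by_contra hc
  push Not at hc
  nlinarith

lemma aA (s y : ℝ) : 4 - s*(4*h+2*y) + s^2*(h^2-E)
    = 4 - kk h E*(s*(1-s)) + 2*s*zz h E s y := by
  unfold kk zz hH; ring

lemma bA (s y : ℝ) : 4 - (1-s)*(4*h-2*y) + (1-s)^2*(h^2-E)
    = 4 - kk h E*(s*(1-s)) - 2*(1-s)*zz h E s y := by
  unfold kk zz hH; ring

lemma ab_base {s y A : ℝ} (h0 : 0 ≤ s) (h1 : s ≤ 1)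
    (a : 4 - s*(4*h+2*y) + s^2*(h^2-E) ≤ A)
    (b : 4 - (1-s)*(4*h-2*y) + (1-s)^2*(h^2-E) ≤ A) :
    4 - kk h E*(s*(1-s)) ≤ A := by
  rw [aA] at a
  rw [bA] at b
  rcases le_or_gt 0 (zz h E s y) with hz | hz
  · have : 0 ≤ 2*s*zz h E s y := by positivity
    linarith
  · have : 0 ≤ 2*(1-s)*(-zz h E s y) := by
      apply mul_nonneg (by linarith) (by linarith)
    linarith

lemma s_quarter (s : ℝ) : s*(1-s) ≤ 1/4 := by nlinarith [sq_nonneg (s-1/2)]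

lemma Rng.base (r : Rng h nu E D2) (s : ℝ) :
    4 - kk h E/4 ≤ 4 - kk h E*(s*(1-s)) := by
  have := r.k1
  have := s_quarter s
  nlinarith

lemma Rng.m0pos (r : Rng h nu E D2) : 0 < 4 - kk h E/4 := by
  have := r.k2
  linarith

lemma Rng.q0le (r : Rng h nu E D2) (s : ℝ) :
    4-4*h^2/kk h E ≤ 4 - kk h E*(s*(1-s)) + s*hH h E := by
  have k1 := r.k1
  have kpos : 0 < kk h E := by linarith
  have e : 4 - kk h E*(s*(1-s)) + s*hH h E - (4-4*h^2/kk h E)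
      = (kk h E*s - 2*h)^2/kk h E := by
    have : hH h E = kk h E - 4*h := by unfold hH kk; ring
    rw [this]
    field_simp
    ring
  have : 0 ≤ (kk h E*s - 2*h)^2/kk h E := by positivity
  linarith

lemma Rng.q0pos (r : Rng h nu E D2) : 0 < 4-4*h^2/kk h E := by
  have k1 := r.k1
  have kpos : 0 < kk h E := by linarith
  have h1 := r.h1
  have h2 := r.h2
  have : 4*h^2/kk h E < 4 := by
    rw [div_lt_iff₀ kpos]
    nlinarith
  linarith

lemma prod_ge (r : Rng h nu E D2) {a b z w : ℝ} (ha : 0 ≤ a) (hb : 0 ≤ b)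
    (hz : 0 ≤ z) (hw : 0 ≤ w) (hzw : hH h E/2 ≤ z + w) :
    (4-kk h E/4)*(4-4*h^2/kk h E) ≤
      (4 - kk h E*(a*(1-a)) + 2*a*z)*(4 - kk h E*(b*(1-b)) + 2*b*w) := by
  have m1 := r.base a
  have m2 := r.base b
  have mp := r.m0pos
  have q1 := r.q0le a
  have q2 := r.q0le b
  have qp := r.q0pos
  have Hp : 0 < hH h E := by linarith [r.H1]
  set H := hH h E
  set q0 := 4-4*h^2/kk h E
  set m0 := 4 - kk h E/4
  set A := 4 - kk h E*(a*(1-a))
  set B := 4 - kk h E*(b*(1-b))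
  have ap : 0 < A := by linarith
  have bp : 0 < B := by linarith
  rcases le_or_gt (H/2) z with c | c
  · have e1 : q0 ≤ A + 2*a*z := by
      have : a*H ≤ 2*a*z := by nlinarith
      linarith
    have e2 : m0 ≤ B + 2*b*w := by
      have : 0 ≤ 2*b*w := by positivity
      linarith
    rw [mul_comm m0 q0]
    exact mul_le_mul e1 e2 mp.le (by linarith)
  · have e0 : B + b*(H-2*z) ≤ B + 2*b*w := by nlinarith
    have e1 : (A+2*a*z)*(B+b*(H-2*z)) ≤ (A+2*a*z)*(B+2*b*w) := by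
      apply mul_le_mul_of_nonneg_left e0
      positivity
    have e2 : H*((A+2*a*z)*(B+b*(H-2*z))) =
        (H-2*z)*(A*(B+b*H)) + 2*z*((A+a*H)*B) + (2*a*z)*(b*(H-2*z))*H := by ring
    have e3 : m0*q0 ≤ A*(B+b*H) := mul_le_mul m1 (by linarith) qp.le ap.le
    have e4 : m0*q0 ≤ (A+a*H)*B := by
      rw [mul_comm m0 q0]
      exact mul_le_mul (by linarith) m2 mp.le (by linarith)
    have e5 : 0 ≤ (2*a*z)*(b*(H-2*z))*H := by
      apply mul_nonneg (mul_nonneg (by positivity) (mul_nonneg hb (by linarith))) Hp.le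
    have e6 : (H-2*z)*(m0*q0) ≤ (H-2*z)*(A*(B+b*H)) := mul_le_mul_of_nonneg_left e3 (by linarith)
    have e7 : 2*z*(m0*q0) ≤ 2*z*((A+a*H)*B) := mul_le_mul_of_nonneg_left e4 (by linarith)
    have e8 : H*(m0*q0) ≤ H*((A+2*a*z)*(B+b*(H-2*z))) := by
      rw [e2]; nlinarith
    have e9 := le_of_mul_le_mul_left e8 Hp
    linarith

/-- `Σ lᵢ Aᵢ = 2 e₂ + ν E D²` -/
lemma Dat.sumA (d : Dat h nu E D2 s1 s2 s3 y1 y2 y3 l1 l2 l3) :
    l1*(l2+l3+nu*y1^2)+l2*(l3+l1+nu*y2^2)+l3*(l1+l2+nu*y3^2)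
      = 2*(l1*l2+l2*l3+l3*l1) + nu*(E*D2) := by
  rw [← d.pl]; ring

lemma mm_le (r : Rng h nu E D2) (s : ℝ) : mm h nu E s ≤ 4 - kk h E*(s*(1-s)) := by
  have e : 4 - kk h E*(s*(1-s)) - mm h nu E s = nu*(hH h E)^2*(1-2*s)^2/4 := by
    unfold mm kp; ring
  have : 0 ≤ nu*(hH h E)^2*(1-2*s)^2/4 := by
    have := r.n0
    positivity
  linarith

lemma MM_le (r : Rng h nu E D2) (s : ℝ) :
    MM h nu E s ≤ 4 - kk h E*(s*(1-s)) + s*hH h E := by
  have e : 4 - kk h E*(s*(1-s)) + s*hH h E - MM h nu E s = nu*(hH h E)^2*s^2 := by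
    unfold MM kp
    have : kk h E = hH h E + 4*h := by unfold hH kk; ring
    rw [this]; ring
  have : 0 ≤ nu*(hH h E)^2*s^2 := by
    have := r.n0
    positivity
  linarith

end

end Cone58
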