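import Mathlib
import Pool.Agent.Cone58.Four

namespace Cone58

noncomputable section

variable {h nu E D2 s1 s2 s3 y1 y2 y3 l1 l2 l3 : ℝ}

lemma Dat.zsum (d : Dat h nu E D2 s1 s2 s3 y1 y2 y3 l1 l2 l3) :
    zz h E s1 y1 + zz h E s2 y2 + zz h E s3 y3 = hH h E/2 := by
  unfold zz
  have e1 := d.ss
  have e2 := d.yy
  have h3 : y3 = -y1-y2 := by linarith
  have h4 : s3 = 1-s1-s2 := by linarith
  rw [h3, h4]; ring

lemma cs_of {A y : ℝ} (c : y^2 ≤ E*(A+nu*y^2)) (n0 : 0 ≤ nu) :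
    (1-nu*E)*(A+nu*y^2) ≤ A := by nlinarith

lemma Rng.nn (r : Rng h nu E D2) : nu*(nu*(E*D2)) ≤ 1046/10000 := by
  have a : E*D2 ≤ 53/100*(49276/10000) := mul_le_mul r.E1 r.D1' r.D0.le (by norm_num)
  have b : 0 ≤ E*D2 := mul_nonneg r.E0 r.D0.le
  have c : nu*(E*D2) ≤ 1/5*(53/100*(49276/10000)) := mul_le_mul r.n1 a b (by norm_num)
  have c' : 0 ≤ nu*(E*D2) := mul_nonneg r.n0 b
  have e : nu*(nu*(E*D2)) ≤ 1/5*(1/5*(53/100*(49276/10000))) := mul_le_mul r.n1 c c' (by norm_num)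
  linarith

lemma dbound (r : Rng h nu E D2) {s : ℝ} (hs : s ≤ 65/100) :
    7/10 ≤ 2*(1-s)-nu*(1-2*s)*hH h E := by
  have nH := r.nH
  have nH0 : 0 ≤ nu*hH h E := mul_nonneg r.n0 (by linarith [r.H1])
  have : nu*(1-2*s)*hH h E = (1-2*s)*(nu*hH h E) := by ring
  rw [this]
  rcases le_or_gt 0 (1-2*s) with c | c
  · nlinarith
  · nlinarith

lemma small_aux {l1 l a : ℝ} (l1b : 12/10 ≤ l1) (hl : 0 ≤ l) (hll : l1*l ≤ 49276/10000)
    (ha : a*l1 ≤ 1046/7000) : a*(l1+l) ≤ 7/10*l1 := by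
  have l1p : 0 < l1 := by linarith
  have h4 : l ≤ 4107/1000 := by
    have : 12/10*l ≤ l1*l := mul_le_mul_of_nonneg_right l1b hl
    linarith
  have g1 : (a*l1)*(l1+l) ≤ 1046/7000*(l1+4107/1000) :=
    mul_le_mul ha (by linarith) (by linarith) (by norm_num)
  have g2 : 1046/7000*(l1+4107/1000) ≤ 7/10*l1*l1 := by nlinarith
  have g3 : (a*(l1+l))*l1 ≤ (7/10*l1)*l1 := by linarith
  exact le_of_mul_le_mul_right g3 l1p

lemma big_dev {l2 l3 u2 u3 s2 s3 H e2 W0 X2 X3 : ℝ} (l2n : 0 ≤ l2) (l3n : 0 ≤ l3)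
    (u2n : 0 ≤ u2) (u3n : 0 ≤ u3) (s2n : 0 ≤ s2) (s3n : 0 ≤ s3) (Zp : 0 < u2+u3)
    (hZ : H/2 ≤ u2+u3) (hW : W0 + (2*s2*u2*l2+2*s3*u3*l3) ≤ e2)
    (h2 : X2 ≤ W0 + s2*H*l2) (h3 : X3 ≤ W0 + s3*H*l3) : X2 ≤ e2 ∨ X3 ≤ e2 := by
  by_contra hc
  push Not at hc
  obtain ⟨c2, c3⟩ := hc
  obtain ⟨W, hWd⟩ : ∃ W, W = 2*s2*u2*l2+2*s3*u3*l3 := ⟨_, rfl⟩
  have W0' : 0 ≤ W := by rw [hWd]; positivity
  rw [← hWd] at hW
  have d2 : W < s2*H*l2 := by linarith
  have d3 : W < s3*H*l3 := by linarith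
  have e1 : u2*W ≤ u2*(s2*H*l2) := mul_le_mul_of_nonneg_left d2.le u2n
  have e2' : u3*W ≤ u3*(s3*H*l3) := mul_le_mul_of_nonneg_left d3.le u3n
  have f : u2*(s2*H*l2) + u3*(s3*H*l3) = H/2*W := by rw [hWd]; ring
  have g : H/2*W ≤ (u2+u3)*W := mul_le_mul_of_nonneg_right hZ W0'
  have k : (u2+u3)*W = u2*W+u3*W := by ring
  rcases lt_or_eq_of_le u2n with h | h
  · have : u2*W < u2*(s2*H*l2) := mul_lt_mul_of_pos_left d2 h
    linarith
  · have h' : 0 < u3 := by linarith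
    have : u3*W < u3*(s3*H*l3) := mul_lt_mul_of_pos_left d3 h'
    linarith

lemma small_dev {l1 l2 l3 u2 u3 Z e2 S g w2 w3 v2 v3 X2 X3 : ℝ}
    (u2n : 0 ≤ u2) (u3n : 0 ≤ u3) (Zp : 0 < Z) (Zs : u2+u3 = Z)
    (hsum : S + l1*g + l2*((u2/Z)*w2) + l3*((u3/Z)*w3) ≤ e2)
    (h2 : l2*v2 ≤ l1*g + l2*w2) (h3 : l3*v3 ≤ l1*g+l3*w3)
    (k2 : X2 ≤ S + l2*v2) (k3 : X3 ≤ S + l3*v3) : X2 ≤ e2 ∨ X3 ≤ e2 := by
  have t2 : 0 ≤ u2/Z := div_nonneg u2n Zp.le
  have t3 : 0 ≤ u3/Z := div_nonneg u3n Zp.le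
  have tt : u2/Z + u3/Z = 1 := by
    rw [← add_div, Zs, div_self Zp.ne']
  have main : 0 ≤ (u2/Z)*(e2 - X2) + (u3/Z)*(e2 - X3) := by
    have c2 := mul_le_mul_of_nonneg_left h2 t2
    have c3 := mul_le_mul_of_nonneg_left h3 t3
    have d2 := mul_le_mul_of_nonneg_left k2 t2
    have d3 := mul_le_mul_of_nonneg_left k3 t3
    have e : (u2/Z)*(e2 - X2) + (u3/Z)*(e2 - X3) = (u2/Z+u3/Z)*e2 - ((u2/Z)*X2+(u3/Z)*X3) := by ring
    have f : (u2/Z)*(l1*g+l2*w2) + (u3/Z)*(l1*g+l3*w3)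
        = (u2/Z+u3/Z)*(l1*g) + (l2*((u2/Z)*w2) + l3*((u3/Z)*w3)) := by ring
    have f' : (u2/Z)*(S+l2*v2) + (u3/Z)*(S+l3*v3)
        = (u2/Z+u3/Z)*S + ((u2/Z)*(l2*v2) + (u3/Z)*(l3*v3)) := by ring
    rw [e]
    rw [tt] at f f' ⊢
    linarith
  rcases conv2 t2 t3 tt main with h | h
  · left; linarith
  · right; linarith

/-- one negative deviation -/
lemma case_neg1 (r : Rng h nu E D2) (d : Dat h nu E D2 s1 s2 s3 y1 y2 y3 l1 l2 l3)
    (hs1 : s1 ≤ 65/100)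
    (z1 : zz h E s1 y1 < 0) (z2 : 0 ≤ zz h E s2 y2) (z3 : 0 ≤ zz h E s3 y3) :
    VV h nu E s3 s1 s2 l3 l1 l2 ∨ VV h nu E s1 s2 s3 l1 l2 l3 := by
  have hz := d.zsum
  have s1n := d.s1n
  have s2n := d.s2n
  have s3n := d.s3n
  have l1n := d.l1n
  have l2n := d.l2n
  have l3n := d.l3n
  have H3 := r.H1
  have n0 := r.n0
  have nH := r.nH
  have A2t : 4 - kk h E*(s2*(1-s2)) + 2*s2*zz h E s2 y2 ≤ l3+l1+nu*y2^2 := by
    rw [← aA]; exact d.a2
  have A3t : 4 - kk h E*(s3*(1-s3)) + 2*s3*zz h E s3 y3 ≤ l1+l2+nu*y3^2 := by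
    rw [← aA]; exact d.a3
  have B1t : 4 - kk h E*(s1*(1-s1)) - 2*(1-s1)*zz h E s1 y1 ≤ l2+l3+nu*y1^2 := by
    rw [← bA]; exact d.b1
  -- lower bound for l1
  have l1b : 12/10 ≤ l1 := by
    have m0 := r.m0pos
    have base2 := r.base s2
    have base3 := r.base s3
    have P := prod_ge r s2n s3n z2 z3 (by linarith)
    have p2 : 0 ≤ 4 - kk h E*(s2*(1-s2)) + 2*s2*zz h E s2 y2 := by
      have : 0 ≤ 2*s2*zz h E s2 y2 := by positivity
      linarith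
    have p3 : 0 ≤ 4 - kk h E*(s3*(1-s3)) + 2*s3*zz h E s3 y3 := by
      have : 0 ≤ 2*s3*zz h E s3 y3 := by positivity
      linarith
    exact lam_lower r l1n d.e2 (cs_of d.c2 n0) (cs_of d.c3 n0) (by linarith) (by linarith)
      (le_trans P (mul_le_mul A2t A3t p3 (by linarith)))
  obtain ⟨t, ht⟩ : ∃ t, t = -zz h E s1 y1 := ⟨_, rfl⟩
  have t0 : 0 < t := by linarith
  have hz1 : zz h E s1 y1 = -t := by linarith
  have Zs : zz h E s2 y2 + zz h E s3 y3 = hH h E/2 + t := by linarith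
  rcases le_or_gt (nu*(E*D2)) (2*(1-s1)*(l1*t)) with c | c
  · -- large deviation
    have sA := d.sumA
    rw [hz1] at B1t
    have L1 : l1*(4 - kk h E*(s1*(1-s1)) - 2*(1-s1)*(-t)) ≤ l1*(l2+l3+nu*y1^2) :=
      mul_le_mul_of_nonneg_left B1t l1n
    have L2 := mul_le_mul_of_nonneg_left A2t l2n
    have L3 := mul_le_mul_of_nonneg_left A3t l3n
    have K1 := mul_le_mul_of_nonneg_left (mm_le r s1) l1n
    have K2 := mul_le_mul_of_nonneg_left (mm_le r s2) l2n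
    have K3 := mul_le_mul_of_nonneg_left (mm_le r s3) l3n
    have N2 := mul_le_mul_of_nonneg_left (MM_le r s2) l2n
    have N3 := mul_le_mul_of_nonneg_left (MM_le r s3) l3n
    have big := big_dev (W0 := l1*(4 - kk h E*(s1*(1-s1))) + l2*(4 - kk h E*(s2*(1-s2)))
      + l3*(4 - kk h E*(s3*(1-s3)))) (H := hH h E) (s2 := s2) (s3 := s3)
      (e2 := 2*(l1*l2+l2*l3+l3*l1))
      (X2 := l3*mm h nu E s3+l1*mm h nu E s1+l2*MM h nu E s2)
      (X3 := l1*mm h nu E s1+l2*mm h nu E s2+l3*MM h nu E s3)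
      (u2 := zz h E s2 y2) (u3 := zz h E s3 y3) l2n l3n z2 z3 s2n s3n (by linarith) (by linarith)
      (by linarith) (by linarith) (by linarith)
    unfold VV
    rcases big with g | g
    · left; linarith
    · right; linarith
  · -- small deviation
    have a1 := aB d.a1
    have b1 := bB d.b1
    have a2 := aB d.a2
    have a3 := aB d.a3
    have M2 := MM_sub_mm (h := h) (nu := nu) (E := E) s2
    have M3 := MM_sub_mm (h := h) (nu := nu) (E := E) s3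
    have db := dbound r hs1
    have nn := r.nn
    have e2 := d.e2
    have D0 := r.D0
    have D1 := r.D1'
    have nE0 := r.nE0
    have E0 := r.E0
    rw [hz1] at b1
    have Zp : 0 < hH h E/2 + t := by linarith
    have key : ∀ u s : ℝ, 0 ≤ u → u ≤ hH h E/2 + t →
        (u/(hH h E/2 + t))*((hH h E/2 + t)*(2*s+nu*(1-2*s)*hH h E - nu*(hH h E/2 + t)))
          ≤ u*(2*s+nu*(1-2*s)*hH h E - nu*u) := by
      intro u s hu hu'
      have : (u/(hH h E/2 + t))*((hH h E/2 + t)*(2*s+nu*(1-2*s)*hH h E - nu*(hH h E/2 + t)))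
          = u*(2*s+nu*(1-2*s)*hH h E - nu*(hH h E/2 + t)) := by
        rw [← mul_assoc, div_mul_cancel₀ _ Zp.ne']
      rw [this]
      apply mul_le_mul_of_nonneg_left _ hu
      have := mul_le_mul_of_nonneg_left hu' n0
      linarith
    have k2 := key _ s2 z2 (by linarith)
    have k3 := key _ s3 z3 (by linarith)
    have c1 : 7/10*(l1*t) ≤ nu*(E*D2) := by
      have : 7/10 ≤ 2*(1-s1) := by linarith
      have := mul_le_mul_of_nonneg_right this (by positivity : 0 ≤ l1*t)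
      linarith
    have c2 : nu*(7/10*(l1*t)) ≤ 1046/10000 := by
      have := mul_le_mul_of_nonneg_left c1 n0
      linarith
    have small : ∀ l : ℝ, 0 ≤ l → l1*l ≤ 49276/10000 → nu*t*(l1+l) ≤ 7/10*l1 := by
      intro l hl hll
      exact small_aux l1b hl hll (by linarith)
    have e2le : l1*l2+l2*l3+l3*l1 ≤ 49276/10000 := by
      rw [e2]
      have : (1-nu*E)*D2 ≤ 1*D2 := mul_le_mul_of_nonneg_right (by linarith) D0.le
      linarith
    have p12 := mul_nonneg l1n l2n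
    have p23 := mul_nonneg l2n l3n
    have p31 := mul_nonneg l3n l1n
    have sm2 := small l2 l2n (by linarith)
    have sm3 := small l3 l3n (by linarith)
    -- the comparison for index j
    have cmp : ∀ l s : ℝ, 0 ≤ l → 0 ≤ s → nu*t*(l1+l) ≤ 7/10*l1 →
        l*(hH h E/2*(2*s+nu*(1-2*s)*hH h E - nu*(hH h E/2))) ≤
          l1*(t*((2*(1-s1)-nu*(1-2*s1)*hH h E) - nu*t))
          + l*((hH h E/2 + t)*(2*s+nu*(1-2*s)*hH h E - nu*(hH h E/2 + t))) := by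
      intro l s hl hs hsm
      have e : l1*(t*((2*(1-s1)-nu*(1-2*s1)*hH h E) - nu*t))
          + l*((hH h E/2 + t)*(2*s+nu*(1-2*s)*hH h E - nu*(hH h E/2 + t)))
          - l*(hH h E/2*(2*s+nu*(1-2*s)*hH h E - nu*(hH h E/2)))
          = t*(l1*((2*(1-s1)-nu*(1-2*s1)*hH h E) - 7/10) + l*(2*s*(1-nu*hH h E))
            + (7/10*l1 - nu*t*(l1+l))) := by
        ring
      have : 0 ≤ t*(l1*((2*(1-s1)-nu*(1-2*s1)*hH h E) - 7/10) + l*(2*s*(1-nu*hH h E))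
            + (7/10*l1 - nu*t*(l1+l))) := by
        apply mul_nonneg t0.le
        have a : 0 ≤ l1*((2*(1-s1)-nu*(1-2*s1)*hH h E) - 7/10) := mul_nonneg l1n (by linarith)
        have b : 0 ≤ l*(2*s*(1-nu*hH h E)) := by
          apply mul_nonneg hl (mul_nonneg (by linarith) (by linarith))
        linarith
      linarith
    have cm2 := cmp l2 s2 l2n s2n sm2
    have cm3 := cmp l3 s3 l3n s3n sm3
    rw [← M2] at cm2
    rw [← M3] at cm3
    have L1 : l1*(mm h nu E s1 + t*((2*(1-s1)-nu*(1-2*s1)*hH h E) - nu*t)) ≤ l1*(l2+l3) := by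
      apply mul_le_mul_of_nonneg_left _ l1n
      have : mm h nu E s1 - -t * (2 * (1 - s1) - nu * (1 - 2 * s1) * hH h E + nu * -t)
        = mm h nu E s1 + t*((2*(1-s1)-nu*(1-2*s1)*hH h E) - nu*t) := by ring
      linarith
    have L2 : l2*(mm h nu E s2 + (zz h E s2 y2/(hH h E/2 + t))*((hH h E/2 + t)*
        (2*s2+nu*(1-2*s2)*hH h E - nu*(hH h E/2 + t)))) ≤ l2*(l3+l1) :=
      mul_le_mul_of_nonneg_left (by linarith) l2n
    have L3 : l3*(mm h nu E s3 + (zz h E s3 y3/(hH h E/2 + t))*((hH h E/2 + t)*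
        (2*s3+nu*(1-2*s3)*hH h E - nu*(hH h E/2 + t)))) ≤ l3*(l1+l2) :=
      mul_le_mul_of_nonneg_left (by linarith) l3n
    have sml := small_dev (S := l1*mm h nu E s1 + l2*mm h nu E s2 + l3*mm h nu E s3)
      (e2 := 2*(l1*l2+l2*l3+l3*l1))
      (X2 := l3*mm h nu E s3+l1*mm h nu E s1+l2*MM h nu E s2)
      (X3 := l1*mm h nu E s1+l2*mm h nu E s2+l3*MM h nu E s3)
      (v2 := MM h nu E s2 - mm h nu E s2) (v3 := MM h nu E s3 - mm h nu E s3)
      z2 z3 Zp Zs (by linarith) cm2 cm3 (by linarith) (by linarith)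
    unfold VV
    rcases sml with g | g
    · left; linarith
    · right; linarith

lemma small_aux2 {l1 l2 l3 t1 t2 nu d1 d2 : ℝ} (l1b : 12/10 ≤ l1) (l2b : 12/10 ≤ l2)
    (l3b : l3 ≤ 4107/1000) (t1n : 0 ≤ t1) (t2n : 0 ≤ t2) (n0 : 0 ≤ nu)
    (hT : nu*(7/10*(l1*t1+l2*t2)) ≤ 1046/10000) (h1 : 7/10 ≤ d1) (h2 : 7/10 ≤ d2) :
    l3*((t1+t2)*(nu*(t1+t2))) ≤ l1*(t1*(d1-nu*t1)) + l2*(t2*(d2-nu*t2)) := by
  have T1 : 12/10*t1 ≤ l1*t1 := mul_le_mul_of_nonneg_right l1b t1n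
  have T2 : 12/10*t2 ≤ l2*t2 := mul_le_mul_of_nonneg_right l2b t2n
  obtain ⟨T, hTd⟩ : ∃ T, T = l1*t1+l2*t2 := ⟨_, rfl⟩
  obtain ⟨w, hw⟩ : ∃ w, w = t1+t2 := ⟨_, rfl⟩
  have wT : 12/10*w ≤ T := by rw [hw, hTd]; linarith
  have w0 : 0 ≤ w := by rw [hw]; linarith
  have T0 : 0 ≤ T := by linarith
  rw [← hTd] at hT
  have nw : nu*w ≤ 1046/8400 := by
    have : nu*(7/10*(12/10*w)) ≤ nu*(7/10*T) := mul_le_mul_of_nonneg_left (by linarith) n0
    linarith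
  have nw0 : 0 ≤ nu*w := mul_nonneg n0 w0
  have a1 : l1*(t1*(7/10-nu*w)) ≤ l1*(t1*(d1-nu*t1)) := by
    apply mul_le_mul_of_nonneg_left _ (by linarith)
    apply mul_le_mul_of_nonneg_left _ t1n
    have : nu*t1 ≤ nu*w := mul_le_mul_of_nonneg_left (by rw [hw]; linarith) n0
    linarith
  have a2 : l2*(t2*(7/10-nu*w)) ≤ l2*(t2*(d2-nu*t2)) := by
    apply mul_le_mul_of_nonneg_left _ (by linarith)
    apply mul_le_mul_of_nonneg_left _ t2n
    have : nu*t2 ≤ nu*w := mul_le_mul_of_nonneg_left (by rw [hw]; linarith) n0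
    linarith
  have a3 : l1*(t1*(7/10-nu*w)) + l2*(t2*(7/10-nu*w)) = T*(7/10-nu*w) := by rw [hTd]; ring
  have b : l3*(w*(nu*w)) ≤ 4107/1000*(w*(nu*w)) :=
    mul_le_mul_of_nonneg_right l3b (mul_nonneg w0 nw0)
  have c : w*(nu*w) ≤ (10/12*T)*(nu*w) := mul_le_mul_of_nonneg_right (by linarith) nw0
  have e : 4107/1000*((10/12*T)*(nu*w)) ≤ T*(7/10-nu*w) := by
    have : 0 ≤ T*(7/10 - nu*w*(1+4107/1200)) := by
      apply mul_nonneg T0
      nlinarith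
    nlinarith
  rw [← hw]
  linarith

/-- two negative deviations -/
lemma case_neg2 (r : Rng h nu E D2) (d : Dat h nu E D2 s1 s2 s3 y1 y2 y3 l1 l2 l3)
    (hs1 : s1 ≤ 65/100) (hs2 : s2 ≤ 65/100)
    (z1 : zz h E s1 y1 < 0) (z2 : zz h E s2 y2 < 0) :
    VV h nu E s1 s2 s3 l1 l2 l3 := by
  have hz := d.zsum
  have s1n := d.s1n
  have s2n := d.s2n
  have s3n := d.s3n
  have l1n := d.l1n
  have l2n := d.l2n
  have l3n := d.l3n
  have ss := d.ss
  have H3 := r.H1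
  have n0 := r.n0
  have nH := r.nH
  have A3t : 4 - kk h E*(s3*(1-s3)) + 2*s3*zz h E s3 y3 ≤ l1+l2+nu*y3^2 := by
    rw [← aA]; exact d.a3
  have B1t : 4 - kk h E*(s1*(1-s1)) - 2*(1-s1)*zz h E s1 y1 ≤ l2+l3+nu*y1^2 := by
    rw [← bA]; exact d.b1
  have B2t : 4 - kk h E*(s2*(1-s2)) - 2*(1-s2)*zz h E s2 y2 ≤ l3+l1+nu*y2^2 := by
    rw [← bA]; exact d.b2
  have A3q : 4 - kk h E*(s3*(1-s3)) + s3*hH h E ≤ l1+l2+nu*y3^2 := by
    have : s3*(hH h E/2) ≤ s3*zz h E s3 y3 := mul_le_mul_of_nonneg_left (by linarith) s3n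
    linarith
  have m0 := r.m0pos
  have base1 := r.base s1
  have base2 := r.base s2
  have base3 := r.base s3
  have q0 := r.q0le s3
  have q0p := r.q0pos
  have A1m : 4 - kk h E/4 ≤ l2+l3+nu*y1^2 := le_trans base1 (ab_base s1n (by linarith) d.a1 d.b1)
  have A2m : 4 - kk h E/4 ≤ l3+l1+nu*y2^2 := le_trans base2 (ab_base s2n (by linarith) d.a2 d.b2)
  have l1b : 12/10 ≤ l1 :=
    lam_lower r l1n d.e2 (cs_of d.c2 n0) (cs_of d.c3 n0) (by linarith) (by linarith)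
      (mul_le_mul A2m (by linarith) q0p.le (by linarith))
  have l2b : 12/10 ≤ l2 :=
    lam_lower (l1 := l2) (l2 := l1) (l3 := l3) r l2n (by linarith [d.e2])
      (A2 := l2+l3+nu*y1^2) (A3 := l1+l2+nu*y3^2)
      (by linarith [cs_of d.c1 n0]) (by linarith [cs_of d.c3 n0]) (by linarith) (by linarith)
      (mul_le_mul A1m (by linarith) q0p.le (by linarith))
  obtain ⟨t1, ht1⟩ : ∃ t, t = -zz h E s1 y1 := ⟨_, rfl⟩
  obtain ⟨t2, ht2⟩ : ∃ t, t = -zz h E s2 y2 := ⟨_, rfl⟩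
  have t10 : 0 < t1 := by linarith
  have t20 : 0 < t2 := by linarith
  have hz1 : zz h E s1 y1 = -t1 := by linarith
  have hz2 : zz h E s2 y2 = -t2 := by linarith
  have hz3 : zz h E s3 y3 = hH h E/2 + (t1+t2) := by linarith
  rcases le_or_gt (nu*(E*D2)) (2*(1-s1)*(l1*t1) + 2*(1-s2)*(l2*t2)) with c | c
  · have sA := d.sumA
    rw [hz1] at B1t
    rw [hz2] at B2t
    have L1 := mul_le_mul_of_nonneg_left B1t l1n
    have L2 := mul_le_mul_of_nonneg_left B2t l2n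
    have L3 := mul_le_mul_of_nonneg_left A3q l3n
    have K1 := mul_le_mul_of_nonneg_left (mm_le r s1) l1n
    have K2 := mul_le_mul_of_nonneg_left (mm_le r s2) l2n
    have N3 := mul_le_mul_of_nonneg_left (MM_le r s3) l3n
    unfold VV
    linarith
  · have b1 := bB d.b1
    have b2 := bB d.b2
    have a3 := aB d.a3
    have M3 := MM_sub_mm (h := h) (nu := nu) (E := E) s3
    have db1 := dbound r hs1
    have db2 := dbound r hs2
    have nn := r.nn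
    have e2 := d.e2
    have D0 := r.D0
    have D1 := r.D1'
    have nE0 := r.nE0
    rw [hz1] at b1
    rw [hz2] at b2
    rw [hz3] at a3
    have p1 : 0 ≤ l1*t1 := by positivity
    have p2 : 0 ≤ l2*t2 := by positivity
    have c1 : 7/10*(l1*t1+l2*t2) ≤ nu*(E*D2) := by
      have g1 : 7/10 ≤ 2*(1-s1) := by linarith
      have g2 : 7/10 ≤ 2*(1-s2) := by linarith
      have := mul_le_mul_of_nonneg_right g1 p1
      have := mul_le_mul_of_nonneg_right g2 p2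
      linarith
    have c2 : nu*(7/10*(l1*t1+l2*t2)) ≤ 1046/10000 := by
      have := mul_le_mul_of_nonneg_left c1 n0
      linarith
    have e2le : l1*l2+l2*l3+l3*l1 ≤ 49276/10000 := by
      rw [e2]
      have : (1-nu*E)*D2 ≤ 1*D2 := mul_le_mul_of_nonneg_right (by linarith) D0.le
      linarith
    have l3b : l3 ≤ 4107/1000 := by
      have p12 := mul_nonneg l1n l2n
      have p23 := mul_nonneg l2n l3n
      have : 12/10*l3 ≤ l1*l3 := mul_le_mul_of_nonneg_right l1b l3n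
      linarith
    have sm := small_aux2 l1b l2b l3b t10.le t20.le n0 c2 db1 db2
    have L1 : l1*(mm h nu E s1 + t1*((2*(1-s1)-nu*(1-2*s1)*hH h E) - nu*t1)) ≤ l1*(l2+l3) := by
      apply mul_le_mul_of_nonneg_left _ l1n
      have : mm h nu E s1 - -t1 * (2 * (1 - s1) - nu * (1 - 2 * s1) * hH h E + nu * -t1)
        = mm h nu E s1 + t1*((2*(1-s1)-nu*(1-2*s1)*hH h E) - nu*t1) := by ring
      linarith
    have L2 : l2*(mm h nu E s2 + t2*((2*(1-s2)-nu*(1-2*s2)*hH h E) - nu*t2)) ≤ l2*(l3+l1) := by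
      apply mul_le_mul_of_nonneg_left _ l2n
      have : mm h nu E s2 - -t2 * (2 * (1 - s2) - nu * (1 - 2 * s2) * hH h E + nu * -t2)
        = mm h nu E s2 + t2*((2*(1-s2)-nu*(1-2*s2)*hH h E) - nu*t2) := by ring
      linarith
    have L3 : l3*(mm h nu E s3 + (MM h nu E s3 - mm h nu E s3) - (t1+t2)*(nu*(t1+t2))) ≤ l3*(l1+l2) := by
      apply mul_le_mul_of_nonneg_left _ l3n
      have e : (hH h E/2 + (t1+t2))*(2*s3+nu*(1-2*s3)*hH h E - nu*(hH h E/2 + (t1+t2)))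
          - (hH h E/2*(2*s3+nu*(1-2*s3)*hH h E - nu*(hH h E/2)) - (t1+t2)*(nu*(t1+t2)))
          = (t1+t2)*(2*s3*(1-nu*hH h E)) := by ring
      have : 0 ≤ (t1+t2)*(2*s3*(1-nu*hH h E)) := by
        apply mul_nonneg (by linarith) (mul_nonneg (by linarith) (by linarith))
      linarith
    unfold VV
    linarith

end

end Cone58
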