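import Mathlib
import Pool.Agent.Cone58.Five

namespace Cone58

noncomputable section

variable {h nu E D2 s1 s2 s3 y1 y2 y3 l1 l2 l3 : ℝ}

lemma phi_low {k s1 s2 s3 : ℝ} (hk : 7 ≤ k) (h2 : 0 ≤ s2) (h3 : 0 ≤ s3) (ss : s1+s2+s3 = 1)
    (hs : 65/100 ≤ s1) :
    48 - 364/100*k ≤ 2*((4 - k*(s1*(1-s1)))*(4 - k*(s2*(1-s2)))
      +(4 - k*(s2*(1-s2)))*(4 - k*(s3*(1-s3)))
      +(4 - k*(s3*(1-s3)))*(4 - k*(s1*(1-s1))))
      - (4 - k*(s1*(1-s1)))^2-(4 - k*(s2*(1-s2)))^2-(4 - k*(s3*(1-s3)))^2 := by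
  have p1 : s1*(1-s1) ≤ 2275/10000 := by nlinarith
  have p2 : 0 ≤ k*s1-4 := by nlinarith
  have hs1 : s1 = 1 - s2 - s3 := by linarith
  have e : 2*((4 - k*(s1*(1-s1)))*(4 - k*(s2*(1-s2)))
      +(4 - k*(s2*(1-s2)))*(4 - k*(s3*(1-s3)))
      +(4 - k*(s3*(1-s3)))*(4 - k*(s1*(1-s1))))
      - (4 - k*(s1*(1-s1)))^2-(4 - k*(s2*(1-s2)))^2-(4 - k*(s3*(1-s3)))^2
      = 48 - 16*k*(s1*(1-s1)) + 4*k*(s2*s3)*(k*s1-4) := by
    rw [hs1]; ring
  rw [e]
  have p3 : 0 ≤ 4*k*(s2*s3)*(k*s1-4) := by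
    apply mul_nonneg _ p2
    have : 0 ≤ k := by linarith
    positivity
  have p4 : k*(s1*(1-s1)) ≤ k*(2275/10000) := mul_le_mul_of_nonneg_left p1 (by linarith)
  linarith

lemma poly_bigs {x : ℝ} (x0 : 0 ≤ x) (x1 : x ≤ 1/4)
    (c : (1+x)^2*(48 - 364/100*(8*(1+x)-(1+x)^2+53/100)) ≤ 40127/10000*(49276/10000)) : False := by
  have a2 : x^2 ≤ x/4 := by nlinarith
  have a3 : x^3 ≤ x/16 := by
    have : x^3 = x*x^2 := by ring
    nlinarith
  have a4 : 0 ≤ x^4 := by positivity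
  have e8 : (1+x)^2*(48 - 364/100*(8*(1+x)-(1+x)^2+53/100))
    = 205908/10000 + 193416/10000*x - 194492/10000*x^2 - 1456/100*x^3 + 364/100*x^4 := by ring
  rw [e8] at c
  linarith

lemma aux_c3 {q : ℝ} (q0 : 0 ≤ q) (q1 : q ≤ 106/1000) : (2-q)^2 ≤ 40127/10000*(1-q) := by
  nlinarith

lemma case_bigs (r : Rng h nu E D2) (d : Dat h nu E D2 s1 s2 s3 y1 y2 y3 l1 l2 l3)
    (hs : 65/100 ≤ s1) : False := by
  have s1n := d.s1n
  have s2n := d.s2n
  have s3n := d.s3n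
  have ss := d.ss
  have l1n := d.l1n
  have l2n := d.l2n
  have l3n := d.l3n
  have k7 := r.k1
  have k9 := r.k2
  have q0 := r.nE0
  have q1 := r.nE
  have D0 := r.D0
  have D1 := r.D1
  have h1 := r.h1
  have h2 := r.h2
  have m0 := r.m0pos
  have A1 := ab_base s1n (by linarith) d.a1 d.b1
  have A2 := ab_base s2n (by linarith) d.a2 d.b2
  have A3 := ab_base s3n (by linarith) d.a3 d.b3
  have B1 := r.base s1
  have B2 := r.base s2
  have B3 := r.base s3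
  have sA := d.sumA
  have e2 := d.e2
  have rc := revCS l1 l2 l3 (4 - kk h E*(s1*(1-s1))) (4 - kk h E*(s2*(1-s2)))
    (4 - kk h E*(s3*(1-s3))) l1n l2n l3n
  have L1 := mul_le_mul_of_nonneg_left A1 l1n
  have L2 := mul_le_mul_of_nonneg_left A2 l2n
  have L3 := mul_le_mul_of_nonneg_left A3 l3n
  have n1 : 0 ≤ l1*(4 - kk h E*(s1*(1-s1))) := mul_nonneg l1n (by linarith)
  have n2 : 0 ≤ l2*(4 - kk h E*(s2*(1-s2))) := mul_nonneg l2n (by linarith)
  have n3 : 0 ≤ l3*(4 - kk h E*(s3*(1-s3))) := mul_nonneg l3n (by linarith)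
  have up : l1*(4 - kk h E*(s1*(1-s1))) + l2*(4 - kk h E*(s2*(1-s2)))
      + l3*(4 - kk h E*(s3*(1-s3))) ≤ (2-nu*E)*D2 := by
    have : (2-nu*E)*D2 = 2*(l1*l2+l2*l3+l3*l1) + nu*(E*D2) := by rw [e2]; ring
    linarith
  have sq := pow_le_pow_left₀ (by linarith) up 2
  have phi := phi_low k7 s2n s3n ss hs
  have kpos : 0 ≤ 48 - 364/100*kk h E := by linarith
  have c1 : (1-nu*E)*D2*(48 - 364/100*kk h E) ≤ ((2-nu*E)*D2)^2 := by
    rw [← e2]
    have := mul_le_mul_of_nonneg_left phi (by positivity : 0 ≤ l1*l2+l2*l3+l3*l1)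
    linarith
  have c2 : (1-nu*E)*(48 - 364/100*kk h E) ≤ (2-nu*E)^2*D2 := by
    have : D2*((1-nu*E)*(48 - 364/100*kk h E)) ≤ D2*((2-nu*E)^2*D2) := by linarith
    exact le_of_mul_le_mul_left this D0
  have c3 : (2-nu*E)^2 ≤ 40127/10000*(1-nu*E) := aux_c3 q0 q1
  have c4 : (1-nu*E)*(48 - 364/100*kk h E) ≤ (1-nu*E)*(40127/10000*D2) := by
    have := mul_le_mul_of_nonneg_right c3 D0.le
    linarith
  have c5 : 48 - 364/100*kk h E ≤ 40127/10000*D2 := le_of_mul_le_mul_left c4 (by linarith)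
  have c6 : h^2*(48 - 364/100*kk h E) ≤ 40127/10000*(49276/10000) := by
    have := mul_le_mul_of_nonneg_left c5 (sq_nonneg h)
    linarith
  have E1 := r.E1
  have c7 : 48 - 364/100*(8*h-h^2+53/100) ≤ 48 - 364/100*kk h E := by
    unfold kk; linarith
  have c8 : h^2*(48 - 364/100*(8*h-h^2+53/100)) ≤ 40127/10000*(49276/10000) :=
    le_trans (mul_le_mul_of_nonneg_left c7 (sq_nonneg h)) c6
  obtain ⟨x, hx⟩ : ∃ x, h = 1 + x := ⟨h-1, by ring⟩
  rw [hx] at c8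
  have x0 : 0 ≤ x := by linarith
  have x1 : x ≤ 1/4 := by linarith
  exact poly_bigs x0 x1 c8

/-- the vertex alternative gives the bound -/
lemma finish {Del : ℝ} (r : Rng h nu E D2) (d : Dat h nu E D2 s1 s2 s3 y1 y2 y3 l1 l2 l3)
    (FI : ∀ s, 0 ≤ s → s ≤ 65/100 →
      4*(1-nu*E)*Del ≤ h^2*(MM h nu E s*(12 - kk h E + 4*h*s)))
    (hs : s3 ≤ 65/100) (v : VV h nu E s1 s2 s3 l1 l2 l3) : Del ≤ h^2*D2 := by
  have k7 := r.k1
  have k9 := r.k2
  have q1 := r.nE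
  have h2 := r.h2
  have h1 := r.h1
  have D0 := r.D0
  have e2 := d.e2
  have kp0 : 0 ≤ kp h nu E := by
    unfold kp
    have a : nu*hH h E^2 = (nu*hH h E)*hH h E := by ring
    have b : (nu*hH h E)*hH h E ≤ 8/10*(397/100) :=
      mul_le_mul r.nH r.H2 (by linarith [r.H1]) (by norm_num)
    rw [a]; linarith
  have hs3 : h*s3 ≤ 1 := by
    have : h*s3 ≤ 5/4*(65/100) := mul_le_mul h2 hs d.s3n (by norm_num)
    linarith
  have V := vertex h (kk h E) (kp h nu E) s1 s2 s3 l1 l2 l3 d.ss d.l1n d.l2n d.l3n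
    (by rw [e2]; exact mul_pos (by linarith) D0) (by linarith) kp0 hs3
    (by unfold VV mm MM at v; exact v)
  have F := FI s3 d.s3n hs
  unfold MM at F
  rw [e2] at V
  have V' := mul_le_mul_of_nonneg_left V (sq_nonneg h)
  have W : (4*(1-nu*E))*Del ≤ (4*(1-nu*E))*(h^2*D2) := by linarith
  exact le_of_mul_le_mul_left W (by linarith)

/-- Case (III): small horizontal part of `c`. -/
theorem caseIII {Del : ℝ} (r : Rng h nu E D2) (d : Dat h nu E D2 s1 s2 s3 y1 y2 y3 l1 l2 l3)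
    (FI : ∀ s, 0 ≤ s → s ≤ 65/100 →
      4*(1-nu*E)*Del ≤ h^2*(MM h nu E s*(12 - kk h E + 4*h*s))) : Del ≤ h^2*D2 := by
  rcases le_or_gt (65/100) s1 with b1 | b1
  · exact (case_bigs r d b1).elim
  rcases le_or_gt (65/100) s2 with b2 | b2
  · exact (case_bigs r d.rot b2).elim
  rcases le_or_gt (65/100) s3 with b3 | b3
  · exact (case_bigs r d.rot.rot b3).elim
  have F1 : ∀ v : VV h nu E s2 s3 s1 l2 l3 l1, Del ≤ h^2*D2 := fun v => finish r d.rot FI b1.le v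
  have F2 : ∀ v : VV h nu E s3 s1 s2 l3 l1 l2, Del ≤ h^2*D2 := fun v => finish r d.rot.rot FI b2.le v
  have F3 : ∀ v : VV h nu E s1 s2 s3 l1 l2 l3, Del ≤ h^2*D2 := fun v => finish r d FI b3.le v
  rcases le_or_gt 0 (zz h E s1 y1) with z1 | z1
  · rcases le_or_gt 0 (zz h E s2 y2) with z2 | z2
    · rcases le_or_gt 0 (zz h E s3 y3) with z3 | z3
      · rcases case_nonneg d (by linarith [r.H1]) r.n0 z1 z2 z3 with v | v | v
        · exact F1 v
        · exact F2 v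
        · exact F3 v
      · -- only z3 negative
        rcases case_neg1 r d.rot.rot b3.le z3 z1 z2 with v | v
        · exact F1 v
        · exact F2 v
    · rcases le_or_gt 0 (zz h E s3 y3) with z3 | z3
      · -- only z2 negative
        rcases case_neg1 r d.rot b2.le z2 z3 z1 with v | v
        · exact F3 v
        · exact F1 v
      · -- z2, z3 negative
        exact F1 (case_neg2 r d.rot b2.le b3.le z2 z3)
  · rcases le_or_gt 0 (zz h E s2 y2) with z2 | z2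
    · rcases le_or_gt 0 (zz h E s3 y3) with z3 | z3
      · rcases case_neg1 r d b1.le z1 z2 z3 with v | v
        · exact F2 v
        · exact F3 v
      · exact F2 (case_neg2 r d.rot.rot b3.le b1.le z3 z1)
    · exact F3 (case_neg2 r d b1.le b2.le z1 z2)

end

end Cone58
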