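import Mathlib
import Pool.Agent.Cone58.Six

namespace Cone58

noncomputable section

def FF (h nu E t : ℝ) : ℝ := (4*h^2*(1-t)+kp h nu E*t^2)*(12-kk h E+4*t)

lemma FF_rel (h nu E s : ℝ) : h^2*(MM h nu E s*(12 - kk h E + 4*h*s)) = FF h nu E (h*s) := by
  unfold FF MM; ring

lemma stepA_core {x t : ℝ} (x0 : 0 ≤ x) (x1 : x ≤ 1/4) (t0 : 0 ≤ t) (t1 : t ≤ 1/2) :
    (6-x)*(4*(1-t)+753/100*t^2) ≤ (4*(2+x)*(1-t)+3*t^2)*((1-x)*(5-x)-53/100+4*t) := by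
  have a : 0 ≤ (1-t)*(1176/100-2612/100*x-24*x^2 - 37/10) := by
    apply mul_nonneg (by linarith); nlinarith
  have b : 0 ≤ (1-t)*(16*x*t) := by
    apply mul_nonneg (by linarith); positivity
  have c : 0 ≤ t^2*(447/100-6*x - 297/100) := by
    apply mul_nonneg (by positivity); linarith
  have d : 0 ≤ (t*(1/2-t)) := mul_nonneg t0 (by linarith)
  have e : 0 ≤ (4*(2+x)*(1-t)+3*t^2)*x^2 := by
    apply mul_nonneg _ (by positivity)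
    have : 0 ≤ 4*(2+x)*(1-t) := mul_nonneg (by linarith) (by linarith)
    positivity
  have f : 0 ≤ t^3 := by positivity
  have g : 0 ≤ x*t^2 := by positivity
  have id : (4*(2+x)*(1-t)+3*t^2)*((1-x)*(5-x)-53/100+4*t) - (6-x)*(4*(1-t)+753/100*t^2)
      = (4*(2+x)*(1-t)+3*t^2)*x^2 + (1-t)*(1176/100-2612/100*x-24*x^2 - 37/10)
        + (1-t)*(16*x*t) + 3*(t^2*(447/100-6*x - 297/100)) + 12*t^3 + 753/100*(x*t^2)
        + ((1-t)*(37/10+32*t) - 3627/100*t^2) := by ring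
  nlinarith

lemma kp_low {h nu E : ℝ} (h1 : 1 ≤ h) (h2 : h ≤ 5/4) (E0 : 0 ≤ E) (E1 : E ≤ 53/100)
    (n1 : nu ≤ 1/5) : 49/10 ≤ kp h nu E := by
  unfold kp kk hH
  have H0 : 0 ≤ (4*h-h^2+E)^2 := by positivity
  have a : nu*(4*h-h^2+E)^2 ≤ 1/5*(4*h-h^2+E)^2 := mul_le_mul_of_nonneg_right n1 H0
  obtain ⟨x, hx⟩ : ∃ x, h = 1 + x := ⟨h-1, by ring⟩
  subst hx
  have x0 : 0 ≤ x := by linarith
  have x1 : x ≤ 1/4 := by linarith
  obtain ⟨u, hu⟩ : ∃ u, u = 2*x-x^2+E := ⟨_, rfl⟩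
  have e1 : 4*(1+x)-(1+x)^2+E = 3+u := by rw [hu]; ring
  have u0 : 0 ≤ u := by rw [hu]; nlinarith
  have u1 : u ≤ 2*x+53/100 := by rw [hu]; nlinarith
  rw [e1] at a ⊢
  have e2 : 8*(1+x)-(1+x)^2+E = 7+4*x+u := by rw [hu]; ring
  rw [e2]
  nlinarith

lemma stepA {h nu E t : ℝ} (h1 : 1 ≤ h) (h2 : h ≤ 5/4) (E0 : 0 ≤ E) (E1 : E ≤ 53/100)
    (n0 : 0 ≤ nu) (n1 : nu ≤ 1/5) (t0 : 0 ≤ t) (t1 : t ≤ 1/2) : FF 1 nu E t ≤ FF h nu E t := by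
  obtain ⟨x, hx⟩ : ∃ x, h = 1 + x := ⟨h-1, by ring⟩
  subst hx
  have x0 : 0 ≤ x := by linarith
  have x1 : x ≤ 1/4 := by linarith
  obtain ⟨c, hc⟩ : ∃ c, c = 6-x-nu*(2-x)*((3+2*x-x^2+E)+(3+E)) := ⟨_, rfl⟩
  have id : FF (1+x) nu E t - FF 1 nu E t = x*((4*(2+x)*(1-t)+c*t^2)*((1-x)*(5-x)-E+4*t)
      - (6-x)*(4*(1-t)+kp 1 nu E*t^2)) := by
    unfold FF kp kk hH; rw [hc]; ring
  have c3 : 3 ≤ c := by
    rw [hc]
    have a : 0 ≤ (3+2*x-x^2+E)+(3+E) := by nlinarith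
    have b : (3+2*x-x^2+E)+(3+E) ≤ 75/10 := by
      nlinarith [mul_nonneg (by linarith : 0 ≤ 1/4-x) (by linarith : 0 ≤ 7/4-x)]
    have d : nu*(2-x) ≤ 1/5*(2-x) := mul_le_mul_of_nonneg_right n1 (by linarith)
    have e : nu*(2-x)*((3+2*x-x^2+E)+(3+E)) ≤ 1/5*(2-x)*(75/10) :=
      mul_le_mul d b a (by linarith)
    linarith
  have k : kp 1 nu E ≤ 753/100 := by
    unfold kp kk
    have : 0 ≤ nu*(hH 1 E)^2 := by positivity
    linarith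
  have core := stepA_core x0 x1 t0 t1
  have f1 : 0 ≤ (1-x)*(5-x)-53/100+4*t := by nlinarith
  have t2 : 0 ≤ t^2 := by positivity
  have g1 : (4*(2+x)*(1-t)+3*t^2)*((1-x)*(5-x)-53/100+4*t) ≤
      (4*(2+x)*(1-t)+c*t^2)*((1-x)*(5-x)-E+4*t) := by
    apply mul_le_mul _ _ f1
    · have : 0 ≤ 4*(2+x)*(1-t) := mul_nonneg (by linarith) (by linarith)
      have : 0 ≤ c*t^2 := mul_nonneg (by linarith) t2
      linarith
    · have := mul_le_mul_of_nonneg_right c3 t2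
      linarith
    · linarith
  have g2 : (6-x)*(4*(1-t)+kp 1 nu E*t^2) ≤ (6-x)*(4*(1-t)+753/100*t^2) := by
    apply mul_le_mul_of_nonneg_left _ (by linarith)
    have := mul_le_mul_of_nonneg_right k t2
    linarith
  have : 0 ≤ FF (1+x) nu E t - FF 1 nu E t := by
    rw [id]; apply mul_nonneg x0; linarith
  linarith

lemma stepBig {h nu E t : ℝ} (h1 : 1 ≤ h) (h2 : h ≤ 5/4) (E0 : 0 ≤ E) (E1 : E ≤ 53/100)
    (n1 : nu ≤ 1/5) (t0 : 1/2 ≤ t) (t1 : t ≤ 82/100) : 198/10 ≤ FF h nu E t := by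
  have k := kp_low h1 h2 E0 E1 n1
  obtain ⟨x, hx⟩ : ∃ x, h = 1 + x := ⟨h-1, by ring⟩
  subst hx
  have x0 : 0 ≤ x := by linarith
  have x1 : x ≤ 1/4 := by linarith
  unfold FF
  have t2 : 0 ≤ t^2 := by positivity
  have a : 4*(1+2*x)*(1-t)+49/10*t^2 ≤ 4*(1+x)^2*(1-t)+kp (1+x) nu E*t^2 := by
    have := mul_le_mul_of_nonneg_right k t2
    have : 0 ≤ 4*x^2*(1-t) := mul_nonneg (by positivity) (by linarith)
    nlinarith
  have b : 447/100-6*x+4*t ≤ 12-kk (1+x) E+4*t := by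
    unfold kk; nlinarith
  have a0 : 0 ≤ 4*(1+2*x)*(1-t)+49/10*t^2 := by
    have : 0 ≤ 4*(1+2*x)*(1-t) := mul_nonneg (by linarith) (by linarith)
    positivity
  have b0 : 0 ≤ 447/100-6*x+4*t := by linarith
  have m := mul_le_mul a b b0 (le_trans a0 a)
  refine le_trans ?_ m
  obtain ⟨y, hy⟩ : ∃ y, t = 1/2+y := ⟨t-1/2, by ring⟩
  subst hy
  have y0 : 0 ≤ y := by linarith
  have y1 : y ≤ 32/100 := by linarith
  nlinarith [mul_nonneg x0 y0, mul_nonneg x0 (by linarith : 0 ≤ 1/4-x), mul_nonneg y0 (by linarith : 0 ≤ 32/100-y),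
    mul_nonneg (mul_nonneg x0 y0) y0, mul_nonneg (mul_nonneg y0 y0) y0, mul_nonneg (mul_nonneg x0 y0) (by linarith : 0 ≤ 1/4-x),
    mul_nonneg (mul_nonneg x0 y0) (by linarith : 0 ≤ 32/100-y), mul_nonneg (mul_nonneg y0 y0) (by linarith : 0 ≤ 1/4-x)]

end

end Cone58
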