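import Mathlib
import Pool.Agent.Cone58.Seven

namespace Cone58

noncomputable section

/-- `G2 e`, the function whose minimum is the square of the optimal lattice determinant. -/
def G2 (e : ℝ) : ℝ := (3-e)*(1+e)*(5+e)*(3+e^2)^2/(3+e)^3

lemma FF1 (nu E t : ℝ) : FF 1 nu E t = (4*(1-t)+(7+E-nu*(3+E)^2)*t^2)*(5-E+4*t) := by
  unfold FF kp kk hH; ring

lemma stepB1 {E t : ℝ} (E0 : 0 ≤ E) (E1 : E ≤ 9/400) (t0 : 0 ≤ t) (_t1 : t ≤ 1/2) :
    1971014/100000 ≤ FF 1 0 E t := by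
  rw [FF1]
  have t2 : 0 ≤ t^2 := by positivity
  have a0 : 1971014/100000 ≤ (4*(1-t)+7*t^2)*(5+4*t) := by
    nlinarith [sq_nonneg (t-88/1000), mul_nonneg t0 (sq_nonneg (t-88/1000))]
  have a1 : 1971014/100000 ≤ (4*(1-t)+(7+9/400)*t^2)*(5-9/400+4*t) := by
    nlinarith [sq_nonneg (t-865/10000), mul_nonneg t0 (sq_nonneg (t-865/10000))]
  have id : (9/400)*((4*(1-t)+(7+E-0*(3+E)^2)*t^2)*(5-E+4*t)) =
      (9/400-E)*((4*(1-t)+7*t^2)*(5+4*t)) + E*((4*(1-t)+(7+9/400)*t^2)*(5-9/400+4*t))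
       + 9/400*(E*(9/400-E)*t^2) := by ring
  have p1 := mul_le_mul_of_nonneg_left a0 (by linarith : 0 ≤ 9/400-E)
  have p2 := mul_le_mul_of_nonneg_left a1 E0
  have p3 : 0 ≤ E*(9/400-E)*t^2 := by
    apply mul_nonneg (mul_nonneg E0 (by linarith)) t2
  nlinarith

lemma stepB3 {E t : ℝ} (E0 : 48/1000 ≤ E) (E1 : E ≤ 53/100) (t0 : 0 ≤ t) (t1 : t ≤ 1/2) :
    (1-1/5*E)*(1971014/100000) ≤ FF 1 (1/5) E t := by
  rw [FF1]
  have t2 : 0 ≤ t^2 := by positivity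
  have a0 : 0 ≤ (20-20*t+(26-48/1000-(48/1000)^2)*t^2)*(5-48/1000+4*t) - (5-48/1000)*(1971014/100000) := by
    nlinarith [sq_nonneg (t-273/2000), mul_nonneg t0 (sq_nonneg (t-273/2000))]
  have a1 : 0 ≤ (20-20*t+(26-53/100-(53/100)^2)*t^2)*(5-53/100+4*t) - (5-53/100)*(1971014/100000) := by
    nlinarith [sq_nonneg (t-273/2000), mul_nonneg t0 (sq_nonneg (t-273/2000))]
  have id : (53/100-48/1000)*((20-20*t+(26-E-E^2)*t^2)*(5-E+4*t) - (5-E)*(1971014/100000)) =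
      (53/100-E)*((20-20*t+(26-48/1000-(48/1000)^2)*t^2)*(5-48/1000+4*t) - (5-48/1000)*(1971014/100000))
      + (E-48/1000)*((20-20*t+(26-53/100-(53/100)^2)*t^2)*(5-53/100+4*t) - (5-53/100)*(1971014/100000))
       + (53/100-48/1000)*((E-48/1000)*(53/100-E)*t^2*(4+4*t - E - 53/100-48/1000)) := by ring
  have p1 := mul_nonneg (by linarith : 0 ≤ 53/100-E) a0
  have p2 := mul_nonneg (by linarith : 0 ≤ E-48/1000) a1
  have p3 : 0 ≤ (E-48/1000)*(53/100-E)*t^2*(4+4*t - E - 53/100-48/1000) := by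
    apply mul_nonneg (mul_nonneg (mul_nonneg (by linarith) (by linarith)) t2) (by linarith)
  nlinarith

def kpe (e : ℝ) : ℝ := (9-e^2)*(1+6*e+e^2)/(e*(15+17*e-3*e^2-e^3))

def nue (e : ℝ) : ℝ := (7+e^2-kpe e)/(3+e^2)^2

lemma kpe_bd {e : ℝ} (e0 : 15/100 ≤ e) (e1 : e ≤ 22/100) (e2 : e^2 ≤ 48/1000) :
    4 ≤ kpe e ∧ kpe e ≤ 7+e^2 ∧ 7+e^2 - kpe e ≤ 1/5*(3+e^2)^2 := by
  have dpos : 0 < e*(15+17*e-3*e^2-e^3) := by
    apply mul_pos (by linarith); nlinarith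
  unfold kpe
  refine ⟨?_, ?_, ?_⟩
  · rw [le_div_iff₀ dpos]; nlinarith
  · rw [div_le_iff₀ dpos]; nlinarith
  · have : 7+e^2 - 1/5*(3+e^2)^2 ≤ (9-e^2)*(1+6*e+e^2)/(e*(15+17*e-3*e^2-e^3)) := by
      rw [le_div_iff₀ dpos]
      have he : e ≤ 2191/10000 := by nlinarith
      obtain ⟨w, hw⟩ : ∃ w, e = 2191/10000 - w := ⟨2191/10000-e, by ring⟩
      have w0 : 0 ≤ w := by linarith
      have w1 : w ≤ 7/100 := by linarith
      have key : 0 ≤ 9 -24*e -402/5*e^2 + 63/5*e^3 := by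
        subst hw
        nlinarith [mul_nonneg w0 (by linarith : 0 ≤ 7/100-w), mul_nonneg (mul_nonneg w0 w0) (by linarith : 0 ≤ 7/100-w)]
      have e4 : 0 ≤ e^4 := by positivity
      have e6 : 0 ≤ e^6 := by positivity
      have h5 : 0 ≤ e^4*(1-e) := mul_nonneg e4 (by linarith)
      have h6 : 0 ≤ e^4*(1-e^2) := mul_nonneg e4 (by nlinarith)
      have h7 : 0 ≤ e^6*(1-e) := mul_nonneg e6 (by linarith)
      have h8 : 0 ≤ e^6*(1-e^2) := mul_nonneg e6 (by nlinarith)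
      nlinarith
    linarith

end

end Cone58
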