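import Mathlib
import Pool.Agent.Cone58.Eight

namespace Cone58

noncomputable section

/-- The quintic whose root in `(0,1)` minimises `G2`. -/
def PP (e : ℝ) : ℝ := 2*e^5+15*e^4+14*e^3-96*e^2-24*e+9

lemma PP_anti {a b : ℝ} (a0 : 0 ≤ a) (ab : a < b) (b1 : b ≤ 1) : PP b < PP a := by
  unfold PP
  obtain ⟨d, hd⟩ : ∃ d, b = a + d := ⟨b-a, by ring⟩
  subst hd
  have d0 : 0 < d := by linarith
  have s1 : 0 < a + d := by linarith
  have q2 : (a+d)^2 ≤ (a+d) := by nlinarith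
  have q3 : (a+d)^3 ≤ (a+d) := by nlinarith
  have q4 : (a+d)^4 ≤ (a+d) := by nlinarith
  have a1 : a ≤ 1 := by linarith
  have id : (2*(a+d)^5+15*(a+d)^4+14*(a+d)^3-96*(a+d)^2-24*(a+d)+9) - (2*a^5+15*a^4+14*a^3-96*a^2-24*a+9)
    = d*(2*((a+d)^4+(a+d)^3*a+(a+d)^2*a^2+(a+d)*a^3+a^4)+15*((a+d)^3+(a+d)^2*a+(a+d)*a^2+a^3)
      +14*((a+d)^2+(a+d)*a+a^2)-96*((a+d)+a)-24) := by ring
  have w : ∀ x y : ℝ, 0 ≤ x → x ≤ 1 → 0 ≤ y → y ≤ 1 → x*y ≤ 1 := by
    intro x y x0 x1 y0 y1; nlinarith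
  have u : ∀ x y z : ℝ, 0 ≤ z → x ≤ y → z ≤ 1 → 0 ≤ y → z*x ≤ y := by
    intro x y z z0 xy z1 y0; nlinarith
  set s := a + d
  have t1 : s^4+s^3*a+s^2*a^2+s*a^3+a^4 ≤ 5*s := by
    have a2 : a^2 ≤ s := by nlinarith
    have a3 : a^3 ≤ s := by nlinarith [mul_nonneg a0 (by linarith : 0 ≤ 1 - a), mul_nonneg (mul_nonneg a0 a0) (by linarith : 0 ≤ 1 - a)]
    have a4 : a^4 ≤ s := by nlinarith [mul_nonneg a0 (by linarith : 0 ≤ 1 - a), mul_nonneg (mul_nonneg a0 a0) (by linarith : 0 ≤ 1 - a), mul_nonneg (pow_nonneg a0 3) (by linarith : 0 ≤ 1 - a)]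
    have b1 : s^3*a ≤ s := by
      have := mul_le_mul q3 a1 a0 s1.le; linarith
    have b2 : s^2*a^2 ≤ s := by
      have : a^2 ≤ 1 := by nlinarith
      have := mul_le_mul q2 this (by positivity) s1.le; linarith
    have b3 : s*a^3 ≤ s := by
      have : a^3 ≤ 1 := by linarith
      nlinarith
    linarith
  have t2 : s^3+s^2*a+s*a^2+a^3 ≤ 4*s := by
    have a3 : a^3 ≤ s := by nlinarith [mul_nonneg a0 (by linarith : 0 ≤ 1 - a), mul_nonneg (mul_nonneg a0 a0) (by linarith : 0 ≤ 1 - a)]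
    have b2 : s^2*a ≤ s := by
      have := mul_le_mul q2 a1 a0 s1.le; linarith
    have b3 : s*a^2 ≤ s := by
      have : a^2 ≤ 1 := by nlinarith
      nlinarith
    linarith
  have t3 : s^2+s*a+a^2 ≤ 3*s := by nlinarith
  have : d*(2*(s^4+s^3*a+s^2*a^2+s*a^3+a^4)+15*(s^3+s^2*a+s*a^2+a^3)
      +14*(s^2+s*a+a^2)-96*(s+a)-24) < 0 := by
    apply mul_neg_of_pos_of_neg d0
    have : s ≤ 1 := b1
    nlinarith
  linarith

lemma PP_cont : Continuous PP := by unfold PP; fun_prop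

lemma exists_root : ∃ e : ℝ, 208/1000 < e ∧ e < 209/1000 ∧ PP e = 0 := by
  have h1 : (0:ℝ) < PP (208/1000) := by unfold PP; norm_num
  have h2 : PP (209/1000) < 0 := by unfold PP; norm_num
  have := intermediate_value_Ioo' (by norm_num : (208/1000:ℝ) ≤ 209/1000) PP_cont.continuousOn
  have m : (0:ℝ) ∈ Set.Ioo (PP (209/1000)) (PP (208/1000)) := ⟨h2, h1⟩
  obtain ⟨e, he, h⟩ := this m
  exact ⟨e, he.1, he.2, h⟩

lemma root_unique {a b : ℝ} (a0 : 0 ≤ a) (a1 : a ≤ 1) (b0 : 0 ≤ b) (b1 : b ≤ 1)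
    (ha : PP a = 0) (hb : PP b = 0) : a = b := by
  rcases lt_trichotomy a b with h | h | h
  · have := PP_anti a0 h b1; linarith
  · exact h
  · have := PP_anti b0 h a1; linarith

/-- The optimal parameter. -/
def e0 : ℝ := exists_root.choose

lemma e0_spec : 208/1000 < e0 ∧ e0 < 209/1000 ∧ PP e0 = 0 := exists_root.choose_spec

lemma G2_deriv {e : ℝ} (h : 0 ≤ e) : HasDerivAt G2 (-2*(3+e^2)*PP e/(3+e)^4) e := by
  have hp : (3+e) ≠ 0 := by positivity
  have hp3 : (3+e)^3 ≠ 0 := by positivity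
  have a1 : HasDerivAt (fun x : ℝ => 3 - x) (-1) e := by
    simpa using (hasDerivAt_id e).const_sub 3
  have a2 : HasDerivAt (fun x : ℝ => 1 + x) 1 e := by
    simpa using (hasDerivAt_id e).const_add 1
  have a3 : HasDerivAt (fun x : ℝ => 5 + x) 1 e := by
    simpa using (hasDerivAt_id e).const_add 5
  have a4 : HasDerivAt (fun x : ℝ => 3 + x) 1 e := by
    simpa using (hasDerivAt_id e).const_add 3
  have a5 : HasDerivAt (fun x : ℝ => 3 + x^2) (2*e) e := by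
    simpa using (hasDerivAt_pow 2 e).const_add 3
  have h := (((a1.mul a2).mul a3).mul (a5.pow 2)).div (a4.pow 3) hp3
  refine (h.congr_deriv ?_).congr_of_eventuallyEq ?_
  · simp only [Pi.pow_apply, Pi.mul_apply]
    unfold PP
    field_simp
    ring
  · filter_upwards with x
    simp [G2]

lemma G2_contOn : ContinuousOn G2 (Set.Icc 0 1) := fun _ he =>
  (G2_deriv he.1).continuousAt.continuousWithinAt

lemma G2_min {e : ℝ} (e1 : 0 ≤ e) (e2 : e ≤ 1) : G2 e0 ≤ G2 e := by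
  obtain ⟨r1, r2, r3⟩ := e0_spec
  rcases le_total e e0 with h | h
  · have : AntitoneOn G2 (Set.Icc 0 e0) := by
      apply antitoneOn_of_deriv_nonpos (convex_Icc _ _)
      · exact G2_contOn.mono (Set.Icc_subset_Icc le_rfl (by linarith))
      · intro x hx
        rw [interior_Icc] at hx
        exact (G2_deriv hx.1.le).differentiableAt.differentiableWithinAt
      · intro x hx
        rw [interior_Icc] at hx
        rw [(G2_deriv hx.1.le).deriv]
        have := PP_anti hx.1.le hx.2 (by linarith)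
        rw [r3] at this
        have x0 := hx.1
        apply div_nonpos_of_nonpos_of_nonneg _ (by positivity)
        have : 0 ≤ 2*(3+x^2)*PP x := by positivity
        linarith
    exact this ⟨e1, h⟩ ⟨by linarith, le_rfl⟩ h
  · have : MonotoneOn G2 (Set.Icc e0 1) := by
      apply monotoneOn_of_deriv_nonneg (convex_Icc _ _)
      · exact G2_contOn.mono (Set.Icc_subset_Icc (by linarith) le_rfl)
      · intro x hx
        rw [interior_Icc] at hx
        exact (G2_deriv (by linarith [hx.1])).differentiableAt.differentiableWithinAt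
      · intro x hx
        rw [interior_Icc] at hx
        have x0 : 0 < x := by linarith [hx.1]
        rw [(G2_deriv x0.le).deriv]
        have := PP_anti (by linarith : 0 ≤ e0) hx.1 hx.2.le
        rw [r3] at this
        apply div_nonneg _ (by positivity)
        have : 0 ≤ 2*(3+x^2)*(-PP x) := by
          apply mul_nonneg (by positivity); linarith
        linarith
    exact this ⟨le_rfl, by linarith⟩ ⟨h, e2⟩ h

lemma G2_e0_le : 4*G2 e0 ≤ 1971014/100000 := by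
  have := G2_min (e := 208/1000) (by norm_num) (by norm_num)
  have h : 4*G2 (208/1000) ≤ 1971014/100000 := by unfold G2; norm_num
  linarith

lemma G2_e0_pos : 0 < G2 e0 := by
  obtain ⟨r1, r2, r3⟩ := e0_spec
  unfold G2
  have : 0 < e0 := by linarith
  have : 0 < 3 - e0 := by linarith
  positivity

lemma stepB2 {e t : ℝ} (e0' : 15/100 ≤ e) (e1 : e ≤ 22/100) (e2 : e^2 ≤ 48/1000)
    (t0 : 0 ≤ t) : 4*(1-nue e*e^2)*G2 e ≤ FF 1 (nue e) (e^2) t := by
  obtain ⟨k1, k2, k3⟩ := kpe_bd e0' e1 e2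
  have epos : 0 < e := by linarith
  have dpos : 0 < (15+17*e-3*e^2-e^3) := by nlinarith
  have C0 : 0 ≤ kpe e*(5-e^2+8*(2*e/(3+e)))-16 := by
    have : 0 ≤ 2*e/(3+e) := by positivity
    nlinarith
  have id : FF 1 (nue e) (e^2) t - 4*(1-nue e*e^2)*G2 e
      = (t-2*e/(3+e))^2*(4*kpe e*t+(kpe e*(5-e^2+8*(2*e/(3+e)))-16)) := by
    rw [FF1]; unfold nue G2
    have kq : kpe e = (9-e^2)*(1+6*e+e^2)/(e*(15+17*e-3*e^2-e^3)) := rfl
    rw [kq]
    obtain ⟨q, hq⟩ : ∃ q, q = 15+17*e-3*e^2-e^3 := ⟨_, rfl⟩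
    rw [← hq] at dpos ⊢
    have p3 : (3+e) ≠ 0 := by positivity
    have p4 : (3+e^2) ≠ 0 := by positivity
    have q0 : q ≠ 0 := dpos.ne'
    have e00 : e ≠ 0 := epos.ne'
    field_simp
    rw [hq]
    ring
  have : 0 ≤ (t-2*e/(3+e))^2*(4*kpe e*t+(kpe e*(5-e^2+8*(2*e/(3+e)))-16)) := by
    apply mul_nonneg (sq_nonneg _)
    have : 0 ≤ 4*kpe e*t := by apply mul_nonneg (by linarith) t0
    linarith
  linarith

/-- for every `E` there is a multiplier `nu`. -/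
lemma exists_nu {h E : ℝ} (h1 : 1 ≤ h) (h2 : h ≤ 5/4) (E0 : 0 ≤ E) (E1 : E ≤ 53/100) :
    ∃ nu : ℝ, 0 ≤ nu ∧ nu ≤ 1/5 ∧ ∀ s, 0 ≤ s → s ≤ 65/100 →
      4*(1-nu*E)*G2 e0 ≤ h^2*(MM h nu E s*(12 - kk h E + 4*h*s)) := by
  have gp := G2_e0_pos
  have gu := G2_e0_le
  have big : ∀ nu s : ℝ, 0 ≤ nu → nu ≤ 1/5 → 0 ≤ s → s ≤ 65/100 →
      (∀ t, 0 ≤ t → t ≤ 1/2 → 4*(1-nu*E)*G2 e0 ≤ FF 1 nu E t) → 
      4*(1-nu*E)*G2 e0 ≤ h^2*(MM h nu E s*(12 - kk h E + 4*h*s)) := by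
    intro nu s n0 n1 s0 s1 hh
    rw [FF_rel]
    rcases le_total (h*s) (1/2) with c | c
    · exact le_trans (hh (h*s) (by positivity) c) (stepA h1 h2 E0 E1 n0 n1 (by positivity) c)
    · have := stepBig (t := h*s) h1 h2 E0 E1 n1 c (by nlinarith)
      have : 0 ≤ nu*E := mul_nonneg n0 E0
      nlinarith
  rcases le_total E (9/400) with c1 | c1
  · refine ⟨0, le_rfl, by norm_num, fun s s0 s1 => big 0 s le_rfl (by norm_num) s0 s1 ?_⟩
    intro t t0 t1
    have := stepB1 E0 c1 t0 t1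
    linarith
  rcases le_total (48/1000) E with c2 | c2
  · refine ⟨1/5, by norm_num, by norm_num, fun s s0 s1 => big _ s (by norm_num) (by norm_num) s0 s1 ?_⟩
    intro t t0 t1
    have := stepB3 c2 E1 t0 t1
    have : (1-1/5*E)*(4*G2 e0) ≤ (1-1/5*E)*(1971014/100000) := 
      mul_le_mul_of_nonneg_left gu (by linarith)
    linarith
  · obtain ⟨e, he, rfl⟩ : ∃ e : ℝ, 0 ≤ e ∧ E = e^2 := ⟨√E, Real.sqrt_nonneg _, (Real.sq_sqrt E0).symm⟩
    have l1 : 15/100 ≤ e := by nlinarith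
    have l2 : e ≤ 22/100 := by nlinarith
    obtain ⟨k1, k2, k3⟩ := kpe_bd l1 l2 c2
    have n0 : 0 ≤ nue e := by
      unfold nue
      apply div_nonneg _ (by positivity)
      linarith
    have n1 : nue e ≤ 1/5 := by
      unfold nue
      rw [div_le_iff₀ (by positivity)]
      linarith
    refine ⟨nue e, n0, n1, fun s s0 s1 => big _ s n0 n1 s0 s1 ?_⟩
    intro t t0 t1
    have a := stepB2 l1 l2 c2 t0
    have b := G2_min (e := e) he (by linarith)
    have : 0 ≤ 1 - nue e*e^2 := by nlinarith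
    have : 4*(1-nue e*e^2)*G2 e0 ≤ 4*(1-nue e*e^2)*G2 e := 
      mul_le_mul_of_nonneg_left b (by linarith)
    linarith

end

end Cone58
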