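import Mathlib
import Pool.Agent.Cone58.Nine

namespace Cone58

noncomputable section

variable {h nu e D2 s1 s2 s3 y1 y2 y3 l1 l2 l3 : ℝ}

lemma caseII_key {h e s y L : ℝ} (h1 : 1 ≤ h) (_h2 : h ≤ 5/4) (e0 : 7/10 ≤ e) (e1 : e < 2-h)
    (s0 : 0 ≤ s) (s1 : s ≤ 1)
    (a : 4 - s*(4*h+2*y) + s^2*(h^2-e^2) ≤ L + (kk h (e^2)/(hH h (e^2))^2)*y^2)
    (c : y^2 ≤ e^2*(L+(kk h (e^2)/(hH h (e^2))^2)*y^2))
    (z0 : 0 ≤ zz h (e^2) s y) : 4 - kk h (e^2)/4 ≤ L := by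
  have Hpos : 0 < hH h (e^2) := by unfold hH; nlinarith
  have kpos : 0 < kk h (e^2) := by unfold kk; nlinarith
  have hnu : 0 < kk h (e^2)/(hH h (e^2))^2 := by positivity
  have nH : kk h (e^2)/(hH h (e^2))^2 * (hH h (e^2))^2 = kk h (e^2) := by
    field_simp
  have ineq : kk h (e^2)*(h+e) ≤ 4*hH h (e^2)*h := by
    unfold kk hH
    obtain ⟨x, hx⟩ : ∃ x, h = 1 + x := ⟨h-1, by ring⟩
    obtain ⟨f, hf⟩ : ∃ f, e = 1 - x - f := ⟨1-x-e, by ring⟩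
    subst hx; subst hf
    have x0 : 0 ≤ x := by linarith
    have f0 : 0 ≤ f := by linarith
    have x1 : x + f ≤ 3/10 := by linarith
    nlinarith [mul_nonneg x0 f0, mul_nonneg x0 x0, mul_nonneg f0 f0, mul_nonneg (mul_nonneg x0 x0) x0,
      mul_nonneg (mul_nonneg x0 x0) f0, mul_nonneg (mul_nonneg x0 f0) f0, mul_nonneg (mul_nonneg f0 f0) f0,
      mul_nonneg x0 (by linarith : 0 ≤ 3/10 - (x+f)), mul_nonneg f0 (by linarith : 0 ≤ 3/10 - (x+f))]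
  set H := hH h (e^2) with hHd
  set k := kk h (e^2) with hkd
  set n := k/H^2 with hnd
  have B := aB (nu := n) a
  have mmz : mm h n (e^2) s = 4 - k/4 := by
    unfold mm kp
    rw [← hHd, ← hkd, nH]; ring
  rw [mmz] at B
  by_contra hL
  push Not at hL
  have neg : zz h (e^2) s y*(2*s+n*(1-2*s)*H - n*zz h (e^2) s y) < 0 := by linarith
  have neg2 : 2*s+n*(1-2*s)*H - n*zz h (e^2) s y < 0 := by
    by_contra hh
    push Not at hh
    have := mul_nonneg z0 hh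
    linarith
  have yv : y = (1-2*s)*H/2 - zz h (e^2) s y := by
    unfold zz; rw [← hHd]; ring
  have ny : n*H/2+s*(2-n*H) < n*(-y) := by
    have : n*(-y) = n*zz h (e^2) s y - n*(1-2*s)*H/2 := by
      rw [yv]; ring_nf
      unfold zz; rw [← hHd]; ring
    rw [this]; linarith
  have nHk : n*H*(h+e) ≤ 4*h := by
    have : n*H*(h+e) = (k*(h+e))/H := by
      rw [hnd]; field_simp
    rw [this, div_le_iff₀ Hpos]
    linarith
  have hpos : 0 < h := by linarith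
  have nHpos : 0 < n*H := mul_pos hnu Hpos
  have t : n*H*e ≤ 2*h*(n*(-y)) := by
    have t1 : n*H*e ≤ 2*h*(n*H/2+s*(2-n*H)) := by
      have e1 : 2*h*(n*H/2+s*(2-n*H)) - n*H*e = (1-s)*(n*H*(h-e)) + s*(4*h-n*H*(h+e)) := by ring
      have p1 : 0 ≤ (1-s)*(n*H*(h-e)) := mul_nonneg (by linarith) (mul_nonneg nHpos.le (by linarith))
      have p2 : 0 ≤ s*(4*h-n*H*(h+e)) := mul_nonneg s0 (by linarith)
      linarith
    have : 2*h*(n*H/2+s*(2-n*H)) ≤ 2*h*(n*(-y)) := mul_le_mul_of_nonneg_left ny.le (by linarith)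
    linarith
  have t' : H*e ≤ 2*h*(-y) := by
    have : n*(H*e) ≤ n*(2*h*(-y)) := by linarith
    exact le_of_mul_le_mul_left this hnu
  have t2 : (H*e)^2 ≤ (2*h*(-y))^2 := pow_le_pow_left₀ (by positivity) t' 2
  have mid : (4-k/4)*(4*h^2) = H^2 - k*e^2 := by
    rw [hkd, hHd]; unfold kk hH; ring
  have hne : 1 - n*e^2 = (H^2-k*e^2)/H^2 := by
    rw [hnd]; field_simp
  have pos4 : 0 < 4 - k/4 := by
    rw [hkd]; unfold kk
    nlinarith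
  have pos5 : 0 < H^2 - k*e^2 := by
    rw [← mid]; positivity
  have pos6 : 0 < 1 - n*e^2 := by rw [hne]; positivity
  have c' : y^2*(1-n*e^2) ≤ e^2*L := by linarith
  -- e^2 m = (1-n e^2) e^2 H^2/(4h^2)
  have fin : e^2*(4-k/4) ≤ y^2*(1-n*e^2) := by
    have q1 : (4*h^2)*(e^2*(4-k/4)) = (1-n*e^2)*(H*e)^2 := by
      have : (1-n*e^2)*(H*e)^2 = ((1-n*e^2)*H^2)*e^2 := by ring
      rw [this, hne]
      have : (H^2-k*e^2)/H^2*H^2 = H^2-k*e^2 := by field_simp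
      rw [this, ← mid]; ring
    have q2 : (1-n*e^2)*(H*e)^2 ≤ (1-n*e^2)*(2*h*(-y))^2 := mul_le_mul_of_nonneg_left t2 pos6.le
    have q3 : (4*h^2)*(e^2*(4-k/4)) ≤ (4*h^2)*(y^2*(1-n*e^2)) := by
      rw [q1]; linarith
    exact le_of_mul_le_mul_left q3 (by positivity)
  have : e^2*(4-k/4) ≤ e^2*L := le_trans fin c'
  have := le_of_mul_le_mul_left this (by positivity)
  linarith

lemma caseII_key' {h e s y L : ℝ} (h1 : 1 ≤ h) (h2 : h ≤ 5/4) (e0 : 7/10 ≤ e) (e1 : e < 2-h)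
    (s0 : 0 ≤ s) (s1 : s ≤ 1)
    (a : 4 - s*(4*h+2*y) + s^2*(h^2-e^2) ≤ L + (kk h (e^2)/(hH h (e^2))^2)*y^2)
    (b : 4 - (1-s)*(4*h-2*y) + (1-s)^2*(h^2-e^2) ≤ L + (kk h (e^2)/(hH h (e^2))^2)*y^2)
    (c : y^2 ≤ e^2*(L+(kk h (e^2)/(hH h (e^2))^2)*y^2)) : 4 - kk h (e^2)/4 ≤ L := by
  rcases le_total 0 (zz h (e^2) s y) with z | z
  · exact caseII_key h1 h2 e0 e1 s0 s1 a c z
  · refine caseII_key (s := 1-s) (y := -y) h1 h2 e0 e1 (by linarith) (by linarith) ?_ ?_ ?_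
    · rw [neg_sq]; refine le_trans (le_of_eq ?_) b; ring
    · rw [neg_sq]; exact c
    · unfold zz at z ⊢; linarith

theorem caseII (h1 : 1 ≤ h) (h2 : h ≤ 5/4) (e0 : 0 ≤ e) (E0 : 53/100 ≤ e^2) (e1 : e < 2-h)
    (d : Dat h (kk h (e^2)/(hH h (e^2))^2) (e^2) D2 s1 s2 s3 y1 y2 y3 l1 l2 l3) :
    49283/10000 ≤ h^2*D2 := by
  have e7 : 7/10 ≤ e := by nlinarith
  have b1 := caseII_key' h1 h2 e7 e1 d.s1n (by linarith [d.s2n, d.s3n, d.ss]) d.a1 d.b1 d.c1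
  have b2 := caseII_key' h1 h2 e7 e1 d.s2n (by linarith [d.s1n, d.s3n, d.ss]) d.a2 d.b2 d.c2
  have b3 := caseII_key' h1 h2 e7 e1 d.s3n (by linarith [d.s2n, d.s1n, d.ss]) d.a3 d.b3 d.c3
  have he2 := d.e2
  have Hpos : 0 < hH h (e^2) := by unfold hH; nlinarith
  have kpos : 0 < kk h (e^2) := by unfold kk; nlinarith
  have mid : (4-kk h (e^2)/4)*(4*h^2) = (hH h (e^2))^2 - kk h (e^2)*e^2 := by
    unfold kk hH; ring
  have pos4 : 0 < 4 - kk h (e^2)/4 := by unfold kk; nlinarith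
  set m := 4 - kk h (e^2)/4 with hm
  have e2m : 3/4*m^2 ≤ l1*l2+l2*l3+l3*l1 := by
    have n1 := d.l1n
    have n2 := d.l2n
    have n3 := d.l3n
    -- with A = l2+l3, B = l3+l1, C = l1+l2
    nlinarith [mul_nonneg (sub_nonneg.2 b1) (sub_nonneg.2 b2), mul_nonneg (sub_nonneg.2 b2) (sub_nonneg.2 b3),
      mul_nonneg (sub_nonneg.2 b1) (sub_nonneg.2 b3), mul_nonneg n1 (sub_nonneg.2 b1), mul_nonneg n2 (sub_nonneg.2 b2),
      mul_nonneg n3 (sub_nonneg.2 b3)]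
  have hne : (1 - kk h (e^2)/(hH h (e^2))^2*e^2)*(hH h (e^2))^2 = (4*h^2)*m := by
    have : (1 - kk h (e^2)/(hH h (e^2))^2*e^2)*(hH h (e^2))^2 = (hH h (e^2))^2 - kk h (e^2)*e^2 := by
      field_simp
    rw [this, ← mid]; ring
  have f1 : (hH h (e^2))^2*(3/4*m^2) ≤ ((4*h^2)*m)*D2 := by
    rw [← hne, he2] at *
    have := mul_le_mul_of_nonneg_left e2m (sq_nonneg (hH h (e^2)))
    linarith
  have f2 : (hH h (e^2))^2*(3/4*m) ≤ (4*h^2)*D2 := by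
    have : m*((hH h (e^2))^2*(3/4*m)) ≤ m*((4*h^2)*D2) := by linarith
    exact le_of_mul_le_mul_left this pos4
  have g : 105139/1000 ≤ (hH h (e^2))^2*(4*m) := by
    rw [hm]; unfold hH kk
    have : e^2 < (2-h)^2 := by nlinarith
    obtain ⟨x, hx⟩ : ∃ x, h = 1 + x := ⟨h-1, by ring⟩
    subst hx
    obtain ⟨F, hF⟩ : ∃ F, e^2 = 53/100 + F := ⟨e^2-53/100, by ring⟩
    rw [hF] at this ⊢
    have x0 : 0 ≤ x := by linarith
    have x1 : x ≤ 1/4 := by linarith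
    have F0 : 0 ≤ F := by linarith
    have F1 : F ≤ 47/100 := by nlinarith
    nlinarith [mul_nonneg x0 F0, mul_nonneg x0 x0, mul_nonneg F0 F0, mul_nonneg (mul_nonneg x0 x0) x0,
      mul_nonneg (mul_nonneg x0 x0) F0, mul_nonneg (mul_nonneg x0 F0) F0, mul_nonneg (mul_nonneg F0 F0) F0,
      mul_nonneg x0 (by linarith : 0 ≤ 1/4 - x), mul_nonneg F0 (by linarith : 0 ≤ 47/100 - F)]
  nlinarith

end

end Cone58
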