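import Mathlib
import Pool.Agent.Cone58.Ten

namespace Cone58

noncomputable section

/-- data of the case in which the quadratic form `Q` is used. -/
structure XDat (mu s1 s2 s3 l1 l2 l3 : ℝ) : Prop where
  m1 : 1 ≤ mu
  s1n : 0 ≤ s1
  s2n : 0 ≤ s2
  s3n : 0 ≤ s3
  ss : s1 + s2 + s3 = 1
  l1n : 0 ≤ l1
  l2n : 0 ≤ l2
  l3n : 0 ≤ l3
  e2 : 0 < l1*l2+l2*l3+l3*l1
  a1 : mu*(1-s1^2) ≤ l2+l3
  a2 : mu*(1-s2^2) ≤ l3+l1
  a3 : mu*(1-s3^2) ≤ l1+l2
  b1 : mu*(1-(1-s1)^2) ≤ l2+l3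
  b2 : mu*(1-(1-s2)^2) ≤ l3+l1
  b3 : mu*(1-(1-s3)^2) ≤ l1+l2
  c1 : 19/12-mu+mu*s1*(1-s1) ≤ l2+l3
  c2 : 19/12-mu+mu*s2*(1-s2) ≤ l3+l1
  c3 : 19/12-mu+mu*s3*(1-s3) ≤ l1+l2

variable {mu s1 s2 s3 l1 l2 l3 : ℝ}

lemma XDat.rot (d : XDat mu s1 s2 s3 l1 l2 l3) : XDat mu s2 s3 s1 l2 l3 l1 where
  m1 := d.m1
  s1n := d.s2n
  s2n := d.s3n
  s3n := d.s1n
  ss := by linarith [d.ss]
  l1n := d.l2n
  l2n := d.l3n
  l3n := d.l1n
  e2 := by linarith [d.e2]
  a1 := d.a2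
  a2 := d.a3
  a3 := d.a1
  b1 := d.b2
  b2 := d.b3
  b3 := d.b1
  c1 := d.c2
  c2 := d.c3
  c3 := d.c1

lemma XDat.swap (d : XDat mu s1 s2 s3 l1 l2 l3) : XDat mu s2 s1 s3 l2 l1 l3 where
  m1 := d.m1
  s1n := d.s2n
  s2n := d.s1n
  s3n := d.s3n
  ss := by linarith [d.ss]
  l1n := d.l2n
  l2n := d.l1n
  l3n := d.l3n
  e2 := by linarith [d.e2]
  a1 := by linarith [d.a2]
  a2 := by linarith [d.a1]
  a3 := by linarith [d.a3]
  b1 := by linarith [d.b2]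
  b2 := by linarith [d.b1]
  b3 := by linarith [d.b3]
  c1 := by linarith [d.c2]
  c2 := by linarith [d.c1]
  c3 := by linarith [d.c3]

lemma XDat.low (d : XDat mu s1 s2 s3 l1 l2 l3) {M1 M2 M3 : ℝ} (h1 : M1 ≤ l2+l3) (h2 : M2 ≤ l3+l1)
    (h3 : M3 ≤ l1+l2) (n1 : 0 ≤ M1) (n2 : 0 ≤ M2) (n3 : 0 ≤ M3) :
    2*(M1*M2+M2*M3+M3*M1) - M1^2-M2^2-M3^2 ≤ 4*(l1*l2+l2*l3+l3*l1) := by
  apply e2_ge l1 l2 l3 M1 M2 M3 d.l1n d.l2n d.l3n n1 n2 n3 d.e2
  have p1 := mul_le_mul_of_nonneg_left h1 d.l1n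
  have p2 := mul_le_mul_of_nonneg_left h2 d.l2n
  have p3 := mul_le_mul_of_nonneg_left h3 d.l3n
  nlinarith

lemma XDat.main (d : XDat mu s1 s2 s3 l1 l2 l3) (o1 : s2 ≤ s1) (o2 : s3 ≤ s2) :
    51975/100000 ≤ mu*(l1*l2+l2*l3+l3*l1) := by
  have m1 := d.m1
  have ss := d.ss
  have s3n := d.s3n
  have s2n := d.s2n
  have s1n := d.s1n
  have mu0 : 0 ≤ mu := by linarith
  have m2 : 1 ≤ mu^2 := by nlinarith
  -- plain estimate in terms of a number `q ≥ 1/2`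
  have plain : ∀ q : ℝ, 1/2 ≤ q → mu^2*q ≤ l1*l2+l2*l3+l3*l1 → (51975/100000 ≤ q ∨ 1013/1000 ≤ mu) →
      51975/100000 ≤ mu*(l1*l2+l2*l3+l3*l1) := by
    intro q q0 hq hor
    have e : mu*(mu^2*q) ≤ mu*(l1*l2+l2*l3+l3*l1) := mul_le_mul_of_nonneg_left hq mu0
    rcases hor with h | h
    · have : q ≤ mu*(mu^2*q) := by
        have : 1 ≤ mu*mu^2 := by nlinarith
        nlinarith
      linarith
    · have : (1013/1000)^3*(1/2) ≤ mu*(mu^2*q) := by
        have h3 : (1013/1000)^3 ≤ mu^3 := pow_le_pow_left₀ (by norm_num) h 3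
        have : (1013/1000)^3*(1/2) ≤ mu^3*q := mul_le_mul h3 q0 (by norm_num) (by positivity)
        linarith
      norm_num at this
      linarith
  -- estimate near `(1/2,1/2,0)`
  have near : mu ≤ 1013/1000 → s3 ≤ 1/10 → 35/100 ≤ s2 → s1 ≤ 65/100 →
      51975/100000 ≤ mu*(l1*l2+l2*l3+l3*l1) := by
    intro hm h3 h2 h1
    have c1 : 8/10 ≤ l2+l3 := by
      refine le_trans ?_ d.c1
      have : 2275/10000 ≤ s1*(1-s1) := by nlinarith
      nlinarith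
    have c2 : 8/10 ≤ l3+l1 := by
      refine le_trans ?_ d.c2
      have : 2275/10000 ≤ s2*(1-s2) := by nlinarith
      nlinarith
    have c3 : 99/100 ≤ l1+l2 := by
      refine le_trans ?_ d.a3
      have : 99/100 ≤ 1-s3^2 := by nlinarith
      nlinarith
    have := d.low c1 c2 c3 (by norm_num) (by norm_num) (by norm_num)
    nlinarith [d.e2]
  rcases le_total s1 (1/2) with h | h
  · -- all σ ≤ 1/2
    have n1 : 0 ≤ mu*(1-s1^2) := mul_nonneg mu0 (by nlinarith)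
    have n2 : 0 ≤ mu*(1-s2^2) := mul_nonneg mu0 (by nlinarith)
    have n3 : 0 ≤ mu*(1-s3^2) := mul_nonneg mu0 (by nlinarith)
    have L := d.low d.a1 d.a2 d.a3 n1 n2 n3
    have id : 2*(mu*(1-s1^2)*(mu*(1-s2^2))+mu*(1-s2^2)*(mu*(1-s3^2))+mu*(1-s3^2)*(mu*(1-s1^2)))
      - (mu*(1-s1^2))^2-(mu*(1-s2^2))^2-(mu*(1-s3^2))^2 = 4*(mu^2*(2*(1-s1)*(1-s2)*(1-s3))) := by
      have : s3 = 1-s1-s2 := by linarith
      subst this; ring
    rw [id] at L
    have e3 : 0 ≤ s1*s2*s3 := by positivity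
    have pr : 1/2+2*(s1*s2*s3) ≤ 2*(1-s1)*(1-s2)*(1-s3) := by
      have a : 0 ≤ (1-2*s1)*(1-2*s2)*(1-2*s3) := by
        apply mul_nonneg (mul_nonneg _ _) _ <;> linarith
      have : s3 = 1-s1-s2 := by linarith
      subst this
      nlinarith
    rcases le_total (1013/1000) mu with hm | hm
    · exact plain (2*(1-s1)*(1-s2)*(1-s3)) (by linarith) (by linarith) (Or.inr hm)
    rcases le_total s3 (1/10) with h3 | h3
    · exact near hm h3 (by linarith) (by linarith)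
    · refine plain (2*(1-s1)*(1-s2)*(1-s3)) (by linarith) (by linarith) (Or.inl ?_)
      have p1 : 0 ≤ (1/2-s1)*(1/2-s2) := mul_nonneg (by linarith) (by linarith)
      have p2 : 1/2*(1/2-s3) ≤ s1*s2 := by nlinarith
      have p3 : s3*(1/2*(1/2-s3)) ≤ s3*(s1*s2) := mul_le_mul_of_nonneg_left p2 s3n
      have p4 : 0 ≤ (s3-1/10)*(4/10-s3) := mul_nonneg (by linarith) (by linarith)
      have : 2/100 ≤ s1*s2*s3 := by nlinarith
      linarith
  · -- σ₁ ≥ 1/2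
    have n1 : 0 ≤ mu*(1-(1-s1)^2) := mul_nonneg mu0 (by nlinarith)
    have n2 : 0 ≤ mu*(1-s2^2) := mul_nonneg mu0 (by nlinarith)
    have n3 : 0 ≤ mu*(1-s3^2) := mul_nonneg mu0 (by nlinarith)
    have L := d.low d.b1 d.a2 d.a3 n1 n2 n3
    have id : 2*(mu*(1-(1-s1)^2)*(mu*(1-s2^2))+mu*(1-s2^2)*(mu*(1-s3^2))+mu*(1-s3^2)*(mu*(1-(1-s1)^2)))
      - (mu*(1-(1-s1)^2))^2-(mu*(1-s2^2))^2-(mu*(1-s3^2))^2
        = 4*(mu^2*(3/4-(1-s1)^2+s2*s3)) := by
      have : s3 = 1-s1-s2 := by linarith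
      subst this; ring
    rw [id] at L
    have e3 : 0 ≤ s2*s3 := by positivity
    have pr : (1-s1)^2 ≤ 1/4 := by nlinarith
    rcases le_total (1013/1000) mu with hm | hm
    · exact plain (3/4-(1-s1)^2+s2*s3) (by linarith) (by linarith) (Or.inr hm)
    rcases le_total s3 (1/10) with h3 | h3
    · rcases le_total (1-s1) (47/100) with hr | hr
      · refine plain (3/4-(1-s1)^2+s2*s3) (by linarith) (by linarith) (Or.inl ?_)
        have : (1-s1)^2 ≤ (47/100)^2 := by nlinarith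
        linarith
      · exact near hm h3 (by linarith) (by linarith)
    · refine plain (3/4-(1-s1)^2+s2*s3) (by linarith) (by linarith) (Or.inl ?_)
      have : s3 = 1-s1-s2 := by linarith
      nlinarith [mul_nonneg (by linarith : 0 ≤ s3-1/10) (by linarith : 0 ≤ s2-1/10)]

theorem XDat.bound (d : XDat mu s1 s2 s3 l1 l2 l3) :
    51975/100000 ≤ mu*(l1*l2+l2*l3+l3*l1) := by
  rcases le_total s2 s1 with h12 | h12 <;> rcases le_total s3 s2 with h23 | h23 <;>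
    rcases le_total s3 s1 with h13 | h13
  · exact d.main h12 h23
  · exact d.main h12 h23
  · have := d.rot.rot.swap.main (by linarith) (by linarith); linarith
  · have := d.rot.rot.main (by linarith) (by linarith); linarith
  · have := d.swap.main (by linarith) (by linarith); linarith
  · have := d.rot.main (by linarith) (by linarith); linarith
  · have := d.rot.main (by linarith) (by linarith); linarith
  · have := d.rot.swap.main (by linarith) (by linarith); linarith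

end

end Cone58
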