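import Mathlib

namespace Cone58

noncomputable section

/-- binary quadratic form. -/
def Fq (al be ga : ℝ) (a b : ℤ) : ℝ := al*a^2+2*be*a*b+ga*b^2

def Bq (al be ga : ℝ) (a b a' b' : ℤ) : ℝ := al*a*a'+be*(a*b'+b*a')+ga*b*b'

lemma Fq_bound_a (al be ga : ℝ) (a b : ℤ) : (al*ga-be^2)*(a:ℝ)^2 ≤ ga*Fq al be ga a b := by
  have : ga*Fq al be ga a b - (al*ga-be^2)*(a:ℝ)^2 = (ga*b+be*a)^2 := by unfold Fq; ring
  nlinarith [sq_nonneg (ga*b+be*a)]

lemma Fq_bound_b (al be ga : ℝ) (a b : ℤ) : (al*ga-be^2)*(b:ℝ)^2 ≤ al*Fq al be ga a b := by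
  have : al*Fq al be ga a b - (al*ga-be^2)*(b:ℝ)^2 = (al*a+be*b)^2 := by unfold Fq; ring
  nlinarith [sq_nonneg (al*a+be*b)]

lemma Fq_nonneg {al be ga : ℝ} (h : be^2 < al*ga) (hal : 0 < al) (a b : ℤ) : 0 ≤ Fq al be ga a b := by
  have h1 := Fq_bound_b al be ga a b
  have : 0 ≤ (al*ga-be^2)*(b:ℝ)^2 := mul_nonneg (by linarith) (sq_nonneg _)
  exact nonneg_of_mul_nonneg_right (le_trans this h1) hal

lemma int_box {K : ℝ} {a : ℤ} (h : (a:ℝ)^2 ≤ K) : a ∈ Set.Icc (-(⌈K⌉₊:ℤ)) (⌈K⌉₊:ℤ) := by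
  have h1 : K ≤ ⌈K⌉₊ := Nat.le_ceil K
  have h2 : ((a^2 : ℤ):ℝ) ≤ ((⌈K⌉₊:ℤ):ℝ) := by
    push_cast; linarith
  have h3 : a^2 ≤ (⌈K⌉₊:ℤ) := by exact_mod_cast h2
  constructor
  · nlinarith
  · nlinarith

lemma reduce_form {al be ga : ℝ} (h : be^2 < al*ga) (hal : 0 < al) :
    ∃ a b a' b' : ℤ, (a*b'-b*a')^2 = 1 ∧ Bq al be ga a b a' b' ≤ 0 ∧
      0 ≤ Fq al be ga a b + Bq al be ga a b a' b' ∧ 0 ≤ Fq al be ga a' b' + Bq al be ga a b a' b' := by
  set S : ℤ × ℤ × ℤ × ℤ → ℝ := fun p => Fq al be ga p.1 p.2.1 + Fq al be ga p.2.2.1 p.2.2.2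
    + Fq al be ga (p.1+p.2.2.1) (p.2.1+p.2.2.2) with hS
  set T : Set (ℤ × ℤ × ℤ × ℤ) := {p | (p.1*p.2.2.2-p.2.1*p.2.2.1)^2 = 1 ∧ S p ≤ S (1,0,0,1)} with hT
  have dpos : 0 < al*ga-be^2 := by linarith
  have hga : 0 < ga := by
    by_contra hh
    push Not at hh
    nlinarith [sq_nonneg be, mul_nonneg hal.le (neg_nonneg.2 hh)]
  have nn := Fq_nonneg h hal
  have fin : T.Finite := by
    set C := S (1,0,0,1)
    set K := (al+ga)*C/(al*ga-be^2)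
    have bd : ∀ a b : ℤ, Fq al be ga a b ≤ C → (a:ℝ)^2 ≤ K ∧ (b:ℝ)^2 ≤ K := by
      intro a b hab
      have h1 := Fq_bound_a al be ga a b
      have h2 := Fq_bound_b al be ga a b
      have h3 := nn a b
      constructor
      · rw [le_div_iff₀ dpos]
        have : 0 ≤ al*C := mul_nonneg hal.le (le_trans h3 hab)
        nlinarith
      · rw [le_div_iff₀ dpos]
        have : 0 ≤ ga*C := mul_nonneg hga.le (le_trans h3 hab)
        nlinarith
    apply Set.Finite.subset ((Set.finite_Icc (-(⌈K⌉₊:ℤ)) (⌈K⌉₊:ℤ)).prod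
      ((Set.finite_Icc (-(⌈K⌉₊:ℤ)) (⌈K⌉₊:ℤ)).prod ((Set.finite_Icc (-(⌈K⌉₊:ℤ)) (⌈K⌉₊:ℤ)).prod
        (Set.finite_Icc (-(⌈K⌉₊:ℤ)) (⌈K⌉₊:ℤ)))))
    rintro ⟨a, b, a', b'⟩ ⟨_, hp⟩
    have n1 := nn a b
    have n2 := nn a' b'
    have n3 := nn (a+a') (b+b')
    simp only [hS] at hp
    have k1 := bd a b (by simp only [C, hS] at *; linarith)
    have k2 := bd a' b' (by simp only [C, hS] at *; linarith)
    exact ⟨int_box k1.1, int_box k1.2, int_box k2.1, int_box k2.2⟩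
  have ne : T.Nonempty := ⟨(1,0,0,1), by norm_num, le_rfl⟩
  obtain ⟨⟨a, b, a', b'⟩, ⟨hd, hle⟩, hmin⟩ := Set.exists_min_image T S fin ne
  refine ⟨a, b, a', b', hd, ?_, ?_, ?_⟩
  · by_contra hc
    push Not at hc
    have e1 : S (a, b, -a', -b') = S (a, b, a', b') - 4*Bq al be ga a b a' b' := by
      simp only [hS, Fq, Bq]; push_cast; ring
    have m : (a, b, -a', -b') ∈ T := by
      refine ⟨?_, ?_⟩
      · simp only at hd ⊢; linarith
      · linarith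
    have := hmin _ m
    linarith
  · by_contra hc
    push Not at hc
    -- p, r = -(p+q): replace by (p, p+q)
    have e1 : S (a, b, a+a', b+b') = S (a, b, a', b') + 4*(Fq al be ga a b + Bq al be ga a b a' b') := by
      simp only [hS, Fq, Bq]; push_cast; ring
    have m : (a, b, a+a', b+b') ∈ T := by
      refine ⟨?_, ?_⟩
      · simp only at hd ⊢; rw [← hd]; ring
      · linarith
    have := hmin _ m
    linarith
  · by_contra hc
    push Not at hc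
    have e1 : S (a+a', b+b', a', b') = S (a, b, a', b') + 4*(Fq al be ga a' b' + Bq al be ga a b a' b') := by
      simp only [hS, Fq, Bq]; push_cast; ring
    have m : (a+a', b+b', a', b') ∈ T := by
      refine ⟨?_, ?_⟩
      · simp only at hd ⊢; rw [← hd]; ring
      · linarith
    have := hmin _ m
    linarith

/-- the reduction lemma (R), in numbers. -/
lemma reduce_lift {al be ga : ℝ} (h : be^2 < al*ga) (hal : 0 < al) (lp lq : ℝ) :
    ∃ a b a' b' k k' : ℤ, (a*b'-b*a')^2 = 1 ∧ Bq al be ga a b a' b' ≤ 0 ∧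
      0 ≤ Fq al be ga a b + Bq al be ga a b a' b' ∧ 0 ≤ Fq al be ga a' b' + Bq al be ga a b a' b' ∧
      0 ≤ a*lp+b*lq+k ∧ 0 ≤ a'*lp+b'*lq+k' ∧ (a*lp+b*lq+k)+(a'*lp+b'*lq+k') ≤ 1 := by
  obtain ⟨a, b, a', b', hd, h1, h2, h3⟩ := reduce_form h hal
  set u := a*lp+b*lq with hu
  set v := a'*lp+b'*lq with hv
  have f1 := Int.floor_le u
  have f2 := Int.lt_floor_add_one u
  have g1 := Int.floor_le v
  have g2 := Int.lt_floor_add_one v
  rcases le_total ((u-⌊u⌋)+(v-⌊v⌋)) 1 with hc | hc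
  · refine ⟨a, b, a', b', -⌊u⌋, -⌊v⌋, hd, h1, h2, h3, ?_, ?_, ?_⟩ <;> push_cast <;> linarith
  · refine ⟨-a, -b, -a', -b', 1+⌊u⌋, 1+⌊v⌋, ?_, ?_, ?_, ?_, ?_, ?_, ?_⟩
    · rw [← hd]; ring
    · refine le_trans (le_of_eq ?_) h1; unfold Bq; push_cast; ring
    · refine le_trans h2 (le_of_eq ?_); unfold Bq Fq; push_cast; ring
    · refine le_trans h3 (le_of_eq ?_); unfold Bq Fq; push_cast; ring
    · push_cast; linarith
    · push_cast; linarith
    · push_cast; linarith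

end

end Cone58
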