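import Mathlib
import Pool.Agent.Cone58.Red
import Pool.Agent.Cone58.Eleven

namespace Cone58

noncomputable section

variable {M : Type*} [AddCommGroup M] (x y t : M →+ ℝ)

/-- determinant -/
def D3 (u v w : M) : ℝ :=
  x u*(y v*t w - t v*y w) - y u*(x v*t w - t v*x w) + t u*(x v*y w - y v*x w)

lemma gcd2 (m n : ℤ) : ∃ g a b u v : ℤ, m = g*a ∧ n = g*b ∧ u*a+v*b = 1 := by
  rcases eq_or_ne (Int.gcd m n) 0 with h | h
  · rw [Int.gcd_eq_zero_iff] at h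
    exact ⟨0, 1, 0, 1, 0, by simp [h.1], by simp [h.2], by norm_num⟩
  · obtain ⟨m', n', h1, h2, h3⟩ := Int.exists_gcd_one (Nat.pos_of_ne_zero h)
    have := Int.gcd_eq_gcd_ab m' n'
    rw [h1] at this
    exact ⟨Int.gcd m n, m', n', Int.gcdA m' n', Int.gcdB m' n', by rw [mul_comm]; exact h2,
      by rw [mul_comm]; exact h3, by push_cast at this; linarith⟩

lemma extend (b1 b2 b3 : M) (n1 n2 n3 : ℤ) :
    ∃ g : ℤ, ∃ c p q : M, n1•b1+n2•b2+n3•b3 = g•c ∧ D3 x y t c p q = D3 x y t b1 b2 b3 := by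
  obtain ⟨g, a, b, u, v, h2, h3, huv⟩ := gcd2 n2 n3
  obtain ⟨g', a', b', u', v', h4, h5, huv'⟩ := gcd2 n1 g
  refine ⟨g', a'•b1+b'•(a•b2+b•b3), (-v')•b1+u'•(a•b2+b•b3), (-v)•b2+u•b3, ?_, ?_⟩
  · rw [h2, h3, h4, h5]
    module
  · have e1 : (u:ℝ)*a+v*b = 1 := by exact_mod_cast huv
    have e2 : (u':ℝ)*a'+v'*b' = 1 := by exact_mod_cast huv'
    simp only [D3, map_add, map_zsmul, zsmul_eq_mul, map_neg, neg_smul]
    push_cast
    have key : (u':ℝ)*a'+v'*b' = 1 → (u:ℝ)*a+v*b = 1 → 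
      D3 x y t b1 b2 b3 * (((u':ℝ)*a'+v'*b')*((u:ℝ)*a+v*b) - 1) = 0 := by
      intro h h'; rw [h, h']; ring
    have k := key e2 e1
    unfold D3 at k
    linear_combination k

end

end Cone58
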