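import Mathlib
import Pool.Agent.Cone58.Lat

namespace Cone58

noncomputable section

lemma mkDat {h nu X Y x1 y1 s1 x2 y2 s2 : ℝ} 
    (s1n : 0 ≤ s1) (s2n : 0 ≤ s2) (s3n : s1+s2 ≤ 1)
    (p1 q1 p2 q2 Y1 Y2 : ℝ) (hp1 : p1 = x1-s1*X) (hq1 : q1 = y1-s1*Y) (hp2 : p2 = x2-s2*X)
    (hq2 : q2 = y2-s2*Y) (hY1 : Y1 = p1*X+q1*Y) (hY2 : Y2 = p2*X+q2*Y)
    (B12 : p1*p2+q1*q2-nu*Y1*Y2 ≤ 0)
    (B13 : 0 ≤ (p1^2+q1^2-nu*Y1^2) + (p1*p2+q1*q2-nu*Y1*Y2))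
    (B23 : 0 ≤ (p2^2+q2^2-nu*Y2^2) + (p1*p2+q1*q2-nu*Y1*Y2))
    (n1 : (2-h*s1)^2 ≤ x1^2+y1^2) (m1 : (2-h*(1-s1))^2 ≤ (X-x1)^2+(Y-y1)^2)
    (n2 : (2-h*s2)^2 ≤ x2^2+y2^2) (m2 : (2-h*(1-s2))^2 ≤ (X-x2)^2+(Y-y2)^2)
    (n3 : (2-h*(1-s1-s2))^2 ≤ (X-x1-x2)^2+(Y-y1-y2)^2) (m3 : (2-h*(s1+s2))^2 ≤ (x1+x2)^2+(y1+y2)^2) :
    Dat h nu (X^2+Y^2) ((p1*q2-q1*p2)^2) s1 s2 (1-s1-s2) Y1 Y2 (-Y1-Y2)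
      ((p2^2+q2^2-nu*Y2^2) + (p1*p2+q1*q2-nu*Y1*Y2)) ((p1^2+q1^2-nu*Y1^2) + (p1*p2+q1*q2-nu*Y1*Y2))
      (-(p1*p2+q1*q2-nu*Y1*Y2)) where
  s1n := s1n
  s2n := s2n
  s3n := by linarith
  ss := by ring
  yy := by ring
  l1n := B23
  l2n := B13
  l3n := by linarith
  e2 := by subst hY1 hY2; ring
  pl := by subst hY1 hY2; ring
  a1 := by
    have : (p1^2+q1^2-nu*Y1^2) + (p1*p2+q1*q2-nu*Y1*Y2) + -(p1*p2+q1*q2-nu*Y1*Y2) + nu*Y1^2 = p1^2+q1^2 := by ring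
    rw [this]
    have e : x1^2+y1^2 = p1^2+q1^2+2*s1*Y1+s1^2*(X^2+Y^2) := by rw [hY1, hp1, hq1]; ring
    rw [e] at n1; linarith
  a2 := by
    have : -(p1*p2+q1*q2-nu*Y1*Y2) + ((p2^2+q2^2-nu*Y2^2) + (p1*p2+q1*q2-nu*Y1*Y2)) + nu*Y2^2 = p2^2+q2^2 := by ring
    rw [this]
    have e : x2^2+y2^2 = p2^2+q2^2+2*s2*Y2+s2^2*(X^2+Y^2) := by rw [hY2, hp2, hq2]; ring
    rw [e] at n2; linarith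
  a3 := by
    have : ((p2^2+q2^2-nu*Y2^2) + (p1*p2+q1*q2-nu*Y1*Y2)) + ((p1^2+q1^2-nu*Y1^2) + (p1*p2+q1*q2-nu*Y1*Y2))
      + nu*(-Y1-Y2)^2 = (p1+p2)^2+(q1+q2)^2 := by ring
    rw [this]
    have e : (X-x1-x2)^2+(Y-y1-y2)^2 = (p1+p2)^2+(q1+q2)^2+2*(1-s1-s2)*(-Y1-Y2)+(1-s1-s2)^2*(X^2+Y^2) := by
      rw [hY1, hY2, hp1, hq1, hp2, hq2]; ring
    rw [e] at n3; linarith
  b1 := by
    have : (p1^2+q1^2-nu*Y1^2) + (p1*p2+q1*q2-nu*Y1*Y2) + -(p1*p2+q1*q2-nu*Y1*Y2) + nu*Y1^2 = p1^2+q1^2 := by ring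
    rw [this]
    have e : (X-x1)^2+(Y-y1)^2 = p1^2+q1^2-2*(1-s1)*Y1+(1-s1)^2*(X^2+Y^2) := by rw [hY1, hp1, hq1]; ring
    rw [e] at m1; linarith
  b2 := by
    have : -(p1*p2+q1*q2-nu*Y1*Y2) + ((p2^2+q2^2-nu*Y2^2) + (p1*p2+q1*q2-nu*Y1*Y2)) + nu*Y2^2 = p2^2+q2^2 := by ring
    rw [this]
    have e : (X-x2)^2+(Y-y2)^2 = p2^2+q2^2-2*(1-s2)*Y2+(1-s2)^2*(X^2+Y^2) := by rw [hY2, hp2, hq2]; ring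
    rw [e] at m2; linarith
  b3 := by
    have : ((p2^2+q2^2-nu*Y2^2) + (p1*p2+q1*q2-nu*Y1*Y2)) + ((p1^2+q1^2-nu*Y1^2) + (p1*p2+q1*q2-nu*Y1*Y2))
      + nu*(-Y1-Y2)^2 = (p1+p2)^2+(q1+q2)^2 := by ring
    rw [this]
    have e : (x1+x2)^2+(y1+y2)^2 = (p1+p2)^2+(q1+q2)^2-2*(s1+s2)*(-Y1-Y2)+(s1+s2)^2*(X^2+Y^2) := by
      rw [hY1, hY2, hp1, hq1, hp2, hq2]; ring
    rw [e] at m3; linarith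
  c1 := by
    have : (p1^2+q1^2-nu*Y1^2) + (p1*p2+q1*q2-nu*Y1*Y2) + -(p1*p2+q1*q2-nu*Y1*Y2) + nu*Y1^2 = p1^2+q1^2 := by ring
    rw [this, hY1]
    nlinarith [sq_nonneg (p1*Y-q1*X)]
  c2 := by
    have : -(p1*p2+q1*q2-nu*Y1*Y2) + ((p2^2+q2^2-nu*Y2^2) + (p1*p2+q1*q2-nu*Y1*Y2)) + nu*Y2^2 = p2^2+q2^2 := by ring
    rw [this, hY2]
    nlinarith [sq_nonneg (p2*Y-q2*X)]
  c3 := by
    have : ((p2^2+q2^2-nu*Y2^2) + (p1*p2+q1*q2-nu*Y1*Y2)) + ((p1^2+q1^2-nu*Y1^2) + (p1*p2+q1*q2-nu*Y1*Y2))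
      + nu*(-Y1-Y2)^2 = (p1+p2)^2+(q1+q2)^2 := by ring
    rw [this, hY1, hY2]
    nlinarith [sq_nonneg ((p1+p2)*Y-(q1+q2)*X)]

variable {M : Type*} [AddCommGroup M] (x y t : M →+ ℝ)

/-- `N(v) ≥ 2` -/
def big (v : M) : Prop := 2 ≤ √((x v)^2+(y v)^2) + |t v|

/-- admissibility of a vector -/
def adm (v : M) : Prop := 1 ≤ |t v| ∨ big x y t v

lemma sqrt_sub_le (a b c d : ℝ) : √((a-c)^2+(b-d)^2) ≤ √(a^2+b^2)+√(c^2+d^2) := by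
  have n1 := Real.sqrt_nonneg (a^2+b^2)
  have n2 := Real.sqrt_nonneg (c^2+d^2)
  rw [Real.sqrt_le_left (by positivity)]
  have s1 := Real.sq_sqrt (by positivity : 0 ≤ a^2+b^2)
  have s2 := Real.sq_sqrt (by positivity : 0 ≤ c^2+d^2)
  have cs : |a*c+b*d| ≤ √(a^2+b^2)*√(c^2+d^2) := by
    rw [← Real.sqrt_mul (by positivity)]
    apply Real.abs_le_sqrt
    nlinarith [sq_nonneg (a*d-b*c)]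
  have := (abs_le.mp cs).1
  nlinarith

lemma big_sq {v : M} (h : big x y t v) (h0 : 0 ≤ t v) (h2 : t v ≤ 2) :
    (2 - t v)^2 ≤ (x v)^2+(y v)^2 := by
  unfold big at h
  rw [abs_of_nonneg h0] at h
  have h3 : 2 - t v ≤ √((x v)^2+(y v)^2) := by linarith
  have h4 := pow_le_pow_left₀ (by linarith : 0 ≤ 2 - t v) h3 2
  rwa [Real.sq_sqrt (by positivity)] at h4

end

end Cone58
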