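import Mathlib
import Pool.Agent.Cone58.Mk

namespace Cone58

noncomputable section

variable {M : Type*} [AddCommGroup M] (x y t : M →+ ℝ)

lemma big_neg {v : M} : big x y t (-v) ↔ big x y t v := by
  unfold big; simp

lemma adm_neg {v : M} : adm x y t (-v) ↔ adm x y t v := by
  unfold adm big; simp

lemma uniq_aux (hadm : ∀ v, v ≠ 0 → adm x y t v) {c w : M} (hc : ¬ big x y t c) (tc : 1 ≤ t c)
    (wc : w ≠ c) (hw : ¬ big x y t w) (tw : 1 ≤ t w) : False := by
  have h := hadm (c-w) (sub_ne_zero.mpr (Ne.symm wc))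
  unfold big at hc hw
  push Not at hc hw
  rw [abs_of_nonneg (by linarith)] at hc hw
  have n1 := Real.sqrt_nonneg ((x c)^2+(y c)^2)
  have n2 := Real.sqrt_nonneg ((x w)^2+(y w)^2)
  have tri := sqrt_sub_le (x c) (y c) (x w) (y w)
  have ab : |t c - t w| < 1 := by rw [abs_lt]; constructor <;> linarith
  rcases h with h | h
  · rw [map_sub] at h; linarith
  · unfold big at h
    rw [map_sub, map_sub, map_sub] at h
    rcases abs_cases (t c - t w) with ⟨h1, _⟩ | ⟨h1, _⟩ <;> linarith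

lemma uniq (hadm : ∀ v, v ≠ 0 → adm x y t v) {c w : M} (hc : ¬ big x y t c) (tc : 1 ≤ t c)
    (w0 : w ≠ 0) (wc : w ≠ c) (wc' : w ≠ -c) : big x y t w := by
  by_contra hw
  have h := hadm w w0
  rcases h with h | h
  · rcases le_abs.mp h with h1 | h1
    · exact uniq_aux x y t hadm hc tc wc hw h1
    · have e : -w ≠ c := by
        intro e; apply wc'; rw [← e, neg_neg]
      exact uniq_aux x y t hadm hc tc e (by rw [big_neg]; exact hw) (by rw [map_neg]; exact h1)
  · exact hw h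

lemma D3_ne {c w w' : M} (h : D3 x y t c w w' ≠ 0) (k : ℤ) : w ≠ k•c := by
  rintro rfl
  apply h
  simp only [D3, map_zsmul, zsmul_eq_mul]
  ring

lemma big_both {c w w' : M} (hbig : ∀ w, w ≠ 0 → w ≠ c → w ≠ -c → big x y t w)
    (h : D3 x y t c w w' ≠ 0) : big x y t w ∧ big x y t (c-w) := by
  have k0 := D3_ne x y t h 0
  have k1 := D3_ne x y t h 1
  have k2 := D3_ne x y t h 2
  have km := D3_ne x y t h (-1)
  rw [zero_smul] at k0
  rw [one_smul] at k1
  rw [neg_one_smul] at km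
  refine ⟨hbig w k0 k1 km, hbig (c-w) ?_ ?_ ?_⟩
  · intro e; apply k1; exact (sub_eq_zero.mp e).symm
  · intro e; apply k0; simpa using e
  · intro e; apply k2
    rw [two_smul]
    have : w = c - (c-w) := by abel
    rw [e] at this
    rw [this]; abel

lemma hs_bd {h s : ℝ} (h0 : 0 < h) (s0 : 0 ≤ s) (s1 : s ≤ 1) : 0 ≤ h*s ∧ h*s ≤ h := by
  constructor
  · positivity
  · nlinarith

theorem caseY {c p q : M} (hbig : ∀ w, w ≠ 0 → w ≠ c → w ≠ -c → big x y t w)
    (h1 : 1 ≤ t c) (h2 : t c < 5/4) (hc : ¬ big x y t c) (hD : D3 x y t c p q ≠ 0) :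
    G2 e0 ≤ (D3 x y t c p q)^2 := by
  obtain ⟨h, hh⟩ : ∃ h, h = t c := ⟨_, rfl⟩
  obtain ⟨X, hX⟩ : ∃ X, X = x c := ⟨_, rfl⟩
  obtain ⟨Y, hY⟩ : ∃ Y, Y = y c := ⟨_, rfl⟩
  rw [← hh] at h1 h2
  have hpos : 0 < h := by linarith
  have hne : h ≠ 0 := hpos.ne'
  have Elt : √(X^2+Y^2) < 2-h := by
    unfold big at hc
    rw [← hX, ← hY, ← hh, abs_of_nonneg (by linarith)] at hc
    linarith
  have gp := G2_e0_pos
  have gu := G2_e0_le
  -- the multiplier
  have main : ∀ nu : ℝ, 0 ≤ nu → nu*(X^2+Y^2) < 1 → 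
      (∀ D2 s1 s2 s3 y1 y2 y3 l1 l2 l3 : ℝ, 0 < D2 → Dat h nu (X^2+Y^2) D2 s1 s2 s3 y1 y2 y3 l1 l2 l3 →
        G2 e0 ≤ h^2*D2) → G2 e0 ≤ (D3 x y t c p q)^2 := by
    intro nu n0 nE hF
    obtain ⟨s, hs⟩ : ∃ s : M → ℝ, ∀ v, s v = t v/h := ⟨fun v => t v/h, fun _ => rfl⟩
    obtain ⟨px, hpx⟩ : ∃ px : M → ℝ, ∀ v, px v = x v - s v*X := ⟨fun v => x v - s v*X, fun _ => rfl⟩
    obtain ⟨py, hpy⟩ : ∃ py : M → ℝ, ∀ v, py v = y v - s v*Y := ⟨fun v => y v - s v*Y, fun _ => rfl⟩
    have scomb : ∀ a b k : ℤ, s (a•p+b•q+k•c) = a*s p+b*s q+k := by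
      intro a b k
      rw [hs, hs, hs]
      simp only [map_add, map_zsmul, zsmul_eq_mul, ← hh]
      field_simp
    have pxcomb : ∀ a b k : ℤ, px (a•p+b•q+k•c) = a*px p+b*px q := by
      intro a b k
      rw [hpx, hpx, hpx, scomb]
      simp only [map_add, map_zsmul, zsmul_eq_mul, ← hX]
      ring
    have pycomb : ∀ a b k : ℤ, py (a•p+b•q+k•c) = a*py p+b*py q := by
      intro a b k
      rw [hpy, hpy, hpy, scomb]
      simp only [map_add, map_zsmul, zsmul_eq_mul, ← hY]
      ring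
    have Dform : ∀ v w : M, D3 x y t c v w = h*(px v*py w-py v*px w) := by
      intro v w
      have e1 : x v = px v + s v*X := by rw [hpx]; ring
      have e2 : y v = py v + s v*Y := by rw [hpy]; ring
      have e3 : t v = h*s v := by rw [hs]; field_simp
      have e4 : x w = px w + s w*X := by rw [hpx]; ring
      have e5 : y w = py w + s w*Y := by rw [hpy]; ring
      have e6 : t w = h*s w := by rw [hs]; field_simp
      unfold D3
      rw [← hh, ← hX, ← hY, e1, e2, e3, e4, e5, e6]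
      ring
    obtain ⟨W, hW⟩ : ∃ W : M → ℝ, ∀ v, W v = px v*X+py v*Y := ⟨fun v => px v*X+py v*Y, fun _ => rfl⟩
    have Wcomb : ∀ a b k : ℤ, W (a•p+b•q+k•c) = a*W p+b*W q := by
      intro a b k
      rw [hW, hW, hW, pxcomb, pycomb]; ring
    set al := px p^2+py p^2-nu*(W p)^2 with hal
    set be := px p*px q+py p*py q-nu*W p*W q with hbe
    set ga := px q^2+py q^2-nu*(W q)^2 with hga
    have wedge : px p*py q-py p*px q ≠ 0 := by
      intro e; apply hD; rw [Dform, e, mul_zero]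
    have disc : al*ga-be^2 = (1-nu*(X^2+Y^2))*(px p*py q-py p*px q)^2 := by
      rw [hal, hbe, hga, hW p, hW q]; ring
    have discpos : be^2 < al*ga := by
      have : 0 < (1-nu*(X^2+Y^2))*(px p*py q-py p*px q)^2 := by
        apply mul_pos (by linarith); positivity
      linarith
    have alpos : 0 < al := by
      have h1 : al = (1-nu*(X^2+Y^2))*(px p^2+py p^2) + nu*(px p*Y-py p*X)^2 := by
        rw [hal, hW p]; ring
      have h2 : 0 < px p^2+py p^2 := by
        by_contra hcon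
        push Not at hcon
        have a : px p^2 = 0 := by nlinarith [sq_nonneg (px p), sq_nonneg (py p)]
        have b : py p^2 = 0 := by nlinarith [sq_nonneg (px p), sq_nonneg (py p)]
        have a' : px p = 0 := by simpa using a
        have b' : py p = 0 := by simpa using b
        apply wedge; rw [a', b']; ring
      rw [h1]
      have : 0 < (1-nu*(X^2+Y^2))*(px p^2+py p^2) := mul_pos (by linarith) h2
      have : 0 ≤ nu*(px p*Y-py p*X)^2 := mul_nonneg n0 (sq_nonneg _)
      linarith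
    obtain ⟨a, b, a', b', k, k', hdet, hB12, hB13, hB23, hl1, hl2, hl3⟩ :=
      reduce_lift discpos alpos (s p) (s q)
    set v1 := a•p+b•q+k•c with hv1
    set v2 := a'•p+b'•q+k'•c with hv2
    have es1 : s v1 = a*s p+b*s q+k := scomb a b k
    have es2 : s v2 = a'*s p+b'*s q+k' := scomb a' b' k'
    have ep1 : px v1 = a*px p+b*px q := pxcomb a b k
    have ep2 : px v2 = a'*px p+b'*px q := pxcomb a' b' k'
    have eq1 : py v1 = a*py p+b*py q := pycomb a b k
    have eq2 : py v2 = a'*py p+b'*py q := pycomb a' b' k'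
    have eW1 : W v1 = a*W p+b*W q := Wcomb a b k
    have eW2 : W v2 = a'*W p+b'*W q := Wcomb a' b' k'
    rw [← es1] at hl1 hl3
    rw [← es2] at hl2 hl3
    have hdetR : ((a:ℝ)*b'-b*a')^2 = 1 := by exact_mod_cast hdet
    have Dsq : (D3 x y t c v1 v2)^2 = (D3 x y t c p q)^2 := by
      rw [Dform, Dform, ep1, ep2, eq1, eq2]
      linear_combination (h^2*(px p*py q-py p*px q)^2)*hdetR
    have D12 : D3 x y t c v1 v2 ≠ 0 := by
      intro e
      rw [e] at Dsq
      apply hD
      have : (D3 x y t c p q)^2 = 0 := by rw [← Dsq]; norm_num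
      simpa using this
    have D21 : D3 x y t c v2 v1 ≠ 0 := by
      have : D3 x y t c v2 v1 = -D3 x y t c v1 v2 := by unfold D3; ring
      rw [this]; exact neg_ne_zero.mpr D12
    have D31 : D3 x y t c (c-v1-v2) v1 ≠ 0 := by
      have : D3 x y t c (c-v1-v2) v1 = D3 x y t c v1 v2 := by
        unfold D3; simp only [map_sub]; ring
      rw [this]; exact D12
    obtain ⟨B1, B1'⟩ := big_both x y t hbig D12
    obtain ⟨B2, B2'⟩ := big_both x y t hbig D21
    obtain ⟨B3, B3'⟩ := big_both x y t hbig D31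
    have tv : ∀ v, t v = h*s v := by intro v; rw [hs]; field_simp
    have r1 := hs_bd hpos hl1 (by linarith : s v1 ≤ 1)
    have r2 := hs_bd hpos hl2 (by linarith : s v2 ≤ 1)
    have r3 := hs_bd hpos (by linarith : 0 ≤ s v1 + s v2) hl3
    have r3' : h*(s v1+s v2) = h*s v1+h*s v2 := by ring
    have n1 := big_sq x y t B1 (by rw [tv]; exact r1.1) (by rw [tv]; linarith [r1.2])
    have m1 := big_sq x y t B1' (by rw [map_sub, tv v1, ← hh]; linarith [r1.2])
      (by rw [map_sub, tv v1, ← hh]; linarith [r1.1])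
    have n2 := big_sq x y t B2 (by rw [tv]; exact r2.1) (by rw [tv]; linarith [r2.2])
    have m2 := big_sq x y t B2' (by rw [map_sub, tv v2, ← hh]; linarith [r2.2])
      (by rw [map_sub, tv v2, ← hh]; linarith [r2.1])
    have n3 := big_sq x y t B3 (by rw [map_sub, map_sub, tv v1, tv v2, ← hh]; linarith [r3.2])
      (by rw [map_sub, map_sub, tv v1, tv v2, ← hh]; linarith [r3.1])
    have m3 := big_sq x y t B3' (by simp only [map_sub]; rw [tv v1, tv v2]; linarith [r3.1])
      (by simp only [map_sub]; rw [tv v1, tv v2]; linarith [r3.2])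
    simp only [map_sub] at m1 m2 n3 m3
    rw [← hh, ← hX, ← hY] at m1 m2 n3 m3
    rw [tv] at n1 m1 n2 m2
    rw [tv v1, tv v2] at n3 m3
    have dat := mkDat (h := h) (nu := nu) (X := X) (Y := Y) (x1 := x v1) (y1 := y v1) (s1 := s v1)
      (x2 := x v2) (y2 := y v2) (s2 := s v2) hl1 hl2 hl3 (px v1) (py v1) (px v2) (py v2) (W v1) (W v2)
      (hpx v1) (hpy v1) (hpx v2) (hpy v2) (hW v1) (hW v2)
      (by
        refine le_trans (le_of_eq ?_) hB12
        rw [ep1, ep2, eq1, eq2, eW1, eW2, hal, hbe, hga]; unfold Bq; ring)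
      (by
        refine le_trans hB13 (le_of_eq ?_)
        rw [ep1, ep2, eq1, eq2, eW1, eW2, hal, hbe, hga]; unfold Bq Fq; ring)
      (by
        refine le_trans hB23 (le_of_eq ?_)
        rw [ep1, ep2, eq1, eq2, eW1, eW2, hal, hbe, hga]; unfold Bq Fq; ring)
      n1 (by refine le_trans (le_of_eq ?_) m1; ring) n2 (by refine le_trans (le_of_eq ?_) m2; ring)
      (by refine le_trans (le_of_eq ?_) n3; ring)
      (by refine le_trans (le_trans (le_of_eq ?_) m3) (le_of_eq ?_) <;> ring)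
    have D2pos : 0 < (px v1*py v2-py v1*px v2)^2 := by
      have : px v1*py v2-py v1*px v2 ≠ 0 := by
        intro e; apply D12; rw [Dform, e, mul_zero]
      positivity
    have fin := hF _ _ _ _ _ _ _ _ _ _ D2pos dat
    rw [← Dsq, Dform]
    linarith
  rcases le_total (X^2+Y^2) (53/100) with hE | hE
  · obtain ⟨nu, n0, n1, FI⟩ := exists_nu (h := h) (E := X^2+Y^2) h1 h2.le (by positivity) hE
    refine main nu n0 (by nlinarith [mul_le_mul n1 hE (by positivity) (by norm_num : (0:ℝ) ≤ 1/5)]) ?_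
    intro D2 s1 s2 s3 y1 y2 y3 l1 l2 l3 D0 d
    by_cases hbd : h^2*D2 ≤ 49276/10000
    · exact caseIII (Del := G2 e0) ⟨h1, h2.le, by positivity, hE, n0, n1, D0, hbd⟩ d FI
    · push Not at hbd; linarith
  · obtain ⟨e, he, hee⟩ : ∃ e : ℝ, 0 ≤ e ∧ X^2+Y^2 = e^2 :=
      ⟨√(X^2+Y^2), Real.sqrt_nonneg _, (Real.sq_sqrt (by positivity)).symm⟩
    have he1 : e < 2-h := by
      rw [hee, Real.sqrt_sq he] at Elt; exact Elt
    rw [hee] at main hE
    have Hpos : 0 < hH h (e^2) := by unfold hH; nlinarith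
    have kpos : 0 < kk h (e^2) := by unfold kk; nlinarith
    have mid : (4-kk h (e^2)/4)*(4*h^2) = (hH h (e^2))^2 - kk h (e^2)*e^2 := by
      unfold kk hH; ring
    have pos4 : 0 < 4 - kk h (e^2)/4 := by unfold kk; nlinarith
    refine main (kk h (e^2)/(hH h (e^2))^2) (by positivity) ?_ ?_
    · rw [div_mul_eq_mul_div, div_lt_one (by positivity)]
      have : 0 < (4-kk h (e^2)/4)*(4*h^2) := by positivity
      linarith
    · intro D2 s1 s2 s3 y1 y2 y3 l1 l2 l3 D0 d
      have := caseII h1 h2.le he hE he1 d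
      linarith

end

end Cone58
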