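import Mathlib
import Pool.Agent.Cone58.CaseY

namespace Cone58

noncomputable section

variable {M : Type*} [AddCommGroup M] (x y t : M →+ ℝ)

/-- the quadratic form `Q` -/
def QQ (v : M) : ℝ := 3/8*((x v)^2+(y v)^2)+3/4*(t v)^2

lemma QQ_big {v : M} (h : big x y t v) (h2 : |t v| ≤ 2) : 1+9/8*(|t v|-2/3)^2 ≤ QQ x y t v := by
  unfold big at h
  have h3 : 2 - |t v| ≤ √((x v)^2+(y v)^2) := by linarith
  have h4 := pow_le_pow_left₀ (by linarith : 0 ≤ 2 - |t v|) h3 2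
  rw [Real.sq_sqrt (by positivity)] at h4
  unfold QQ
  have := sq_abs (t v)
  nlinarith

lemma QQ_large {v : M} (h2 : 5/4 ≤ |t v|) : 1171875/1000000 ≤ QQ x y t v := by
  unfold QQ
  have := sq_abs (t v)
  nlinarith [sq_nonneg (x v), sq_nonneg (y v)]

lemma QQ_ge_one {v : M} (h : big x y t v ∨ 5/4 ≤ |t v|) : 1 ≤ QQ x y t v := by
  rcases le_total (|t v|) (5/4) with h1 | h1
  · rcases h with h | h
    · have := QQ_big x y t h (by linarith)
      nlinarith [sq_nonneg (|t v|-2/3)]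
    · have := QQ_large x y t h; linarith
  · have := QQ_large x y t h1; linarith

lemma three_abs (p q : ℝ) : 4/27 ≤ (|p|-2/3)^2+(|q|-2/3)^2+(|p+q|-2/3)^2 := by
  rcases abs_cases p with ⟨h1, g1⟩ | ⟨h1, g1⟩ <;> rcases abs_cases q with ⟨h2, g2⟩ | ⟨h2, g2⟩ <;>
    rcases abs_cases (p+q) with ⟨h3, g3⟩ | ⟨h3, g3⟩ <;> rw [h1, h2, h3]
  · nlinarith [sq_nonneg (p-4/9), sq_nonneg (q-4/9), sq_nonneg (p+q-8/9)]
  · linarith
  · nlinarith [sq_nonneg (p-8/9), sq_nonneg (-q-4/9), sq_nonneg (p+q-4/9)]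
  · nlinarith [sq_nonneg (p-4/9), sq_nonneg (-q-8/9), sq_nonneg (-p-q-4/9)]
  · nlinarith [sq_nonneg (-p-4/9), sq_nonneg (q-8/9), sq_nonneg (p+q-4/9)]
  · nlinarith [sq_nonneg (-p-8/9), sq_nonneg (q-4/9), sq_nonneg (-p-q-4/9)]
  · linarith
  · nlinarith [sq_nonneg (-p-4/9), sq_nonneg (-q-4/9), sq_nonneg (-p-q-8/9)]

lemma QQ_three {u v : M} (hu : big x y t u ∨ 5/4 ≤ |t u|) (hv : big x y t v ∨ 5/4 ≤ |t v|)
    (hw : big x y t (u+v) ∨ 5/4 ≤ |t (u+v)|) :
    19/6 ≤ QQ x y t u + QQ x y t v + QQ x y t (u+v) := by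
  have u1 := QQ_ge_one x y t hu
  have v1 := QQ_ge_one x y t hv
  have w1 := QQ_ge_one x y t hw
  rcases le_or_gt (5/4) (|t u|) with h1 | h1
  · have := QQ_large x y t h1; linarith
  rcases le_or_gt (5/4) (|t v|) with h2 | h2
  · have := QQ_large x y t h2; linarith
  rcases le_or_gt (5/4) (|t (u+v)|) with h3 | h3
  · have := QQ_large x y t h3; linarith
  have bu := QQ_big x y t (hu.resolve_right (not_le.mpr h1)) (by linarith)
  have bv := QQ_big x y t (hv.resolve_right (not_le.mpr h2)) (by linarith)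
  have bw := QQ_big x y t (hw.resolve_right (not_le.mpr h3)) (by linarith)
  have := three_abs (t u) (t v)
  rw [← map_add] at this
  linarith

theorem caseX {c p q : M} (hx : ∀ v, v ≠ 0 → big x y t v ∨ 5/4 ≤ |t v|)
    (hc : c ≠ 0) (hmin : ∀ v, v ≠ 0 → QQ x y t c ≤ QQ x y t v) (hD : D3 x y t c p q ≠ 0) :
    4928/1000 ≤ (D3 x y t c p q)^2 := by
  obtain ⟨mu, hmu⟩ : ∃ mu, mu = QQ x y t c := ⟨_, rfl⟩
  have mu1 : 1 ≤ mu := by rw [hmu]; exact QQ_ge_one x y t (hx c hc)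
  have mupos : 0 < mu := by linarith
  have mune := mupos.ne'
  -- the bilinear form with `c`
  obtain ⟨s, hs⟩ : ∃ s : M → ℝ, ∀ v, s v = (3/8*(x v*x c+y v*y c)+3/4*(t v*t c))/mu :=
    ⟨fun v => (3/8*(x v*x c+y v*y c)+3/4*(t v*t c))/mu, fun _ => rfl⟩
  have sc : s c = 1 := by
    rw [hs, div_eq_one_iff_eq mune, hmu]; unfold QQ
    ring
  have scomb : ∀ a b k : ℤ, s (a•p+b•q+k•c) = a*s p+b*s q+k := by
    intro a b k
    have : (a:ℝ)*s p+b*s q+k = a*s p+b*s q+k*s c := by rw [sc]; ring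
    rw [this, hs, hs, hs, hs]
    simp only [map_add, map_zsmul, zsmul_eq_mul]
    ring
  obtain ⟨B, hB⟩ : ∃ B : M → M → ℝ, ∀ v w, B v w = 3/8*(x v*x w+y v*y w)+3/4*(t v*t w) - mu*(s v*s w) :=
    ⟨fun v w => 3/8*(x v*x w+y v*y w)+3/4*(t v*t w) - mu*(s v*s w), fun _ _ => rfl⟩
  have Bcomb : ∀ a b k a' b' k' : ℤ, B (a•p+b•q+k•c) (a'•p+b'•q+k'•c)
      = Bq (B p p) (B p q) (B q q) a b a' b' := by
    intro a b k a' b' k'
    have sp : mu*s p = 3/8*(x p*x c+y p*y c)+3/4*(t p*t c) := by rw [hs]; field_simp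
    have sq : mu*s q = 3/8*(x q*x c+y q*y c)+3/4*(t q*t c) := by rw [hs]; field_simp
    have muv : mu = 3/8*((x c)^2+(y c)^2)+3/4*(t c)^2 := hmu
    unfold Bq
    rw [hB, hB, hB, hB, scomb, scomb]
    simp only [map_add, map_zsmul, zsmul_eq_mul]
    linear_combination (-(a*k'+k*a'):ℝ)*sp + (-(b*k'+k*b'):ℝ)*sq + (-(k*k'):ℝ)*muv
  have gram : mu*(B p p*B q q-(B p q)^2) = 27/256*(D3 x y t c p q)^2 := by
    have sp : mu*s p = 3/8*(x p*x c+y p*y c)+3/4*(t p*t c) := by rw [hs]; field_simp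
    have sq : mu*s q = 3/8*(x q*x c+y q*y c)+3/4*(t q*t c) := by rw [hs]; field_simp
    have muv : mu = 3/8*((x c)^2+(y c)^2)+3/4*(t c)^2 := hmu
    have e : mu*(B p p*B q q-(B p q)^2) = mu*((3/8*(x p*x p+y p*y p)+3/4*(t p*t p))*(3/8*(x q*x q+y q*y q)+3/4*(t q*t q))
      - (3/8*(x p*x q+y p*y q)+3/4*(t p*t q))^2)
      - (3/8*(x p*x p+y p*y p)+3/4*(t p*t p))*(mu*s q)^2 - (3/8*(x q*x q+y q*y q)+3/4*(t q*t q))*(mu*s p)^2
      + 2*(3/8*(x p*x q+y p*y q)+3/4*(t p*t q))*(mu*s p)*(mu*s q) := by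
      rw [hB, hB, hB]; ring
    rw [e, sp, sq, muv]
    unfold D3
    ring
  have discpos : (B p q)^2 < B p p*B q q := by
    have : 0 < 27/256*(D3 x y t c p q)^2 := by positivity
    rw [← gram] at this
    have := (mul_pos_iff_of_pos_left mupos).mp this
    linarith
  have alpos : 0 < B p p := by
    have h1 : 0 ≤ mu*B p p := by
      have sp : mu*s p = 3/8*(x p*x c+y p*y c)+3/4*(t p*t c) := by rw [hs]; field_simp
      have muv : mu = 3/8*((x c)^2+(y c)^2)+3/4*(t c)^2 := hmu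
      have e : mu*B p p = mu*(3/8*(x p*x p+y p*y p)+3/4*(t p*t p)) - (mu*s p)^2 := by rw [hB]; ring
      rw [e, sp, muv]
      nlinarith [sq_nonneg (x p*y c-y p*x c), sq_nonneg (x p*t c-t p*x c), sq_nonneg (y p*t c-t p*y c)]
    have h2 : 0 ≤ B p p := nonneg_of_mul_nonneg_right h1 mupos
    rcases h2.eq_or_lt with h | h
    · rw [← h, zero_mul] at discpos
      nlinarith [sq_nonneg (B p q)]
    · exact h
  have loc : ∀ v, v ≠ 0 → c - v ≠ 0 → mu*(1-(s v)^2) ≤ B v v ∧ mu*(1-(1-s v)^2) ≤ B v v ∧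
      19/12-mu+mu*s v*(1-s v) ≤ B v v := by
    intro v v0 v1
    have q1 := hmin v v0
    have q2 := hmin (c-v) v1
    have q3 := QQ_three x y t (u := v) (v := c-v) (hx v v0) (hx _ v1) (by
      rw [add_sub_cancel]; exact hx c hc)
    rw [add_sub_cancel] at q3
    rw [← hmu] at q1 q2 q3
    have e1 : QQ x y t v = B v v + mu*(s v)^2 := by rw [hB]; unfold QQ; ring
    have e2 : QQ x y t (c-v) = B v v + mu*(1-s v)^2 := by
      have sp : mu*s v = 3/8*(x v*x c+y v*y c)+3/4*(t v*t c) := by rw [hs]; field_simp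
      have muv : mu = 3/8*((x c)^2+(y c)^2)+3/4*(t c)^2 := hmu
      rw [hB]; unfold QQ; simp only [map_sub]
      linear_combination 2*sp-muv
    rw [e1] at q1
    rw [e2] at q2
    rw [e1, e2] at q3
    refine ⟨by linarith, by linarith, by linarith⟩
  obtain ⟨a, b, a', b', k, k', hdet, hB12, hB13, hB23, hl1, hl2, hl3⟩ :=
    reduce_lift discpos alpos (s p) (s q)
  set v1 := a•p+b•q+k•c with hv1
  set v2 := a'•p+b'•q+k'•c with hv2
  have es1 : s v1 = a*s p+b*s q+k := scomb a b k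
  have es2 : s v2 = a'*s p+b'*s q+k' := scomb a' b' k'
  rw [← es1] at hl1 hl3
  rw [← es2] at hl2 hl3
  have hdetR : ((a:ℝ)*b'-b*a')^2 = 1 := by exact_mod_cast hdet
  have e11 : B v1 v1 = Fq (B p p) (B p q) (B q q) a b := by
    rw [hv1, Bcomb]; unfold Bq Fq; ring
  have e22 : B v2 v2 = Fq (B p p) (B p q) (B q q) a' b' := by
    rw [hv2, Bcomb]; unfold Bq Fq; ring
  have e12 : B v1 v2 = Bq (B p p) (B p q) (B q q) a b a' b' := by
    rw [hv1, hv2, Bcomb]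
  rw [← e12] at hB12 hB13 hB23
  rw [← e11] at hB13
  rw [← e22] at hB23
  have gram2 : B v1 v1*B v2 v2-(B v1 v2)^2 = B p p*B q q-(B p q)^2 := by
    rw [e11, e22, e12]; unfold Bq Fq
    linear_combination (B p p*B q q-(B p q)^2)*hdetR
  have D12 : D3 x y t c v1 v2 ≠ 0 := by
    have : D3 x y t c v1 v2 = (a*b'-b*a')*D3 x y t c p q := by
      rw [hv1, hv2]; unfold D3
      simp only [map_add, map_zsmul, zsmul_eq_mul]
      ring
    rw [this]
    apply mul_ne_zero _ hD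
    intro h0; rw [h0] at hdetR; norm_num at hdetR
  have D21 : D3 x y t c v2 v1 ≠ 0 := by
    have : D3 x y t c v2 v1 = -D3 x y t c v1 v2 := by unfold D3; ring
    rw [this]; exact neg_ne_zero.mpr D12
  have D31 : D3 x y t c (c-v1-v2) v1 ≠ 0 := by
    have : D3 x y t c (c-v1-v2) v1 = D3 x y t c v1 v2 := by
      unfold D3; simp only [map_sub]; ring
    rw [this]; exact D12
  have nz : ∀ w w', D3 x y t c w w' ≠ 0 → w ≠ 0 ∧ c - w ≠ 0 := by
    intro w w' h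
    have k0 := D3_ne x y t h 0
    have k1 := D3_ne x y t h 1
    rw [zero_smul] at k0
    rw [one_smul] at k1
    exact ⟨k0, sub_ne_zero.mpr (Ne.symm k1)⟩
  obtain ⟨l11, l12, l13⟩ := loc v1 (nz _ _ D12).1 (nz _ _ D12).2
  obtain ⟨l21, l22, l23⟩ := loc v2 (nz _ _ D21).1 (nz _ _ D21).2
  obtain ⟨l31, l32, l33⟩ := loc (c-v1-v2) (nz _ _ D31).1 (nz _ _ D31).2
  have s3 : s (c-v1-v2) = 1 - s v1 - s v2 := by
    rw [← sc, hs, hs, hs, hs]; simp only [map_sub]; ring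
  have B33 : B (c-v1-v2) (c-v1-v2) = B v1 v1+2*B v1 v2+B v2 v2 := by
    have sp : mu*s v1 = 3/8*(x v1*x c+y v1*y c)+3/4*(t v1*t c) := by rw [hs]; field_simp
    have sq : mu*s v2 = 3/8*(x v2*x c+y v2*y c)+3/4*(t v2*t c) := by rw [hs]; field_simp
    have muv : mu = 3/8*((x c)^2+(y c)^2)+3/4*(t c)^2 := hmu
    rw [hB, hB, hB, hB, s3]; simp only [map_sub]
    linear_combination 2*sp+2*sq-muv
  rw [B33, s3] at l31 l32 l33
  have dat : XDat mu (s v1) (s v2) (1-s v1-s v2) (B v2 v2+B v1 v2) (B v1 v1+B v1 v2) (-B v1 v2) :=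
    { m1 := mu1
      s1n := hl1
      s2n := hl2
      s3n := by linarith
      ss := by ring
      l1n := hB23
      l2n := hB13
      l3n := by linarith
      e2 := by
        have : (B v2 v2+B v1 v2)*(B v1 v1+B v1 v2)+(B v1 v1+B v1 v2)*(-B v1 v2)+(-B v1 v2)*(B v2 v2+B v1 v2)
          = B v1 v1*B v2 v2-(B v1 v2)^2 := by ring
        rw [this, gram2]; linarith
      a1 := by linarith
      a2 := by linarith
      a3 := by linarith
      b1 := by linarith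
      b2 := by linarith
      b3 := by linarith
      c1 := by linarith
      c2 := by linarith
      c3 := by linarith }
  have fin := dat.bound
  have : (B v2 v2+B v1 v2)*(B v1 v1+B v1 v2)+(B v1 v1+B v1 v2)*(-B v1 v2)+(-B v1 v2)*(B v2 v2+B v1 v2)
          = B v1 v1*B v2 v2-(B v1 v2)^2 := by ring
  rw [this, gram2, gram] at fin
  linarith

end

end Cone58
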