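import Mathlib
import Pool.Agent.Cone58.CaseX

namespace Cone58

noncomputable section

variable {M : Type*} [AddCommGroup M] (x y t : M →+ ℝ)

/-- sum of squares of the cofactors -/
def KK (v w : M) : ℝ := (y v*t w - t v*y w)^2+(x v*t w - t v*x w)^2+(x v*y w - y v*x w)^2

lemma D3_cs (u v w : M) : (D3 x y t u v w)^2 ≤ 8/3*QQ x y t u*KK x y t v w := by
  have h : (D3 x y t u v w)^2 ≤ ((x u)^2+(y u)^2+(t u)^2)*KK x y t v w := by
    unfold D3 KK
    nlinarith [sq_nonneg (x u*(x v*t w - t v*x w)+y u*(y v*t w - t v*y w)),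
      sq_nonneg (x u*(x v*y w - y v*x w)-t u*(y v*t w - t v*y w)),
      sq_nonneg (y u*(x v*y w - y v*x w)+t u*(x v*t w - t v*x w))]
  have K0 : 0 ≤ KK x y t v w := by unfold KK; positivity
  have h2 : (x u)^2+(y u)^2+(t u)^2 ≤ 8/3*QQ x y t u := by
    unfold QQ; nlinarith [sq_nonneg (t u)]
  exact le_trans h (mul_le_mul_of_nonneg_right h2 K0)

lemma KK_nonneg (v w : M) : 0 ≤ KK x y t v w := by unfold KK; positivity

lemma QQ_nonneg (v : M) : 0 ≤ QQ x y t v := by unfold QQ; positivity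

lemma exists_min (b1 b2 b3 : M) (hgen : ∀ v : M, ∃ n1 n2 n3 : ℤ, v = n1•b1+n2•b2+n3•b3)
    (hD : D3 x y t b1 b2 b3 ≠ 0) : ∃ c : M, c ≠ 0 ∧ ∀ v, v ≠ 0 → QQ x y t c ≤ QQ x y t v := by
  set f : ℤ × ℤ × ℤ → M := fun n => n.1•b1+n.2.1•b2+n.2.2•b3 with hf
  set T : Set (ℤ × ℤ × ℤ) := {n | f n ≠ 0 ∧ QQ x y t (f n) ≤ QQ x y t b1} with hT
  have b1ne : b1 ≠ 0 := by
    rintro rfl; apply hD; unfold D3; simp
  have f1 : f (1,0,0) = b1 := by simp [hf]
  have ne : T.Nonempty := ⟨(1,0,0), by rw [f1]; exact b1ne, by rw [f1]⟩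
  have Dpos : 0 < (D3 x y t b1 b2 b3)^2 := by positivity
  have fin : T.Finite := by
    obtain ⟨K, hK⟩ : ∃ K, K = 8/3*QQ x y t b1*(KK x y t b2 b3+KK x y t b1 b3+KK x y t b1 b2)/(D3 x y t b1 b2 b3)^2 := ⟨_, rfl⟩
    apply Set.Finite.subset ((Set.finite_Icc (-(⌈K⌉₊:ℤ)) (⌈K⌉₊:ℤ)).prod
      ((Set.finite_Icc (-(⌈K⌉₊:ℤ)) (⌈K⌉₊:ℤ)).prod (Set.finite_Icc (-(⌈K⌉₊:ℤ)) (⌈K⌉₊:ℤ))))
    rintro ⟨n1, n2, n3⟩ ⟨_, hn⟩
    have k1 := KK_nonneg x y t b2 b3
    have k2 := KK_nonneg x y t b1 b3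
    have k3 := KK_nonneg x y t b1 b2
    have q1 := QQ_nonneg x y t b1
    have d1 := D3_cs x y t (f (n1,n2,n3)) b2 b3
    have d2 := D3_cs x y t (f (n1,n2,n3)) b1 b3
    have d3 := D3_cs x y t (f (n1,n2,n3)) b1 b2
    have e1 : D3 x y t (f (n1,n2,n3)) b2 b3 = n1*D3 x y t b1 b2 b3 := by
      simp only [hf, D3, map_add, map_zsmul, zsmul_eq_mul]; ring
    have e2 : D3 x y t (f (n1,n2,n3)) b1 b3 = -(n2*D3 x y t b1 b2 b3) := by
      simp only [hf, D3, map_add, map_zsmul, zsmul_eq_mul]; ring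
    have e3 : D3 x y t (f (n1,n2,n3)) b1 b2 = n3*D3 x y t b1 b2 b3 := by
      simp only [hf, D3, map_add, map_zsmul, zsmul_eq_mul]; ring
    rw [e1] at d1
    rw [e2] at d2
    rw [e3] at d3
    have m1 := mul_le_mul_of_nonneg_right (mul_le_mul_of_nonneg_left hn (by norm_num : (0:ℝ) ≤ 8/3)) k1
    have m2 := mul_le_mul_of_nonneg_right (mul_le_mul_of_nonneg_left hn (by norm_num : (0:ℝ) ≤ 8/3)) k2
    have m3 := mul_le_mul_of_nonneg_right (mul_le_mul_of_nonneg_left hn (by norm_num : (0:ℝ) ≤ 8/3)) k3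
    have p1 : 0 ≤ 8/3*QQ x y t b1*KK x y t b2 b3 := by positivity
    have p2 : 0 ≤ 8/3*QQ x y t b1*KK x y t b1 b3 := by positivity
    have p3 : 0 ≤ 8/3*QQ x y t b1*KK x y t b1 b2 := by positivity
    refine ⟨int_box ?_, int_box ?_, int_box ?_⟩ <;> rw [hK, le_div_iff₀ Dpos] <;> linarith
  obtain ⟨n, ⟨hn1, hn2⟩, hmin⟩ := Set.exists_min_image T (fun n => QQ x y t (f n)) fin ne
  refine ⟨f n, hn1, fun v v0 => ?_⟩
  obtain ⟨m1, m2, m3, hm⟩ := hgen v
  rcases le_total (QQ x y t v) (QQ x y t b1) with h | h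
  · have e : f (m1,m2,m3) = v := by simp only [hf]; exact hm.symm
    have : (m1,m2,m3) ∈ T := ⟨by rw [e]; exact v0, by rw [e]; exact h⟩
    have := hmin _ this
    rwa [e] at this
  · exact le_trans hn2 h

theorem core (b1 b2 b3 : M) (hgen : ∀ v : M, ∃ n1 n2 n3 : ℤ, v = n1•b1+n2•b2+n3•b3)
    (hD : D3 x y t b1 b2 b3 ≠ 0) (hadm : ∀ v : M, v ≠ 0 → adm x y t v) :
    G2 e0 ≤ (D3 x y t b1 b2 b3)^2 := by
  have gu := G2_e0_le
  by_cases hY : ∃ c : M, c ≠ 0 ∧ ¬ big x y t c ∧ |t c| < 5/4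
  · obtain ⟨c, c0, hc, tc⟩ := hY
    obtain ⟨n1, n2, n3, hn⟩ := hgen c
    obtain ⟨g, c', p, q, h1, h2⟩ := extend x y t b1 b2 b3 n1 n2 n3
    rw [← hn] at h1
    have g0 : g ≠ 0 := by rintro rfl; apply c0; rw [h1, zero_smul]
    have c'0 : c' ≠ 0 := by rintro rfl; apply c0; rw [h1, smul_zero]
    have g1 : (1:ℝ) ≤ |(g:ℝ)| := by
      have : (1:ℤ) ≤ |g| := Int.one_le_abs g0
      exact_mod_cast this
    have t1 : |t c| = |(g:ℝ)| * |t c'| := by rw [h1, map_zsmul, zsmul_eq_mul, abs_mul]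
    have n1 : √((x c)^2+(y c)^2) = |(g:ℝ)| * √((x c')^2+(y c')^2) := by
      rw [h1, map_zsmul, map_zsmul, zsmul_eq_mul, zsmul_eq_mul]
      have : ((g:ℝ)*x c')^2+((g:ℝ)*y c')^2 = (g:ℝ)^2*((x c')^2+(y c')^2) := by ring
      rw [this, Real.sqrt_mul (sq_nonneg _), Real.sqrt_sq_eq_abs]
    have hc' : ¬ big x y t c' := by
      intro hb; apply hc; unfold big at hb ⊢
      rw [t1, n1]
      nlinarith [abs_nonneg (t c'), Real.sqrt_nonneg ((x c')^2+(y c')^2)]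
    have tc' : |t c'| < 5/4 := by
      nlinarith [abs_nonneg (t c')]
    have ad := (hadm c' c'0).resolve_right hc'
    rw [← h2] at hD ⊢
    rcases abs_cases (t c') with ⟨hab, _⟩ | ⟨hab, _⟩
    · rw [hab] at ad tc'
      exact caseY x y t (fun w w0 wc wc' => uniq x y t hadm hc' ad w0 wc wc') ad tc' hc' hD
    · rw [hab] at ad tc'
      have e : D3 x y t c' p q = -D3 x y t (-c') p q := by unfold D3; simp only [map_neg]; ring
      rw [e, neg_sq]
      rw [e] at hD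
      have hn : ¬ big x y t (-c') := by rw [big_neg]; exact hc'
      have ad' : 1 ≤ t (-c') := by rw [map_neg]; exact ad
      exact caseY x y t (fun w w0 wc wc' => uniq x y t hadm hn ad' w0 wc wc') ad' 
        (by rw [map_neg]; exact tc') hn (neg_ne_zero.mp hD)
  · push Not at hY
    have hx : ∀ v : M, v ≠ 0 → big x y t v ∨ 5/4 ≤ |t v| := by
      intro v v0
      by_cases hb : big x y t v
      · exact Or.inl hb
      · exact Or.inr (hY v v0 hb)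
    obtain ⟨c, c0, hmin⟩ := exists_min x y t b1 b2 b3 hgen hD
    obtain ⟨n1, n2, n3, hn⟩ := hgen c
    obtain ⟨g, c', p, q, h1, h2⟩ := extend x y t b1 b2 b3 n1 n2 n3
    rw [← hn] at h1
    have g0 : g ≠ 0 := by rintro rfl; apply c0; rw [h1, zero_smul]
    have c'0 : c' ≠ 0 := by rintro rfl; apply c0; rw [h1, smul_zero]
    have g1 : (1:ℝ) ≤ (g:ℝ)^2 := by
      have : (1:ℤ) ≤ g^2 := by
        have := Int.one_le_abs g0
        nlinarith [sq_abs g]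
      exact_mod_cast this
    have qe : QQ x y t c = (g:ℝ)^2*QQ x y t c' := by
      rw [h1]; unfold QQ; simp only [map_zsmul, zsmul_eq_mul]; ring
    have hmin' : ∀ v, v ≠ 0 → QQ x y t c' ≤ QQ x y t v := by
      intro v v0
      have := hmin v v0
      have := QQ_nonneg x y t c'
      nlinarith
    rw [← h2] at hD ⊢
    have := caseX x y t hx c'0 hmin' hD
    linarith

end

end Cone58
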