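import Mathlib

/-!
Definitions for the lattice packing density of the circular cone.
-/

namespace Cone58

open MeasureTheory

/-- Euclidean 3-space. -/
abbrev E3 := EuclideanSpace ℝ (Fin 3)

/-- `K` is a circular cone: the convex hull of a closed disk (centre `c`, radius `r > 0`, lying in
the plane `P`) and a point `a` that is not in the plane `P`. -/
def IsCircularCone (K : Set E3) : Prop :=
  ∃ (P : AffineSubspace ℝ E3) (c a : E3) (r : ℝ), Module.finrank ℝ P.direction = 2 ∧ c ∈ P ∧
    a ∉ P ∧ 0 < r ∧ K = convexHull ℝ (insert a (Metric.closedBall c r ∩ (P : Set E3)))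

/-- The translates `v + K`, `v ∈ Λ`, have pairwise disjoint interiors. -/
def IsLatticePacking (K : Set E3) (Λ : Submodule ℤ E3) : Prop :=
  ∀ v ∈ Λ, ∀ w ∈ Λ, v ≠ w →
    Disjoint (interior ((fun p => v + p) '' K)) (interior ((fun p => w + p) '' K))

/-- The densities `Vol(K) / det Λ` of all lattice packings of `K`
(`Λ` runs over the discrete subgroups of rank 3 that give a packing). -/
def latticeDensities (K : Set E3) : Set ℝ :=
  {d | ∃ (Λ : Submodule ℤ E3) (_ : DiscreteTopology Λ) (_ : IsZLattice ℝ Λ),
    IsLatticePacking K Λ ∧ d = (volume K).toReal / ZLattice.covolume Λ}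

/-- The lattice packing density. -/
noncomputable def latticePackingDensity (K : Set E3) : ℝ := sSup (latticeDensities K)

end Cone58
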