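import Mathlib
import Pool.Agent.Cone58.Def
import Pool.Agent.Cone58.Mk

namespace Cone58

open MeasureTheory

noncomputable section

/-- standard cone -/
def C0 : Set E3 := {p | 0 ≤ p 2 ∧ √((p 0)^2+(p 1)^2) ≤ 1 - p 2}
/-- open standard cone -/
def C1 : Set E3 := {p | 0 < p 2 ∧ √((p 0)^2+(p 1)^2) < 1 - p 2}

lemma C1_sub : C1 ⊆ C0 := fun _ hp => ⟨hp.1.le, hp.2.le⟩

lemma C1_open : IsOpen C1 := by
  have c0 : Continuous (fun p : E3 => p 0) := by fun_prop
  have c1 : Continuous (fun p : E3 => p 1) := by fun_prop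
  have c2 : Continuous (fun p : E3 => p 2) := by fun_prop
  exact (isOpen_lt continuous_const c2).inter
    (isOpen_lt ((c0.pow 2).add (c1.pow 2)).sqrt (continuous_const.sub c2))

lemma interior_C0 : interior C0 = C1 := by
  apply subset_antisymm
  · intro p hp
    have hcont : Continuous (fun s : ℝ => p + s • (EuclideanSpace.single (2 : Fin 3) (1:ℝ))) := by fun_prop
    have h0 : (fun s : ℝ => p + s • (EuclideanSpace.single (2 : Fin 3) (1:ℝ))) 0 ∈ interior C0 := by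
      simpa using hp
    have hn := hcont.continuousAt.preimage_mem_nhds (isOpen_interior.mem_nhds h0)
    rw [Metric.mem_nhds_iff] at hn
    obtain ⟨ε, hε, hb⟩ := hn
    have q1 : p + (ε/2) • (EuclideanSpace.single (2 : Fin 3) (1:ℝ)) ∈ C0 := by
      apply interior_subset
      apply hb
      simp [abs_of_pos hε]
      linarith
    have q2 : p + (-(ε/2)) • (EuclideanSpace.single (2 : Fin 3) (1:ℝ)) ∈ C0 := by
      apply interior_subset
      apply hb
      simp [abs_of_pos hε]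
      linarith
    simp [C0] at q1 q2
    exact ⟨by linarith [q2.1], by linarith [q1.2]⟩
  · exact interior_maximal C1_sub C1_open

lemma not_both_of_adm {p w : E3} (h1 : p ∈ C1) (h2 : p - w ∈ C1) :
    |w 2| < 1 ∧ √((w 0)^2+(w 1)^2)+|w 2| < 2 := by
  obtain ⟨a1, a2⟩ := h1
  obtain ⟨b1, b2⟩ := h2
  simp only [PiLp.sub_apply] at b1 b2
  have tri := sqrt_sub_le (p 0) (p 1) (p 0 - w 0) (p 1 - w 1)
  have e0 : p 0 - (p 0 - w 0) = w 0 := by ring
  have e1 : p 1 - (p 1 - w 1) = w 1 := by ring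
  rw [e0, e1] at tri
  have n1 := Real.sqrt_nonneg ((p 0)^2+(p 1)^2)
  have n2 := Real.sqrt_nonneg ((p 0 - w 0)^2+(p 1 - w 1)^2)
  constructor
  · rw [abs_lt]; constructor <;> linarith
  · rcases abs_cases (w 2) with ⟨h, _⟩ | ⟨h, _⟩ <;> rw [h] <;> linarith

lemma exists_both_aux {w : E3} (h0 : 0 ≤ w 2) (h1 : w 2 < 1) (h2 : √((w 0)^2+(w 1)^2)+w 2 < 2) :
    ∃ p : E3, p ∈ C1 ∧ p - w ∈ C1 := by
  set n := √((w 0)^2+(w 1)^2) with hn
  have n0 : 0 ≤ n := Real.sqrt_nonneg _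
  -- choose `ε`
  obtain ⟨ε, e1, e2, e3⟩ : ∃ ε : ℝ, 0 < ε ∧ ε < 1 - w 2 ∧ n < 2 - w 2 - 2*ε := by
    refine ⟨min ((1-w 2)/2) ((2-w 2-n)/4), ?_, ?_, ?_⟩
    · apply lt_min <;> linarith
    · have := min_le_left ((1-w 2)/2) ((2-w 2-n)/4); linarith
    · have := min_le_right ((1-w 2)/2) ((2-w 2-n)/4); linarith
  set ρ1 := 1 - w 2 - ε with hρ1
  set ρ2 := 1 - ε with hρ2
  have r1 : 0 < ρ1 := by rw [hρ1]; linarith
  have r2 : 0 < ρ2 := by rw [hρ2]; linarith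
  set lam := ρ1/(ρ1+ρ2) with hlam
  have l0 : 0 < lam := by positivity
  have l1 : 1 - lam = ρ2/(ρ1+ρ2) := by rw [hlam]; field_simp; ring
  have l1' : 0 < 1 - lam := by rw [l1]; positivity
  have nl : n < ρ1+ρ2 := by rw [hρ1, hρ2]; linarith
  refine ⟨!₂[lam*w 0, lam*w 1, w 2+ε], ⟨?_, ?_⟩, ⟨?_, ?_⟩⟩
  · simp; linarith
  · simp
    have : (lam*w 0)^2+(lam*w 1)^2 = lam^2*((w 0)^2+(w 1)^2) := by ring
    rw [this, Real.sqrt_mul (sq_nonneg _), Real.sqrt_sq l0.le, ← hn]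
    have : lam*n < lam*(ρ1+ρ2) := mul_lt_mul_of_pos_left nl l0
    have e : lam*(ρ1+ρ2) = ρ1 := by rw [hlam]; field_simp
    rw [e] at this
    linarith
  · simp; linarith
  · simp
    have : (lam*w 0 - w 0)^2+(lam*w 1 - w 1)^2 = (1-lam)^2*((w 0)^2+(w 1)^2) := by ring
    rw [this, Real.sqrt_mul (sq_nonneg _), Real.sqrt_sq l1'.le, ← hn]
    have : (1-lam)*n < (1-lam)*(ρ1+ρ2) := mul_lt_mul_of_pos_left nl l1'
    have e : (1-lam)*(ρ1+ρ2) = ρ2 := by rw [l1]; field_simp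
    rw [e] at this
    linarith

lemma exists_both {w : E3} (h1 : |w 2| < 1) (h2 : √((w 0)^2+(w 1)^2)+|w 2| < 2) :
    ∃ p : E3, p ∈ C1 ∧ p - w ∈ C1 := by
  rcases le_total 0 (w 2) with h | h
  · rw [abs_of_nonneg h] at h1 h2
    exact exists_both_aux h h1 h2
  · rw [abs_of_nonpos h] at h1 h2
    obtain ⟨p, hp1, hp2⟩ := exists_both_aux (w := -w) (by simpa using h) (by simpa using h1)
      (by simpa using h2)
    refine ⟨p + w, ?_, ?_⟩
    · simpa using hp2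
    · simpa using hp1

end

end Cone58
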