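import Mathlib
import Pool.Agent.Cone58.Std

namespace Cone58

open MeasureTheory

noncomputable section

/-- standard disk -/
def disk0 : Set E3 := {p | p 2 = 0 ∧ (p 0)^2+(p 1)^2 ≤ 1}
/-- standard apex -/
def apex0 : E3 := !₂[0,0,1]

lemma sqrt_add_le' (a b c d : ℝ) : √((a+c)^2+(b+d)^2) ≤ √(a^2+b^2)+√(c^2+d^2) := by
  have := sqrt_sub_le a b (-c) (-d)
  simpa using this

lemma sqrt_smul {a : ℝ} (ha : 0 ≤ a) (u v : ℝ) : √((a*u)^2+(a*v)^2) = a*√(u^2+v^2) := by
  have : (a*u)^2+(a*v)^2 = a^2*(u^2+v^2) := by ring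
  rw [this, Real.sqrt_mul (sq_nonneg _), Real.sqrt_sq ha]

lemma C0_convex : Convex ℝ C0 := by
  intro p hp q hq a b ha hb hab
  obtain ⟨p1, p2⟩ := hp
  obtain ⟨q1, q2⟩ := hq
  refine ⟨?_, ?_⟩
  · simp only [PiLp.add_apply, PiLp.smul_apply, smul_eq_mul]
    positivity
  · simp only [PiLp.add_apply, PiLp.smul_apply, smul_eq_mul]
    have := sqrt_add_le' (a*p 0) (a*p 1) (b*q 0) (b*q 1)
    rw [sqrt_smul ha, sqrt_smul hb] at this
    have h1 := mul_le_mul_of_nonneg_left p2 ha
    have h2 := mul_le_mul_of_nonneg_left q2 hb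
    have h3 : a*(1-p 2)+b*(1-q 2) = 1 - (a*p 2+b*q 2) := by
      linear_combination hab
    linarith

lemma C0_eq : C0 = convexHull ℝ (insert apex0 disk0) := by
  apply subset_antisymm
  · intro p hp
    obtain ⟨p1, p2⟩ := hp
    have n0 := Real.sqrt_nonneg ((p 0)^2+(p 1)^2)
    have ha : apex0 ∈ convexHull ℝ (insert apex0 disk0) := subset_convexHull ℝ _ (Set.mem_insert _ _)
    rcases eq_or_ne (p 2) 1 with h | h
    · have h0 : √((p 0)^2+(p 1)^2) = 0 := by linarith
      rw [Real.sqrt_eq_zero (by positivity)] at h0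
      have hx : p 0 = 0 := by nlinarith [sq_nonneg (p 0), sq_nonneg (p 1)]
      have hy : p 1 = 0 := by nlinarith [sq_nonneg (p 0), sq_nonneg (p 1)]
      have : p = apex0 := by
        ext i; fin_cases i
        · simpa [apex0] using hx
        · simpa [apex0] using hy
        · simpa [apex0] using h
      rw [this]; exact ha
    · have hlt : p 2 < 1 := lt_of_le_of_ne (by linarith) h
      have hτ : 0 < 1 - p 2 := by linarith
      have hq : (!₂[p 0/(1-p 2), p 1/(1-p 2), 0] : E3) ∈ convexHull ℝ (insert apex0 disk0) := by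
        apply subset_convexHull ℝ _
        right
        refine ⟨by simp, ?_⟩
        simp only [PiLp.toLp_apply, Matrix.cons_val_zero, Matrix.cons_val_one]
        have h4 := pow_le_pow_left₀ n0 p2 2
        rw [Real.sq_sqrt (by positivity)] at h4
        rw [div_pow, div_pow, ← add_div, div_le_one (by positivity)]
        exact h4
      have hc := (convex_convexHull ℝ (insert apex0 disk0)) hq ha hτ.le p1 (by ring)
      convert hc using 1
      ext i; fin_cases i
      · simp [apex0]; field_simp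
      · simp [apex0]; field_simp
      · simp [apex0]
  · apply convexHull_min _ C0_convex
    rintro p (rfl | ⟨h1, h2⟩)
    · simp [C0, apex0]
    · refine ⟨by rw [h1], ?_⟩
      rw [h1, sub_zero]
      rw [Real.sqrt_le_left (by norm_num)]
      simpa using h2

end

end Cone58
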