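import Mathlib
import Pool.Agent.Cone58.Std

namespace Cone58

open MeasureTheory

noncomputable section

def slab : Set (ℝ × EuclideanSpace ℝ (Fin 2)) := {z | 0 ≤ z.1 ∧ ‖z.2‖ ≤ 1 - z.1}

lemma slab_closed : IsClosed slab := by
  have h1 : IsClosed {z : ℝ × EuclideanSpace ℝ (Fin 2) | 0 ≤ z.1} := isClosed_le continuous_const (by fun_prop)
  have h2 : IsClosed {z : ℝ × EuclideanSpace ℝ (Fin 2) | ‖z.2‖ ≤ 1 - z.1} :=
    isClosed_le (by fun_prop) (by fun_prop)
  exact h1.inter h2

lemma volume_slab : volume slab = ENNReal.ofReal (Real.pi/3) := by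
  rw [Measure.volume_eq_prod, Measure.prod_apply slab_closed.measurableSet]
  have e : ∀ τ : ℝ, volume (Prod.mk τ ⁻¹' slab)
      = (Set.Icc (0:ℝ) 1).indicator (fun τ => ENNReal.ofReal ((1-τ)^2*Real.pi)) τ := by
    intro τ
    by_cases h : 0 ≤ τ
    · have : Prod.mk τ ⁻¹' slab = Metric.closedBall (0 : EuclideanSpace ℝ (Fin 2)) (1-τ) := by
        ext q; simp [slab, h]
      rw [this, EuclideanSpace.volume_closedBall_fin_two]
      by_cases h' : τ ≤ 1
      · rw [Set.indicator_of_mem (show τ ∈ Set.Icc (0:ℝ) 1 from ⟨h, h'⟩)]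
        rw [← ENNReal.ofReal_pow (by linarith), ← ENNReal.ofReal_mul (by positivity)]
      · rw [Set.indicator_of_notMem (by simp [h'])]
        push Not at h'
        rw [ENNReal.ofReal_of_nonpos (by linarith)]; simp
    · have : Prod.mk τ ⁻¹' slab = ∅ := by
        ext q; simp [slab, h]
      rw [this, Set.indicator_of_notMem (by simp [h])]; simp
  simp_rw [e]
  rw [lintegral_indicator measurableSet_Icc]
  rw [← ofReal_integral_eq_lintegral_ofReal]
  · congr 1
    rw [integral_Icc_eq_integral_Ioc, ← intervalIntegral.integral_of_le (by norm_num)]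
    have : ∀ x : ℝ, (1-x)^2*Real.pi = Real.pi*(1 - 2*x + x^2) := by intro x; ring
    simp_rw [this]
    rw [intervalIntegral.integral_const_mul, intervalIntegral.integral_add, intervalIntegral.integral_sub]
    · rw [intervalIntegral.integral_const_mul]
      simp; ring
    all_goals apply Continuous.intervalIntegrable; fun_prop
  · apply Continuous.integrableOn_Icc; fun_prop
  · apply Filter.Eventually.of_forall; intro x; positivity

lemma volume_C0 : volume C0 = ENNReal.ofReal (Real.pi/3) := by
  rw [← volume_slab]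
  have m1 := PiLp.volume_preserving_ofLp (Fin 3)
  have m2 := volume_preserving_piFinSuccAbove (fun _ : Fin 3 => ℝ) 2
  have m3 : MeasurePreserving (Prod.map (id : ℝ → ℝ) (@WithLp.toLp 2 (Fin 2 → ℝ))) volume volume :=
    (MeasurePreserving.id volume).prod (PiLp.volume_preserving_toLp (Fin 2))
  have m := m3.comp (m2.comp m1)
  rw [← m.measure_preimage slab_closed.measurableSet.nullMeasurableSet]
  congr 1
  ext p
  simp [C0, slab, EuclideanSpace.norm_eq, Fin.removeNth, Fin.succAbove]

end

end Cone58
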