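import Mathlib
import Pool.Agent.Cone58.Hull
import Pool.Agent.Cone58.Vol

namespace Cone58

open MeasureTheory

noncomputable section

/-- linear map with given columns -/
def colMap (u v w : E3) : E3 →ₗ[ℝ] E3 where
  toFun p := p 0 • u + p 1 • v + p 2 • w
  map_add' p q := by simp only [PiLp.add_apply]; module
  map_smul' a p := by simp only [PiLp.smul_apply, smul_eq_mul, RingHom.id_apply]; module

lemma colMap_apply (u v w p : E3) : colMap u v w p = p 0 • u + p 1 • v + p 2 • w := rfl

lemma cone_frame {K : Set E3} (h : IsCircularCone K) :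
    ∃ (c : E3) (L : E3 ≃ₗ[ℝ] E3), K = (fun p => c + L p) '' C0 := by
  obtain ⟨P, c, a, r, hP, hc, ha, hr, rfl⟩ := h
  have ob : OrthonormalBasis (Fin 2) ℝ P.direction :=
    (stdOrthonormalBasis ℝ P.direction).reindex (finCongr hP)
  obtain ⟨u, hu⟩ : ∃ u : E3, u = ob 0 := ⟨_, rfl⟩
  obtain ⟨v, hv⟩ : ∃ v : E3, v = ob 1 := ⟨_, rfl⟩
  have huD : u ∈ P.direction := by rw [hu]; exact (ob 0).2
  have hvD : v ∈ P.direction := by rw [hv]; exact (ob 1).2
  have wD : a - c ∉ P.direction := by
    intro h
    apply ha
    have := AffineSubspace.vadd_mem_of_mem_direction h hc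
    simpa using this
  have span2 : ∀ d ∈ P.direction, ∃ α β : ℝ, d = α • u + β • v := by
    intro d hd
    have := ob.sum_repr ⟨d, hd⟩
    rw [Fin.sum_univ_two] at this
    refine ⟨ob.repr ⟨d, hd⟩ 0, ob.repr ⟨d, hd⟩ 1, ?_⟩
    have h2 := congrArg (Subtype.val) this
    simp only [Submodule.coe_add, Submodule.coe_smul] at h2
    rw [hu, hv]; exact h2.symm
  have norm2 : ∀ α β : ℝ, ‖α • u + β • v‖^2 = α^2+β^2 := by
    intro α β
    have hn : ‖α • u + β • v‖ = ‖α • ob 0 + β • ob 1‖ := by
      rw [hu, hv]; rfl
    rw [hn, ← ob.repr.norm_map, EuclideanSpace.norm_eq, Real.sq_sqrt (by positivity), Fin.sum_univ_two]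
    simp
  have inj : Function.Injective (colMap (r • u) (r • v) (a - c)) := by
    rw [← LinearMap.ker_eq_bot, LinearMap.ker_eq_bot']
    intro p hp
    rw [colMap_apply] at hp
    have h2 : p 2 = 0 := by
      by_contra h2
      apply wD
      have e : a - c = (p 2)⁻¹ • (-(p 0 • r • u + p 1 • r • v)) := by
        have : p 2 • (a - c) = -(p 0 • r • u + p 1 • r • v) := by
          rw [eq_neg_iff_add_eq_zero, add_comm]; exact hp
        rw [← this, smul_smul, inv_mul_cancel₀ h2, one_smul]
      rw [e]
      apply Submodule.smul_mem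
      apply Submodule.neg_mem
      apply Submodule.add_mem
      · exact Submodule.smul_mem _ _ (Submodule.smul_mem _ _ huD)
      · exact Submodule.smul_mem _ _ (Submodule.smul_mem _ _ hvD)
    rw [h2, zero_smul, add_zero, smul_smul, smul_smul] at hp
    have := norm2 (p 0 * r) (p 1 * r)
    rw [hp, norm_zero] at this
    have hr2 : 0 < r^2 := by positivity
    have h0 : (p 0)^2 = 0 := by nlinarith [sq_nonneg (p 0), sq_nonneg (p 1)]
    have h1 : (p 1)^2 = 0 := by nlinarith [sq_nonneg (p 0), sq_nonneg (p 1)]
    ext i; fin_cases i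
    · simpa using h0
    · simpa using h1
    · simpa using h2
  set L : E3 ≃ₗ[ℝ] E3 := LinearEquiv.ofInjectiveEndo _ inj with hL
  have Lapp : ∀ p, L p = p 0 • r • u + p 1 • r • v + p 2 • (a - c) := by
    intro p
    rw [hL, LinearEquiv.coe_ofInjectiveEndo, colMap_apply]
  refine ⟨c, L, ?_⟩
  have hf : (fun p => c + L p) = (AffineMap.const ℝ E3 c + L.toLinearMap.toAffineMap : E3 →ᵃ[ℝ] E3) := by
    ext p; simp
  rw [hf, C0_eq, AffineMap.image_convexHull, ← hf, Set.image_insert_eq]
  have apx : c + L apex0 = a := by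
    rw [Lapp]; simp [apex0]
  have dsk : (fun p => c + L p) '' disk0 = Metric.closedBall c r ∩ (P : Set E3) := by
    ext q
    constructor
    · rintro ⟨p, ⟨h2, hp⟩, rfl⟩
      have e : L p = (p 0 * r) • u + (p 1 * r) • v := by
        rw [Lapp, h2]; module
      constructor
      · rw [Metric.mem_closedBall, dist_eq_norm, add_sub_cancel_left, e]
        apply le_of_sq_le_sq _ hr.le
        rw [norm2]
        nlinarith [sq_nonneg r]
      · simp only
        rw [e]
        have : (p 0 * r) • u + (p 1 * r) • v ∈ P.direction :=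
          Submodule.add_mem _ (Submodule.smul_mem _ _ huD) (Submodule.smul_mem _ _ hvD)
        have := AffineSubspace.vadd_mem_of_mem_direction this hc
        simpa [add_comm] using this
    · rintro ⟨hq1, hq2⟩
      have hd : q - c ∈ P.direction := by
        have := AffineSubspace.vsub_mem_direction hq2 hc
        simpa using this
      obtain ⟨α, β, hαβ⟩ := span2 _ hd
      refine ⟨!₂[α/r, β/r, 0], ⟨by simp, ?_⟩, ?_⟩
      · rw [Metric.mem_closedBall, dist_eq_norm, hαβ] at hq1
        have := pow_le_pow_left₀ (norm_nonneg _) hq1 2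
        rw [norm2] at this
        simp
        rw [div_pow, div_pow, ← add_div, div_le_one (by positivity)]
        exact this
      · simp only
        rw [Lapp]
        simp only [Matrix.cons_val_zero, Matrix.cons_val_one, Matrix.cons_val]
        have : q = c + (α • u + β • v) := by rw [← hαβ]; abel
        rw [this]
        have e1 : (α/r) • r • u = α • u := by rw [smul_smul]; congr 1; field_simp
        have e2 : (β/r) • r • v = β • v := by rw [smul_smul]; congr 1; field_simp
        rw [e1, e2, zero_smul, add_zero]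
  rw [apx, dsk]

end

end Cone58
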