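import Mathlib
import Pool.Agent.Cone58.Nine

namespace Cone58

noncomputable section

/-- numerical relations of the optimal lattice -/
structure OptRel (e c X y : ℝ) : Prop where
  r1 : 2*X = 1+c+e
  r2 : X^2+y^2 = (2-c/2)^2
  r3 : (X-(1+c))^2+y^2 = (1+c/2)^2
  c1 : 8/10 ≤ c
  c2 : c ≤ 9/10
  e1 : 0 ≤ e
  e2 : e ≤ 1/4
  y1 : 1 ≤ y

variable {e c X y : ℝ}

lemma sqrt_ge_left (a b : ℝ) : |a| ≤ √(a^2+b^2) := by
  apply Real.le_sqrt_of_sq_le
  rw [sq_abs]; nlinarith [sq_nonneg b]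

lemma sqrt_ge_right (a b : ℝ) : |b| ≤ √(a^2+b^2) := by
  apply Real.le_sqrt_of_sq_le
  rw [sq_abs]; nlinarith [sq_nonneg a]

lemma OptRel.d0_aux (r : OptRel e c X y) (A B : ℤ) (hB : 1 ≤ B) :
    1 ≤ |(A:ℝ)+B*(1-c)| ∨ 2 ≤ |(A:ℝ)*e-B*(1+c)|+|(A:ℝ)+B*(1-c)| := by
  have c1 := r.c1
  have c2 := r.c2
  have e1 := r.e1
  have hBr : (1:ℝ) ≤ B := by exact_mod_cast hB
  rcases le_or_gt 1 A with hA | hA
  · left
    have hAr : (1:ℝ) ≤ A := by exact_mod_cast hA
    apply le_abs.mpr; left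
    nlinarith
  · have hAr : (A:ℝ) ≤ 0 := by exact_mod_cast (by omega : A ≤ 0)
    right
    have ax : B*(1+c) - A*e ≤ |(A:ℝ)*e-B*(1+c)| := by
      apply le_abs.mpr; right; linarith
    have Ae : (A:ℝ)*e ≤ 0 := mul_nonpos_of_nonpos_of_nonneg hAr e1
    have ab := abs_nonneg ((A:ℝ)+B*(1-c))
    rcases le_or_gt 2 B with h2 | h2
    · have : (2:ℝ) ≤ B := by exact_mod_cast h2
      nlinarith
    · have : B = 1 := by omega
      subst this
      push_cast at *
      rcases le_or_gt 0 A with h0 | h0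
      · have hA0 : A = 0 := by omega
        subst hA0
        push_cast at *
        have : 1 - c ≤ |(0:ℝ)+1*(1-c)| := by apply le_abs.mpr; left; linarith
        linarith
      · have hA1 : (A:ℝ) ≤ -1 := by exact_mod_cast (by omega : A ≤ -1)
        have : -(A+(1-c)) ≤ |(A:ℝ)+1*(1-c)| := by apply le_abs.mpr; right; linarith
        nlinarith

lemma OptRel.d0 (r : OptRel e c X y) (A B : ℤ) (h : A ≠ 0 ∨ B ≠ 0) :
    1 ≤ |(A:ℝ)+B*(1-c)| ∨ 2 ≤ |(A:ℝ)*e-B*(1+c)|+|(A:ℝ)+B*(1-c)| := by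
  rcases lt_trichotomy B 0 with hB | hB | hB
  · have := r.d0_aux (-A) (-B) (by omega)
    push_cast at this
    have e1 : (-(A:ℝ)+-(B:ℝ)*(1-c)) = -((A:ℝ)+B*(1-c)) := by ring
    have e2 : (-(A:ℝ)*e- -(B:ℝ)*(1+c)) = -((A:ℝ)*e-B*(1+c)) := by ring
    rw [e1, e2, abs_neg, abs_neg] at this
    exact this
  · subst hB
    left
    have hA : A ≠ 0 := by simpa using h
    have : (1:ℝ) ≤ |(A:ℝ)| := by exact_mod_cast Int.one_le_abs hA
    simpa using this
  · exact r.d0_aux A B (by omega)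

lemma OptRel.d1 (r : OptRel e c X y) (A B : ℤ) :
    1 ≤ |c/2+A+B*(1-c)| ∨ 2 ≤ √((X+A*e-B*(1+c))^2+y^2)+|c/2+A+B*(1-c)| := by
  have c1 := r.c1
  have c2 := r.c2
  have e1 := r.e1
  have e2 := r.e2
  have r1 := r.r1
  rcases le_or_gt 1 (|c/2+A+B*(1-c)|) with ht | ht
  · exact Or.inl ht
  right
  have an := abs_nonneg (c/2+A+B*(1-c))
  obtain ⟨t1, t2⟩ := abs_lt.mp ht
  rcases lt_trichotomy B 0 with hB | hB | hB
  · have hBr : (B:ℝ) ≤ -1 := by exact_mod_cast (by omega : B ≤ -1)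
    have hA : (-2:ℝ) < A := by nlinarith
    have hA' : -2 < A := by exact_mod_cast hA
    have hA'' : (-1:ℝ) ≤ A := by exact_mod_cast (by omega : -1 ≤ A)
    have := sqrt_ge_left (X+A*e-B*(1+c)) y
    have h2 := le_abs_self (X+A*e-B*(1+c))
    have : 2 ≤ X+A*e-B*(1+c) := by nlinarith
    linarith
  · subst hB
    push_cast at *
    have hA : (-2:ℝ) < A := by linarith
    have hA2 : (A:ℝ) < 1 := by linarith
    have hA' : -2 < A := by exact_mod_cast hA
    have hA2' : A < 1 := by exact_mod_cast hA2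
    have : A = 0 ∨ A = -1 := by omega
    rcases this with h | h
    · subst h
      push_cast
      have e1 : (X+0*e-0*(1+c))^2+y^2 = (2-c/2)^2 := by rw [← r.r2]; ring
      rw [e1, Real.sqrt_sq (by linarith)]
      have := le_abs_self (c/2+0+0*(1-c))
      linarith
    · subst h
      push_cast
      have e1 : (X+(-1)*e-0*(1+c))^2+y^2 = (1+c/2)^2 := by
        rw [← r.r3]
        have : e = 2*X-(1+c) := by linarith
        rw [this]; ring
      rw [e1, Real.sqrt_sq (by linarith)]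
      have := neg_le_abs (c/2+-1+0*(1-c))
      linarith
  · rcases le_or_gt 2 B with h2 | h2
    · have hBr : (2:ℝ) ≤ B := by exact_mod_cast h2
      have hA2 : (A:ℝ) < 1 := by nlinarith
      have hA2' : A < 1 := by exact_mod_cast hA2
      have hA'' : (A:ℝ) ≤ 0 := by exact_mod_cast (by omega : A ≤ 0)
      have := sqrt_ge_left (X+A*e-B*(1+c)) y
      have h2 := neg_le_abs (X+A*e-B*(1+c))
      have : X+A*e-B*(1+c) ≤ -2 := by nlinarith
      linarith
    · have : B = 1 := by omega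
      subst this
      push_cast at *
      have hA : (-2:ℝ) < A := by linarith
      have hA2 : (A:ℝ) < 1 := by linarith
      have hA' : -2 < A := by exact_mod_cast hA
      have hA2' : A < 1 := by exact_mod_cast hA2
      have : A = 0 ∨ A = -1 := by omega
      rcases this with h | h
      · subst h
        push_cast
        have e1 : (X+0*e-1*(1+c))^2+y^2 = (1+c/2)^2 := by rw [← r.r3]; ring
        rw [e1, Real.sqrt_sq (by linarith)]
        have := le_abs_self (c/2+0+1*(1-c))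
        linarith
      · subst h
        push_cast
        have e1 : (X+(-1)*e-1*(1+c))^2+y^2 = (2-c/2)^2 := by
          rw [← r.r2]
          have : e = 2*X-(1+c) := by linarith
          rw [this]; ring
        rw [e1, Real.sqrt_sq (by linarith)]
        have := neg_le_abs (c/2+-1+1*(1-c))
        linarith

lemma OptRel.adm (r : OptRel e c X y) (n0 n1 n2 : ℤ) (h : n0 ≠ 0 ∨ n1 ≠ 0 ∨ n2 ≠ 0) :
    1 ≤ |n0+(n1+n2)*(c/2)| ∨
      2 ≤ √((n0*e+(n1+n2)*X)^2+((n1-n2)*y)^2)+|n0+(n1+n2)*(c/2)| := by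
  have y1 := r.y1
  have r1 := r.r1
  rcases lt_or_ge 1 (|n1-n2|) with hd | hd
  · right
    have h2 : (2:ℝ) ≤ |((n1:ℝ)-n2)| := by exact_mod_cast (by omega : (2:ℤ) ≤ |n1-n2|)
    have := sqrt_ge_right (n0*e+(n1+n2)*X) ((n1-n2)*y)
    rw [abs_mul, abs_of_nonneg (by linarith : 0 ≤ y)] at this
    have := abs_nonneg ((n0:ℝ)+(n1+n2)*(c/2))
    nlinarith
  · have hd' : n1 - n2 = 0 ∨ n1 - n2 = 1 ∨ n1 - n2 = -1 := by
      rw [abs_le] at hd; omega
    rcases hd' with h0 | h0 | h0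
    · have e1 : n1 = n2 := by omega
      subst e1
      have := r.d0 (n0+n1) (-n1) (by omega)
      push_cast at this
      have e2 : (n0:ℝ)+n1+-n1*(1-c) = n0+(n1+n1)*(c/2) := by ring
      have e3 : ((n0:ℝ)+n1)*e- -n1*(1+c) = n0*e+(n1+n1)*X := by
        have : e = 2*X-(1+c) := by linarith
        rw [this]; ring
      rw [e2, e3] at this
      rcases this with h | h
      · exact Or.inl h
      · right
        have := sqrt_ge_left (n0*e+(n1+n1)*X) ((n1-n1)*y)
        linarith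
    · have e1 : n1 = n2+1 := by omega
      subst e1
      have := r.d1 (n0+n2) (-n2)
      push_cast at this ⊢
      have e2 : c/2+((n0:ℝ)+n2)+-n2*(1-c) = n0+((n2+1)+n2)*(c/2) := by ring
      have e3 : (X+((n0:ℝ)+n2)*e- -n2*(1+c))^2+y^2 = (n0*e+((n2+1)+n2)*X)^2+((n2+1-n2)*y)^2 := by
        have : e = 2*X-(1+c) := by linarith
        rw [this]; ring
      rw [e2, e3] at this
      exact this
    · have e1 : n2 = n1+1 := by omega
      subst e1
      have := r.d1 (n0+n1) (-n1)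
      push_cast at this ⊢
      have e2 : c/2+((n0:ℝ)+n1)+-n1*(1-c) = n0+(n1+(n1+1))*(c/2) := by ring
      have e3 : (X+((n0:ℝ)+n1)*e- -n1*(1+c))^2+y^2 = (n0*e+(n1+(n1+1))*X)^2+((n1-(n1+1))*y)^2 := by
        have : e = 2*X-(1+c) := by linarith
        rw [this]; ring
      rw [e2, e3] at this
      exact this

/-- height parameter -/
def cP (e : ℝ) : ℝ := (3-e)/(3+e)
def XP (e : ℝ) : ℝ := (6+3*e+e^2)/(2*(3+e))
def yP (e : ℝ) : ℝ := √((3-e)*(1+e)*(5+e)/(4*(3+e)))

lemma optRel {e : ℝ} (h1 : 208/1000 < e) (h2 : e < 209/1000) : OptRel e (cP e) (XP e) (yP e) := by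
  have hp : 0 < 3+e := by linarith
  have hne : 3+e ≠ 0 := hp.ne'
  have h3 : 0 < 3-e := by linarith
  have h4 : 0 < 1+e := by linarith
  have h5 : 0 < 5+e := by linarith
  have ysq : (yP e)^2 = (3-e)*(1+e)*(5+e)/(4*(3+e)) := by
    unfold yP; rw [Real.sq_sqrt (by positivity)]
  refine ⟨?_, ?_, ?_, ?_, ?_, by linarith, by linarith, ?_⟩
  · unfold XP cP; field_simp; ring
  · rw [ysq]; unfold XP cP; field_simp; ring
  · rw [ysq]; unfold XP cP; field_simp; ring
  · unfold cP; rw [le_div_iff₀ hp]; linarith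
  · unfold cP; rw [div_le_iff₀ hp]; linarith
  · unfold yP; apply Real.le_sqrt_of_sq_le
    rw [le_div_iff₀ (by positivity)]
    nlinarith [mul_pos h3 h4, mul_pos h4 h5]

lemma opt_det {e : ℝ} (h1 : 208/1000 < e) (h2 : e < 209/1000) :
    (2*yP e*(XP e-cP e*e/2))^2 = G2 e := by
  have hp : 0 < 3+e := by linarith
  have hne : 3+e ≠ 0 := hp.ne'
  have h3 : 0 < 3-e := by linarith
  have h4 : 0 < 1+e := by linarith
  have h5 : 0 < 5+e := by linarith
  have ysq : (yP e)^2 = (3-e)*(1+e)*(5+e)/(4*(3+e)) := by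
    unfold yP; rw [Real.sq_sqrt (by positivity)]
  have : (2*yP e*(XP e-cP e*e/2))^2 = 4*(yP e)^2*(XP e-cP e*e/2)^2 := by ring
  rw [this, ysq]
  unfold XP cP G2
  field_simp
  ring

end

end Cone58
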