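import Mathlib
import Pool.Agent.Cone58.Frame
import Pool.Agent.Cone58.CoreThm
import Pool.Agent.Cone58.Opt

namespace Cone58

open MeasureTheory

noncomputable section

/-- affine homeomorphism -/
def homeo (c : E3) (L : E3 ≃ₗ[ℝ] E3) : E3 ≃ₜ E3 :=
  L.toContinuousLinearEquiv.toHomeomorph.trans (Homeomorph.addLeft c)

lemma homeo_apply (c : E3) (L : E3 ≃ₗ[ℝ] E3) (p : E3) : homeo c L p = c + L p := rfl

lemma interior_translate (v c : E3) (L : E3 ≃ₗ[ℝ] E3) :
    interior ((fun p => v + p) '' ((fun p => c + L p) '' C0)) = (fun p => v + (c + L p)) '' C1 := by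
  have e1 : (fun p => v + p) '' ((fun p => c + L p) '' C0) = homeo (v+c) L '' C0 := by
    rw [Set.image_image]
    apply Set.image_congr
    intro p _
    rw [homeo_apply]; abel
  have e2 : (fun p => v + (c + L p)) '' C1 = homeo (v+c) L '' C1 := by
    apply Set.image_congr
    intro p _
    rw [homeo_apply]; abel
  rw [e1, e2, ← Homeomorph.image_interior, interior_C0]

/-- two translates meet -/
def meets (w : E3) : Prop := |w 2| < 1 ∧ √((w 0)^2+(w 1)^2)+|w 2| < 2

lemma packing_iff (c : E3) (L : E3 ≃ₗ[ℝ] E3) (Λ : Submodule ℤ E3) :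
    IsLatticePacking ((fun p => c + L p) '' C0) Λ ↔ ∀ v ∈ Λ, v ≠ 0 → ¬ meets (L.symm v) := by
  constructor
  · intro h v hv v0 hm
    obtain ⟨p, hp1, hp2⟩ := exists_both hm.1 hm.2
    have hd := h 0 Λ.zero_mem v hv (Ne.symm v0)
    rw [interior_translate, interior_translate] at hd
    have m1 : c + L p ∈ (fun p => 0 + (c + L p)) '' C1 := ⟨p, hp1, by simp⟩
    have m2 : c + L p ∈ (fun p => v + (c + L p)) '' C1 := by
      refine ⟨p - L.symm v, hp2, ?_⟩
      simp only [map_sub, LinearEquiv.apply_symm_apply]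
      abel
    exact Set.disjoint_left.mp hd m1 m2
  · intro h v hv w hw hvw
    rw [interior_translate, interior_translate, Set.disjoint_left]
    rintro z ⟨p, hp, rfl⟩ ⟨q, hq, hz⟩
    simp only at hz
    have hl : L.symm (w - v) = p - q := by
      rw [LinearEquiv.symm_apply_eq, map_sub]
      have : w + (c + L q) - v - (c + L q) = v + (c + L p) - v - (c + L q) := by rw [hz]
      calc w - v = w + (c + L q) - v - (c + L q) := by abel
        _ = v + (c + L p) - v - (c + L q) := this
        _ = L p - L q := by abel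
    apply h (w - v) (Λ.sub_mem hw hv) (sub_ne_zero.mpr (Ne.symm hvw))
    rw [hl]
    exact not_both_of_adm hp (by rw [sub_sub_cancel]; exact hq)

lemma volume_K (c : E3) (L : E3 ≃ₗ[ℝ] E3) :
    (volume ((fun p => c + L p) '' C0)).toReal = |LinearMap.det L.toLinearMap| * (Real.pi/3) := by
  have e : (fun p => c + L p) '' C0 = (fun x => c + x) '' (L.toLinearMap '' C0) := by
    rw [Set.image_image]; rfl
  rw [e, Set.image_add_left, measure_preimage_add, Measure.addHaar_image_linearMap, volume_C0,
    ENNReal.toReal_mul, ENNReal.toReal_ofReal (abs_nonneg _), ENNReal.toReal_ofReal (by positivity)]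

/-- standard basis -/
def stdB : Module.Basis (Fin 3) ℝ E3 := (EuclideanSpace.basisFun (Fin 3) ℝ).toBasis

lemma stdB_fund : volume.real (ZSpan.fundamentalDomain stdB) = 1 := by
  rw [measureReal_congr (ZSpan.fundamentalDomain_ae_parallelepiped stdB volume)]
  have := (EuclideanSpace.basisFun (Fin 3) ℝ).volume_parallelepiped
  rw [measureReal_def]
  have e : parallelepiped ⇑stdB = parallelepiped ⇑(EuclideanSpace.basisFun (Fin 3) ℝ) := by
    congr 1
  rw [e, this]; simp

/-- determinant of three vectors -/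
def det3 (u v w : E3) : ℝ :=
  u 0*(v 1*w 2 - v 2*w 1) - u 1*(v 0*w 2 - v 2*w 0) + u 2*(v 0*w 1 - v 1*w 0)

lemma stdB_det (f : Fin 3 → E3) : stdB.det f = det3 (f 0) (f 1) (f 2) := by
  rw [Module.Basis.det_apply, Matrix.det_fin_three]
  simp only [Module.Basis.toMatrix_apply, stdB, OrthonormalBasis.coe_toBasis_repr_apply, EuclideanSpace.basisFun_repr]
  unfold det3
  ring

lemma covol (Λ : Submodule ℤ E3) [DiscreteTopology Λ] [IsZLattice ℝ Λ]
    (b : Module.Basis (Fin 3) ℤ Λ) (L : E3 ≃ₗ[ℝ] E3) :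
    ZLattice.covolume Λ = |LinearMap.det L.toLinearMap| *
      |det3 (L.symm (b 0)) (L.symm (b 1)) (L.symm (b 2))| := by
  rw [ZLattice.covolume_eq_det_mul_measureReal Λ volume b stdB, stdB_fund, mul_one, ← abs_mul]
  congr 1
  have := Module.Basis.det_comp stdB L.toLinearMap (fun i => L.symm (b i : E3))
  rw [stdB_det (fun i => L.symm (b i : E3))] at this
  rw [← this]
  congr 1
  ext i
  simp

end

end Cone58
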