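import Mathlib
import Pool.Agent.Cone58.Pack

namespace Cone58

open MeasureTheory

noncomputable section

/-- coordinates of a lattice vector in the frame `L` -/
def coordHom (L : E3 ≃ₗ[ℝ] E3) (Λ : Submodule ℤ E3) (i : Fin 3) : Λ →+ ℝ where
  toFun v := (L.symm (v : E3)) i
  map_zero' := by simp
  map_add' v w := by simp

lemma coordHom_apply (L : E3 ≃ₗ[ℝ] E3) (Λ : Submodule ℤ E3) (i : Fin 3) (v : Λ) :
    coordHom L Λ i v = (L.symm (v : E3)) i := rfl

lemma det_pos (L : E3 ≃ₗ[ℝ] E3) : 0 < |LinearMap.det L.toLinearMap| := by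
  rw [abs_pos]
  exact (LinearEquiv.isUnit_det' L).ne_zero

lemma upper (c : E3) (L : E3 ≃ₗ[ℝ] E3) {d : ℝ} (hd : d ∈ latticeDensities ((fun p => c + L p) '' C0)) :
    d ≤ (Real.pi/3)/√(G2 e0) := by
  obtain ⟨Λ, i1, i2, hp, rfl⟩ := hd
  rw [packing_iff] at hp
  have hfr : Module.finrank ℤ Λ = 3 := by
    rw [ZLattice.rank ℝ Λ]; simp
  have : Module.Free ℤ Λ := ZLattice.module_free ℝ Λ
  have : Module.Finite ℤ Λ := ZLattice.module_finite ℝ Λ
  let b : Module.Basis (Fin 3) ℤ Λ := Module.finBasisOfFinrankEq ℤ Λ hfr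
  rw [volume_K, covol Λ b L]
  have dp := det_pos L
  have cp : 0 < ZLattice.covolume Λ := ZLattice.covolume_pos Λ volume
  rw [covol Λ b L] at cp
  have D0 : 0 < |det3 (L.symm (b 0)) (L.symm (b 1)) (L.symm (b 2))| := by
    by_contra h
    push Not at h
    have := mul_nonpos_of_nonneg_of_nonpos dp.le h
    linarith
  have hD : D3 (coordHom L Λ 0) (coordHom L Λ 1) (coordHom L Λ 2) (b 0) (b 1) (b 2)
      = det3 (L.symm (b 0)) (L.symm (b 1)) (L.symm (b 2)) := by
    unfold D3 det3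
    simp only [coordHom_apply]
  have key := core (coordHom L Λ 0) (coordHom L Λ 1) (coordHom L Λ 2) (b 0) (b 1) (b 2)
    (by
      intro v
      refine ⟨b.repr v 0, b.repr v 1, b.repr v 2, ?_⟩
      have := b.sum_repr v
      rw [Fin.sum_univ_three] at this
      exact this.symm)
    (by rw [hD]; exact abs_pos.mp D0)
    (by
      intro v v0
      have := hp v v.2 (by simpa using v0)
      unfold meets at this
      unfold adm big
      simp only [coordHom_apply]
      by_cases h : 1 ≤ |(L.symm (v : E3)) 2|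
      · exact Or.inl h
      · right
        push Not at h this
        exact this h)
  rw [hD] at key
  have gp := G2_e0_pos
  have s1 : √(G2 e0) ≤ |det3 (L.symm (b 0)) (L.symm (b 1)) (L.symm (b 2))| := by
    rw [← Real.sqrt_sq_eq_abs]
    exact Real.sqrt_le_sqrt key
  have s0 : 0 < √(G2 e0) := Real.sqrt_pos.mpr gp
  rw [mul_div_mul_left _ _ dp.ne']
  exact div_le_div_of_nonneg_left (by positivity) s0 s1

lemma attained (c : E3) (L : E3 ≃ₗ[ℝ] E3) :
    (Real.pi/3)/√(G2 e0) ∈ latticeDensities ((fun p => c + L p) '' C0) := by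
  obtain ⟨g1, g2, _⟩ := e0_spec
  have r := optRel g1 g2
  have od := opt_det g1 g2
  set e := e0
  set cc := cP e
  set X := XP e
  set y := yP e
  -- basis vectors
  let f : Fin 3 → E3 := ![!₂[e,0,1], !₂[X,y,cc/2], !₂[X,-y,cc/2]]
  have f0 : f 0 = !₂[e,0,1] := rfl
  have f1 : f 1 = !₂[X,y,cc/2] := rfl
  have f2 : f 2 = !₂[X,-y,cc/2] := rfl
  have dt : det3 (f 0) (f 1) (f 2) = -(2*y*(X-cc*e/2)) := by
    rw [f0, f1, f2]; unfold det3
    simp
    ring
  have dsq : (det3 (f 0) (f 1) (f 2))^2 = G2 e := by rw [dt, neg_sq]; exact od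
  have gp := G2_e0_pos
  have dne : det3 (f 0) (f 1) (f 2) ≠ 0 := by
    intro h; rw [h] at dsq; norm_num at dsq
    linarith
  let F : Fin 3 → E3 := fun i => L (f i)
  have hdet : IsUnit (stdB.det F) := by
    have h1 : stdB.det F = LinearMap.det L.toLinearMap * stdB.det f := by
      rw [← Module.Basis.det_comp]; rfl
    rw [h1, stdB_det]
    exact isUnit_iff_ne_zero.mpr (mul_ne_zero (LinearEquiv.isUnit_det' L).ne_zero dne)
  obtain ⟨li, sp⟩ := (Module.Basis.is_basis_iff_det stdB).mpr hdet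
  let B : Module.Basis (Fin 3) ℝ E3 := Module.Basis.mk li sp.ge
  have hB : ∀ i, B i = L (f i) := by intro i; simp [B, F]
  let Λ : Submodule ℤ E3 := Submodule.span ℤ (Set.range B)
  let b : Module.Basis (Fin 3) ℤ Λ := B.restrictScalars ℤ
  have hb : ∀ i, ((b i : Λ) : E3) = L (f i) := by
    intro i
    rw [← hB]
    exact Module.Basis.restrictScalars_apply ℤ B i
  refine ⟨Λ, inferInstance, inferInstance, ?_, ?_⟩
  · rw [packing_iff]
    intro v hv v0 hm
    obtain ⟨n, hn⟩ : ∃ n : Fin 3 → ℤ, v = ∑ i, n i • L (f i) := by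
      have := b.sum_repr ⟨v, hv⟩
      refine ⟨fun i => b.repr ⟨v, hv⟩ i, ?_⟩
      have h2 := congrArg Subtype.val this
      simp only [Submodule.coe_sum, Submodule.coe_smul, hb] at h2
      exact h2.symm
    have hw : L.symm v = ∑ i, n i • f i := by
      rw [LinearEquiv.symm_apply_eq, hn, map_sum]
      congr 1; ext1 i; rw [map_zsmul]
    have nz : n 0 ≠ 0 ∨ n 1 ≠ 0 ∨ n 2 ≠ 0 := by
      by_contra h
      push Not at h
      apply v0
      rw [hn, Fin.sum_univ_three, h.1, h.2.1, h.2.2]; simp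
    have ad := r.adm (n 0) (n 1) (n 2) nz
    rw [Fin.sum_univ_three, f0, f1, f2] at hw
    have w0 : (L.symm v) 0 = n 0*e+(n 1+n 2)*X := by rw [hw]; simp; ring
    have w1 : (L.symm v) 1 = (n 1-n 2)*y := by rw [hw]; simp; ring
    have w2 : (L.symm v) 2 = n 0+(n 1+n 2)*(cc/2) := by rw [hw]; simp; ring
    obtain ⟨m1, m2⟩ := hm
    rw [w2] at m1
    rw [w0, w1, w2] at m2
    rcases ad with h | h <;> linarith
  · rw [volume_K, covol Λ b L, mul_div_mul_left _ _ (det_pos L).ne']
    simp only [hb, LinearEquiv.symm_apply_apply]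
    rw [← Real.sqrt_sq_eq_abs, dsq]

end

end Cone58
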