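import Mathlib
import Pool.Agent.Cone58.Nine

namespace Cone58

noncomputable section

lemma e0_tight : 2081542/10000000 < e0 ∧ e0 < 2081543/10000000 := by
  obtain ⟨h1, h2, h3⟩ := e0_spec
  constructor
  · by_contra h
    push Not at h
    rcases h.eq_or_lt with h | h
    · rw [h] at h3; unfold PP at h3; norm_num at h3
    · have := PP_anti (by linarith : 0 ≤ e0) h (by norm_num)
      rw [h3] at this
      unfold PP at this; norm_num at this
  · by_contra h
    push Not at h
    rcases h.eq_or_lt with h | h
    · rw [← h] at h3; unfold PP at h3; norm_num at h3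
    · have := PP_anti (by norm_num) h (by linarith)
      rw [h3] at this
      unfold PP at this; norm_num at this

lemma G2_e0_num : 49275311/10000000 < G2 e0 ∧ G2 e0 < 4927533/1000000 := by
  obtain ⟨h1, h2⟩ := e0_tight
  constructor
  · have e : (49275311/10000000:ℝ) < (3-2081543/10000000)*(1+2081542/10000000)*(5+2081542/10000000)
      *(3+(2081542/10000000)^2)^2/(3+2081543/10000000)^3 := by norm_num
    refine lt_of_lt_of_le e ?_
    unfold G2
    have p3 : 0 < 3 - e0 := by linarith
    have p0 : 0 < e0 := by linarith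
    gcongr
  · have := G2_min (e := 20815422/100000000) (by norm_num) (by norm_num)
    have h : G2 (20815422/100000000) < 4927533/1000000 := by unfold G2; norm_num
    linarith

/-- the value of the density -/
lemma value_num : 4717521/10000000 < (Real.pi/3)/√(G2 e0) ∧ (Real.pi/3)/√(G2 e0) < 4717522/10000000 := by
  obtain ⟨g1, g2⟩ := G2_e0_num
  have gp := G2_e0_pos
  have s0 : 0 < √(G2 e0) := Real.sqrt_pos.mpr gp
  have p1 := Real.pi_gt_d20
  have p2 := Real.pi_lt_d20
  have u : √(G2 e0) < 22198047300/10000000000 := by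
    rw [Real.sqrt_lt' (by norm_num)]
    refine lt_of_lt_of_le g2 ?_
    norm_num
  have l : 22198042900/10000000000 < √(G2 e0) := by
    apply Real.lt_sqrt_of_sq_lt
    refine lt_of_le_of_lt ?_ g1
    norm_num
  constructor
  · rw [lt_div_iff₀ s0]
    have : (4717521/10000000:ℝ)*√(G2 e0) < 4717521/10000000*(22198047300/10000000000) := by
      linarith
    refine lt_trans this ?_
    norm_num at p1 ⊢
    linarith
  · rw [div_lt_iff₀ s0]
    have : (4717522/10000000:ℝ)*(22198042900/10000000000) < 4717522/10000000*√(G2 e0) := by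
      linarith
    refine lt_trans ?_ this
    norm_num at p2 ⊢
    linarith

lemma value_eq : Real.pi*(3+e0)/(3*(3+e0^2)) * √((3+e0)/((3-e0)*(1+e0)*(5+e0))) = (Real.pi/3)/√(G2 e0) := by
  obtain ⟨h1, h2, _⟩ := e0_spec
  have p3 : 0 < 3 - e0 := by linarith
  have p0 : 0 < e0 := by linarith
  have e : G2 e0 = ((3+e0^2)/(3+e0))^2*((3+e0)/((3-e0)*(1+e0)*(5+e0)))⁻¹ := by
    unfold G2; field_simp
  rw [e, Real.sqrt_mul (by positivity), Real.sqrt_sq (by positivity), Real.sqrt_inv]
  have : 0 < √((3+e0)/((3-e0)*(1+e0)*(5+e0))) := Real.sqrt_pos.mpr (by positivity)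
  field_simp

end

end Cone58
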